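import Pool.Agent.SubSol.Tree

/-!
Every finite transitive set of points of `ℝᵈ` is isometric to a subset of an orbit of a finite
`2`-group of coordinate permutations. (Helper file for problem MP_528470_co.)
-/

namespace Pool.Agent.SubSol.TwoGroup

open Pool.Agent.SubSol.Tree

/-- A finite transitive set is placed isometrically in the set of all coordinate permutations of a
vector (the regular representation). -/
theorem exists_perm_vector {d : ℕ} (X : Set (EuclideanSpace ℝ (Fin d))) (hX : X.Finite)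
    (x₀ : EuclideanSpace ℝ (Fin d)) (hx₀ : x₀ ∈ X)
    (htr : ∀ x ∈ X, ∀ y ∈ X, ∃ g : EuclideanSpace ℝ (Fin d) ≃ᵢ EuclideanSpace ℝ (Fin d),
      g '' X = X ∧ g x = y) :
    ∃ (S : Type) (_ : Fintype S) (_ : Nonempty S) (β : S → ℝ)
      (L : EuclideanSpace ℝ (Fin d) → S → ℝ),
      (∀ x y, ∑ s, (L x s - L y s) ^ 2 = dist x y ^ 2) ∧
      ∀ x ∈ X, ∃ σ : Equiv.Perm S, ∀ s, L x s = β (σ s) := by
  classical
  have hfX : Finite X := hX.to_subtype
  let Γ : Subgroup (Equiv.Perm X) :=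
    { carrier := {π | ∃ g : EuclideanSpace ℝ (Fin d) ≃ᵢ EuclideanSpace ℝ (Fin d),
        ∀ x : X, g x = (π x : EuclideanSpace ℝ (Fin d))}
      one_mem' := ⟨IsometryEquiv.refl _, fun x => rfl⟩
      mul_mem' := by
        rintro π τ ⟨g, hg⟩ ⟨h, hh⟩
        refine ⟨h.trans g, fun x => ?_⟩
        change g (h x) = _
        rw [hh, hg]
        rfl
      inv_mem' := by
        rintro π ⟨g, hg⟩
        refine ⟨g.symm, fun x => ?_⟩
        rw [IsometryEquiv.symm_apply_eq, hg]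
        exact congrArg Subtype.val (π.apply_symm_apply x).symm }
  have hfin : Fintype Γ := Fintype.ofFinite Γ
  choose g hg using fun π : Γ => π.2
  set c : ℝ := (√(Fintype.card Γ : ℝ))⁻¹ with hc
  have hcard : (0 : ℝ) < Fintype.card Γ := by
    have : 0 < Fintype.card Γ := Fintype.card_pos_iff.mpr ⟨1⟩
    exact_mod_cast this
  have hc2 : (Fintype.card Γ : ℝ) * c ^ 2 = 1 := by
    rw [hc, inv_pow, Real.sq_sqrt hcard.le, mul_inv_cancel₀ hcard.ne']
  refine ⟨Option (Γ × Fin d), inferInstance, ⟨none⟩,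
    fun s => s.elim 0 fun p => c * ((p.1⁻¹ : Γ).1 ⟨x₀, hx₀⟩ : EuclideanSpace ℝ (Fin d)) p.2,
    fun x s => s.elim 0 fun p => c * ((g p.1).symm x) p.2, ?_, ?_⟩
  · intro x y
    rw [Fintype.sum_option, Fintype.sum_prod_type]
    simp only [Option.elim_none, Option.elim_some, sub_self]
    have h1 : ∀ π : Γ, ∑ j, (c * ((g π).symm x) j - c * ((g π).symm y) j) ^ 2 =
        c ^ 2 * dist x y ^ 2 := by
      intro π
      rw [← (g π).symm.dist_eq x y, EuclideanSpace.dist_sq_eq, Finset.mul_sum]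
      refine Finset.sum_congr rfl fun j _ => ?_
      rw [Real.dist_eq, sq_abs, ← mul_sub, mul_pow]
    rw [Finset.sum_congr rfl fun π _ => h1 π, Finset.sum_const, Finset.card_univ, nsmul_eq_mul,
      ← mul_assoc, hc2]
    ring
  · intro x hx
    obtain ⟨e, he, hex⟩ := htr x₀ hx₀ x hx
    -- the permutation of `X` induced by `e`
    have hmem : ∀ y : X, e y ∈ X := fun y => by
      have h1 := Set.mem_image_of_mem e y.2
      rw [he] at h1
      exact h1
    have hmem' : ∀ y : X, e.symm y ∈ X := fun y => by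
      obtain ⟨z, hz, hzy⟩ : (y : EuclideanSpace ℝ (Fin d)) ∈ e '' X := by
        rw [he]
        exact y.2
      rw [← hzy, IsometryEquiv.symm_apply_apply]
      exact hz
    let h : Equiv.Perm X :=
      { toFun := fun y => ⟨e y, hmem y⟩
        invFun := fun y => ⟨e.symm y, hmem' y⟩
        left_inv := fun y => Subtype.ext (e.symm_apply_apply y)
        right_inv := fun y => Subtype.ext (e.apply_symm_apply y) }
    have hh : h ∈ Γ := ⟨e, fun y => rfl⟩
    have hx' : (h ⟨x₀, hx₀⟩ : EuclideanSpace ℝ (Fin d)) = x := hex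
    refine ⟨Equiv.optionCongr (Equiv.prodCongr (Equiv.mulLeft (⟨h, hh⟩⁻¹ : Γ)) (Equiv.refl _)), ?_⟩
    rintro (_ | ⟨π, j⟩)
    · rfl
    · have key : (g π).symm x =
          ((((⟨h, hh⟩⁻¹ : Γ) * π)⁻¹ : Γ).1 ⟨x₀, hx₀⟩ : EuclideanSpace ℝ (Fin d)) := by
        rw [IsometryEquiv.symm_apply_eq, hg, ← hx']
        congr 1
        rw [mul_inv_rev, inv_inv]
        exact (π.1.apply_symm_apply _).symm
      change c * ((g π).symm x) j =
        c * ((((⟨h, hh⟩⁻¹ : Γ) * π)⁻¹ : Γ).1 ⟨x₀, hx₀⟩ : EuclideanSpace ℝ (Fin d)) j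
      rw [key]

/-- a permutation of the coordinates -/
noncomputable def permHom (ι : Type) [Fintype ι] :
    Equiv.Perm ι →* (EuclideanSpace ℝ ι ≃ₗᵢ[ℝ] EuclideanSpace ℝ ι) where
  toFun π := LinearIsometryEquiv.piLpCongrLeft 2 ℝ ℝ π
  map_one' := by
    ext v i
    rfl
  map_mul' π τ := by
    ext v i
    rfl

theorem permHom_apply {ι : Type} [Fintype ι] (π : Equiv.Perm ι) (v : EuclideanSpace ℝ ι) (i : ι) :
    permHom ι π v i = v (π.symm i) := rfl

/-- Every set of coordinate permutations of a vector lies isometrically in an orbit of the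
automorphism group of a binary tree permuting coordinates. -/
theorem exists_orbit {d : ℕ} (X : Set (EuclideanSpace ℝ (Fin d))) (S : Type) [Fintype S]
    [Nonempty S] (β : S → ℝ) (L : EuclideanSpace ℝ (Fin d) → S → ℝ)
    (hL : ∀ x y, ∑ s, (L x s - L y s) ^ 2 = dist x y ^ 2)
    (hX : ∀ x ∈ X, ∃ σ : Equiv.Perm S, ∀ s, L x s = β (σ s)) :
    ∃ (k : ℕ) (y₀ : EuclideanSpace ℝ (Fin k → Bool))
      (f : EuclideanSpace ℝ (Fin d) → EuclideanSpace ℝ (Fin k → Bool)), Isometry f ∧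
      ∀ x ∈ X, ∃ π ∈ K k, f x = permHom _ π y₀ := by
  classical
  obtain ⟨n, hn⟩ : ∃ n, Fintype.card S = n + 1 :=
    Nat.exists_eq_succ_of_ne_zero Fintype.card_ne_zero
  let e : S ≃ Fin (n + 1) := Fintype.equivFinOfCardEq hn
  obtain ⟨k, ρ, ⟨u₀, i₀, h0⟩, hρ⟩ := exists_pattern n
  have hcnt : ∀ i, cnt ρ i = cnt ρ i₀ := fun i => cnt_const ρ hρ i i₀
  have hpos : (0 : ℝ) < cnt ρ i₀ := by
    have : 0 < cnt ρ i₀ := Finset.card_pos.mpr ⟨u₀, by simp [h0]⟩
    exact_mod_cast this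
  set c : ℝ := (√(cnt ρ i₀ : ℝ))⁻¹ with hc
  have hc2 : (cnt ρ i₀ : ℝ) * c ^ 2 = 1 := by
    rw [hc, inv_pow, Real.sq_sqrt hpos.le, mul_inv_cancel₀ hpos.ne']
  refine ⟨k, WithLp.toLp 2 fun u => c * β (e.symm (word ρ id u)),
    fun x => WithLp.toLp 2 fun u => c * Sum.elim (fun i => L x (e.symm i))
      (fun i => β (e.symm i)) (ρ u), ?_, ?_⟩
  · refine Isometry.of_dist_eq fun x y => ?_
    rw [← sq_eq_sq₀ dist_nonneg dist_nonneg, EuclideanSpace.dist_sq_eq, ← hL x y]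
    have h1 : ∀ u, dist (c * Sum.elim (fun i => L x (e.symm i)) (fun i => β (e.symm i)) (ρ u))
        (c * Sum.elim (fun i => L y (e.symm i)) (fun i => β (e.symm i)) (ρ u)) ^ 2 =
        ∑ i, if ρ u = Sum.inl i then c ^ 2 * (L x (e.symm i) - L y (e.symm i)) ^ 2 else 0 := by
      intro u
      rw [Real.dist_eq, sq_abs, ← mul_sub, mul_pow]
      rcases ρ u with i | i
      · simp only [Sum.elim_inl, Sum.inl.injEq]
        rw [Finset.sum_ite_eq]
        simp
      · simp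
    refine (Finset.sum_congr rfl fun u _ => h1 u).trans ?_
    rw [Finset.sum_comm, ← Equiv.sum_comp e.symm (fun s => (L x s - L y s) ^ 2)]
    refine Finset.sum_congr rfl fun i _ => ?_
    rw [← Finset.sum_filter, Finset.sum_const, nsmul_eq_mul]
    change (cnt ρ i : ℝ) * _ = _
    rw [hcnt, ← mul_assoc, hc2, one_mul]
  · intro x hx
    obtain ⟨σ, hσ⟩ := hX x hx
    obtain ⟨π, hπ, h⟩ := hρ ((e.symm.trans σ).trans e)
    refine ⟨π⁻¹, (K k).inv_mem hπ, ?_⟩
    refine PiLp.ext fun u => ?_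
    rw [permHom_apply]
    change c * Sum.elim (fun i => L x (e.symm i)) (fun i => β (e.symm i)) (ρ u) =
      c * β (e.symm (word ρ id (π u)))
    rw [h, word]
    congr 1
    rcases ρ u with i | i
    · simp only [Sum.elim_inl]
      rw [hσ]
      simp
    · rfl

/-- **Every finite transitive set lies isometrically in an orbit of a finite `2`-group.** -/
theorem main {d : ℕ} (X : Set (EuclideanSpace ℝ (Fin d))) (hX : X.Finite)
    (htr : ∀ x ∈ X, ∀ y ∈ X, ∃ g : EuclideanSpace ℝ (Fin d) ≃ᵢ EuclideanSpace ℝ (Fin d),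
      g '' X = X ∧ g x = y) :
    ∃ n : ℕ, d ≤ n ∧ ∃ (Y : Set (EuclideanSpace ℝ (Fin n)))
      (G : Subgroup (EuclideanSpace ℝ (Fin n) ≃ᵢ EuclideanSpace ℝ (Fin n))),
      Y.Finite ∧ Finite G ∧ IsPGroup 2 G ∧ (∀ g ∈ G, g '' Y = Y) ∧
      (∀ x ∈ Y, ∀ y ∈ Y, ∃ g ∈ G, g x = y) ∧
      ∃ f : EuclideanSpace ℝ (Fin d) → EuclideanSpace ℝ (Fin n), Isometry f ∧ f '' X ⊆ Y := by
  rcases X.eq_empty_or_nonempty with rfl | ⟨x₀, hx₀⟩
  · refine ⟨d, le_rfl, ∅, ⊥, Set.finite_empty, inferInstance, IsPGroup.of_bot, by simp, by simp,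
      id, isometry_id, by simp⟩
  obtain ⟨S, hS, hS', β, L, hL, hLX⟩ := exists_perm_vector X hX x₀ hx₀ htr
  obtain ⟨k, y₀, f, hf, hfX⟩ := exists_orbit X S β L hL hLX
  have hd : d ≤ Module.finrank ℝ (EuclideanSpace ℝ (Fin k → Bool)) := by
    have h1 := LinearMap.finrank_le_finrank_of_injective
      (f := (hf.affineIsometryOfStrictConvexSpace).linearIsometry.toLinearMap)
      (hf.affineIsometryOfStrictConvexSpace).linearIsometry.injective
    rwa [finrank_euclideanSpace_fin] at h1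
  set n := Module.finrank ℝ (EuclideanSpace ℝ (Fin k → Bool)) with hn
  let e : EuclideanSpace ℝ (Fin k → Bool) ≃ₗᵢ[ℝ] EuclideanSpace ℝ (Fin n) :=
    (stdOrthonormalBasis ℝ (EuclideanSpace ℝ (Fin k → Bool))).repr
  let Φ : K k →* (EuclideanSpace ℝ (Fin n) ≃ᵢ EuclideanSpace ℝ (Fin n)) :=
    { toFun := fun π => (e.symm.trans ((permHom _ π.1).trans e)).toIsometryEquiv
      map_one' := by
        ext1 x
        simp
      map_mul' := by
        intro a b
        ext1 x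
        simp [IsometryEquiv.mul_apply] }
  have hΦ : ∀ (π : K k) (y : EuclideanSpace ℝ (Fin k → Bool)),
      Φ π (e y) = e (permHom _ π.1 y) := by
    intro π y
    change e (permHom _ π.1 (e.symm (e y))) = _
    rw [e.symm_apply_apply]
  refine ⟨n, hd, Set.range (fun π : K k => Φ π (e y₀)), Φ.range, Set.finite_range _,
    Finite.of_surjective _ Φ.rangeRestrict_surjective,
    (isPGroup_K k).of_surjective Φ.rangeRestrict Φ.rangeRestrict_surjective, ?_, ?_,
    fun x => e (f x), e.isometry.comp hf, ?_⟩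
  · rintro g ⟨u, rfl⟩
    ext y
    constructor
    · rintro ⟨z, ⟨w, rfl⟩, rfl⟩
      exact ⟨u * w, by simp only [map_mul, IsometryEquiv.mul_apply]⟩
    · rintro ⟨w, rfl⟩
      refine ⟨Φ (u⁻¹ * w) (e y₀), ⟨_, rfl⟩, ?_⟩
      rw [← IsometryEquiv.mul_apply, ← map_mul, mul_inv_cancel_left]
  · rintro x ⟨u, rfl⟩ y ⟨w, rfl⟩
    refine ⟨Φ (w * u⁻¹), ⟨_, rfl⟩, ?_⟩
    change Φ (w * u⁻¹) (Φ u (e y₀)) = Φ w (e y₀)
    rw [← IsometryEquiv.mul_apply, ← map_mul, inv_mul_cancel_right]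
  · rintro _ ⟨x, hx, rfl⟩
    obtain ⟨π, hπ, hx'⟩ := hfX x hx
    refine ⟨⟨π, hπ⟩, ?_⟩
    change Φ ⟨π, hπ⟩ (e y₀) = e (f x)
    rw [hΦ, ← hx']

end Pool.Agent.SubSol.TwoGroup
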