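import Pool.Agent.SubSol.Basic

/-!
The affine group of the plane over the field with three elements is soluble; it moves any three
distinct points to any three distinct points of the same kind (collinear or not). Seven labellings
of the nine points of the plane by the same nine labels such that every three labels are collinear
in exactly one of the labellings (a large set of Steiner triple systems).
-/

namespace Pool.Agent.SubSol.Affine3

open Pool.Agent.SubSol

/-- the affine plane over the field with three elements -/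
abbrev F9 : Type := ZMod 3 × ZMod 3

/-- `2 × 2` matrices over the field with three elements -/
abbrev Mat : Type := (ZMod 3 × ZMod 3) × (ZMod 3 × ZMod 3)

def app (M : Mat) (x : F9) : F9 :=
  (M.1.1 * x.1 + M.1.2 * x.2, M.2.1 * x.1 + M.2.2 * x.2)

def mulM (M N : Mat) : Mat :=
  ((M.1.1 * N.1.1 + M.1.2 * N.2.1, M.1.1 * N.1.2 + M.1.2 * N.2.2),
    (M.2.1 * N.1.1 + M.2.2 * N.2.1, M.2.1 * N.1.2 + M.2.2 * N.2.2))

def detM (M : Mat) : ZMod 3 := M.1.1 * M.2.2 - M.1.2 * M.2.1

def invM (M : Mat) : Mat :=
  ((detM M * M.2.2, -(detM M * M.1.2)), (-(detM M * M.2.1), detM M * M.1.1))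

def oneM : Mat := ((1, 0), (0, 1))

theorem app_add (M : Mat) (x y : F9) : app M (x + y) = app M x + app M y := by
  ext <;> simp [app] <;> ring

theorem app_mul (M N : Mat) (x : F9) : app (mulM M N) x = app M (app N x) := by
  ext <;> simp [app, mulM] <;> ring

theorem app_one (x : F9) : app oneM x = x := by
  ext <;> simp [app, oneM]

theorem det_mul (M N : Mat) : detM (mulM M N) = detM M * detM N := by
  simp only [detM, mulM]; ring

theorem sq_one : ∀ a : ZMod 3, a ≠ 0 → a * a = 1 := by decide

theorem app_inv (M : Mat) (h : detM M ≠ 0) (x : F9) : app (invM M) (app M x) = x := by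
  have h1 := sq_one _ h
  ext
  · have : (app (invM M) (app M x)).1 = (detM M * detM M) * x.1 := by
      simp only [app, invM, detM]; ring
    rw [this, h1, one_mul]
  · have : (app (invM M) (app M x)).2 = (detM M * detM M) * x.2 := by
      simp only [app, invM, detM]; ring
    rw [this, h1, one_mul]

theorem det_inv (M : Mat) (h : detM M ≠ 0) : detM (invM M) = detM M := by
  have h1 := sq_one _ h
  have : detM (invM M) = (detM M * detM M) * detM M := by
    simp only [detM, invM]; ring
  rw [this, h1, one_mul]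

/-- The permutation `σ` is affine with linear part `M`. -/
def IsAff (M : Mat) (σ : Equiv.Perm F9) : Prop := ∃ v : F9, ∀ x, σ x = app M x + v

theorem IsAff.mul {M N : Mat} {σ τ : Equiv.Perm F9} (h : IsAff M σ) (h' : IsAff N τ) :
    IsAff (mulM M N) (σ * τ) := by
  obtain ⟨v, hv⟩ := h
  obtain ⟨w, hw⟩ := h'
  refine ⟨app M w + v, fun x => ?_⟩
  rw [Equiv.Perm.mul_apply, hv, hw, app_add, app_mul, add_assoc]

theorem IsAff.inv {M : Mat} {σ : Equiv.Perm F9} (h : IsAff M σ) (hM : detM M ≠ 0) :
    IsAff (invM M) σ⁻¹ := by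
  obtain ⟨v, hv⟩ := h
  refine ⟨-app (invM M) v, fun x => ?_⟩
  obtain ⟨y, rfl⟩ := σ.surjective x
  have h1 : σ⁻¹ (σ y) = y := σ.symm_apply_apply y
  rw [h1, hv, app_add, app_inv M hM, add_neg_cancel_right]

/-- A set of invertible matrices closed under products and inverses. -/
structure MatGroup where
  p : Mat → Prop
  one : p oneM
  mul : ∀ M N, p M → p N → p (mulM M N)
  inv : ∀ M, p M → p (invM M)
  det : ∀ M, p M → detM M ≠ 0

/-- The group of affine maps with linear part in a group of matrices. -/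
def Aff (H : MatGroup) : Subgroup (Equiv.Perm F9) where
  carrier := {σ | ∃ M, H.p M ∧ IsAff M σ}
  one_mem' := ⟨oneM, H.one, 0, by intro x; rw [app_one, add_zero]; rfl⟩
  mul_mem' := by
    rintro σ τ ⟨M, hM, h⟩ ⟨N, hN, h'⟩
    exact ⟨_, H.mul M N hM hN, h.mul h'⟩
  inv_mem' := by
    rintro σ ⟨M, hM, h⟩
    exact ⟨_, H.inv M hM, h.inv (H.det M hM)⟩

/-- the commutator of two matrices -/
def comm (M N : Mat) : Mat := mulM (mulM (mulM M N) (invM M)) (invM N)

theorem isSolvable_step (H K : MatGroup) [Group.IsSolvable (Aff K)]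
    (h : ∀ M N, H.p M → H.p N → K.p (comm M N)) : Group.IsSolvable (Aff H) := by
  refine isSolvable_of_commutators (Aff H) (Aff K) ?_
  rintro σ ⟨M, hM, hσ⟩ τ ⟨N, hN, hτ⟩
  exact ⟨comm M N, h M N hM hN,
    ((hσ.mul hτ).mul (hσ.inv (H.det M hM))).mul (hτ.inv (H.det N hN))⟩

/-- all invertible matrices -/
def gl3 : MatGroup where
  p M := detM M ≠ 0
  one := by decide
  mul M N hM hN := by rw [det_mul]; exact mul_ne_zero hM hN
  inv M hM := by rw [det_inv M hM]; exact hM
  det M hM := hM

/-- the matrices with determinant one -/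
def sl3 : MatGroup where
  p M := detM M = 1
  one := by decide
  mul M N hM hN := by rw [det_mul, hM, hN]; rfl
  inv M hM := by rw [det_inv M (by rw [hM]; decide)]; exact hM
  det M hM := by rw [hM]; decide

/-- membership in the quaternion group -/
def isQ (M : Mat) : Bool :=
  (detM M == 1) && ((M == oneM) || (M == ((2, 0), (0, 2))) || (M.1.1 + M.2.2 == 0))

/-- membership in the group of the two scalar matrices -/
def isZ (M : Mat) : Bool := (M == oneM) || (M == ((2, 0), (0, 2)))

theorem isQ_mul : ∀ M : Mat, isQ M = true → ∀ N : Mat, isQ N = true → isQ (mulM M N) = true := by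
  decide +kernel

theorem isQ_inv : ∀ M : Mat, isQ M = true → isQ (invM M) = true ∧ detM M ≠ 0 := by
  decide +kernel

theorem isZ_mul : ∀ M : Mat, isZ M = true → ∀ N : Mat, isZ N = true → isZ (mulM M N) = true := by
  decide +kernel

theorem isZ_inv : ∀ M : Mat, isZ M = true → isZ (invM M) = true ∧ detM M ≠ 0 := by
  decide +kernel

theorem isZ_comm : ∀ M : Mat, isZ M = true → ∀ N : Mat, isZ N = true → comm M N = oneM := by
  decide +kernel

theorem isQ_comm : ∀ M : Mat, isQ M = true → ∀ N : Mat, isQ N = true →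
    isZ (comm M N) = true := by
  decide +kernel

theorem sl_comm : ∀ M : Mat, detM M = 1 → ∀ N : Mat, detM N = 1 → isQ (comm M N) = true := by
  decide +kernel

/-- the quaternion group -/
def q8 : MatGroup where
  p M := isQ M = true
  one := by decide +kernel
  mul M N hM hN := isQ_mul M hM N hN
  inv M hM := (isQ_inv M hM).1
  det M hM := (isQ_inv M hM).2

/-- the two scalar matrices -/
def z2 : MatGroup where
  p M := isZ M = true
  one := by decide +kernel
  mul M N hM hN := isZ_mul M hM N hN
  inv M hM := (isZ_inv M hM).1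
  det M hM := (isZ_inv M hM).2

/-- the identity matrix -/
def t1 : MatGroup where
  p M := M = oneM
  one := rfl
  mul := by rintro M N rfl rfl; decide +kernel
  inv := by rintro M rfl; decide +kernel
  det := by rintro M rfl; decide +kernel

theorem isSolvable_t1 : Group.IsSolvable (Aff t1) := by
  apply Group.isSolvable_of_comm
  rintro ⟨σ, M, rfl, v, h⟩ ⟨τ, N, rfl, w, h'⟩
  apply Subtype.ext
  ext1 x
  change σ (τ x) = τ (σ x)
  rw [h, h', h', h]
  simp only [app_one]
  abel

theorem isSolvable_z2 : Group.IsSolvable (Aff z2) := by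
  have := isSolvable_t1
  exact isSolvable_step z2 t1 fun M N hM hN => isZ_comm M hM N hN

theorem isSolvable_q8 : Group.IsSolvable (Aff q8) := by
  have := isSolvable_z2
  exact isSolvable_step q8 z2 fun M N hM hN => isQ_comm M hM N hN

theorem isSolvable_sl3 : Group.IsSolvable (Aff sl3) := by
  have := isSolvable_q8
  exact isSolvable_step sl3 q8 fun M N hM hN => sl_comm M hM N hN

theorem isSolvable_gl3 : Group.IsSolvable (Aff gl3) := by
  have := isSolvable_sl3
  refine isSolvable_step gl3 sl3 ?_
  intro M N hM hN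
  change detM _ = 1
  have h1 := sq_one _ hM
  have h2 := sq_one _ hN
  rw [comm, det_mul, det_mul, det_mul, det_inv M hM, det_inv N hN]
  calc detM M * detM N * detM M * detM N = (detM M * detM M) * (detM N * detM N) := by ring
    _ = 1 := by rw [h1, h2, one_mul]

/-! ### Moving triples -/

theorem normal_form1 : ∀ y z : F9, y ≠ 0 → z ≠ 0 → y ≠ z → y + z ≠ 0 →
    ∃ M : Mat, detM M ≠ 0 ∧ app M y = (1, 0) ∧ app M z = (0, 1) := by
  decide +kernel

theorem normal_form2 : ∀ y z : F9, y ≠ 0 → z ≠ 0 → y ≠ z → y + z = 0 →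
    ∃ M : Mat, detM M ≠ 0 ∧ app M y = (1, 0) ∧ app M z = (2, 0) := by
  decide +kernel

theorem det_mem (M : Mat) (hM : detM M ≠ 0) (v : F9) :
    ∃ σ ∈ Aff gl3, ∀ x, σ x = app M x + v := by
  have hinv : ∀ w, app M (app (invM M) w) = w := by
    intro w
    have hinj : Function.Injective (app M) := fun a b e => by
      rw [← app_inv M hM a, ← app_inv M hM b, e]
    obtain ⟨w', rfl⟩ := (Finite.injective_iff_surjective.mp hinj) w
    rw [app_inv M hM]
  exact ⟨⟨fun x => app M x + v, fun x => app (invM M) (x - v), fun x => by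
      change app (invM M) (app M x + v - v) = x
      rw [add_sub_cancel_right, app_inv M hM], fun x => by
      change app M (app (invM M) (x - v)) + v = x
      rw [hinv, sub_add_cancel]⟩, ⟨M, hM, v, fun x => rfl⟩, fun x => rfl⟩

theorem three_eq (x : F9) : x + x + x = 0 := by
  have : ∀ x : F9, x + x + x = 0 := by decide +kernel
  exact this x

theorem app_neg (M : Mat) (x : F9) : app M (-x) = -app M x := by
  ext <;> simp [app] <;> ring

/-- Every triple of distinct points can be moved to one of two standard triples. -/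
theorem to_std (x y z : F9) (hxy : x ≠ y) (hxz : x ≠ z) (hyz : y ≠ z) :
    ∃ σ ∈ Aff gl3, σ x = 0 ∧ σ y = (1, 0) ∧
      σ z = if x + y + z = 0 then (2, 0) else (0, 1) := by
  have key : (y - x) + (z - x) = x + y + z := by
    have h3 := three_eq x
    have : (y - x) + (z - x) = x + y + z - (x + x + x) := by abel
    rw [this, h3, sub_zero]
  have hy : y - x ≠ 0 := sub_ne_zero.mpr hxy.symm
  have hz : z - x ≠ 0 := sub_ne_zero.mpr hxz.symm
  have hyz' : y - x ≠ z - x := fun h => hyz (sub_left_injective h)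
  have main : ∀ M : Mat, detM M ≠ 0 → ∃ σ ∈ Aff gl3, σ x = 0 ∧ σ y = app M (y - x) ∧
      σ z = app M (z - x) := by
    intro M hM
    obtain ⟨σ, hσ, h⟩ := det_mem M hM (-app M x)
    refine ⟨σ, hσ, ?_, ?_, ?_⟩
    · rw [h, add_neg_cancel]
    · rw [h, sub_eq_add_neg, app_add, app_neg]
    · rw [h, sub_eq_add_neg, app_add, app_neg]
  by_cases h0 : x + y + z = 0
  · rw [if_pos h0]
    obtain ⟨M, hM, h1, h2⟩ := normal_form2 _ _ hy hz hyz' (key.trans h0)
    obtain ⟨σ, hσ, h3, h4, h5⟩ := main M hM
    exact ⟨σ, hσ, h3, h4.trans h1, h5.trans h2⟩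
  · rw [if_neg h0]
    obtain ⟨M, hM, h1, h2⟩ := normal_form1 _ _ hy hz hyz' (fun h => h0 (key.symm.trans h))
    obtain ⟨σ, hσ, h3, h4, h5⟩ := main M hM
    exact ⟨σ, hσ, h3, h4.trans h1, h5.trans h2⟩

/-- Triples of distinct points of the same kind are equivalent under the affine group. -/
theorem move (x y z x' y' z' : F9) (hxy : x ≠ y) (hxz : x ≠ z) (hyz : y ≠ z)
    (hxy' : x' ≠ y') (hxz' : x' ≠ z') (hyz' : y' ≠ z')
    (h : x + y + z = 0 ↔ x' + y' + z' = 0) :
    ∃ σ ∈ Aff gl3, σ x = x' ∧ σ y = y' ∧ σ z = z' := by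
  obtain ⟨σ, hσ, h1, h2, h3⟩ := to_std x y z hxy hxz hyz
  obtain ⟨τ, hτ, h1', h2', h3'⟩ := to_std x' y' z' hxy' hxz' hyz'
  have h4 : ∀ w, τ⁻¹ (τ w) = w := fun w => τ.symm_apply_apply w
  refine ⟨τ⁻¹ * σ, (Aff gl3).mul_mem ((Aff gl3).inv_mem hτ) hσ, ?_, ?_, ?_⟩
  · rw [Equiv.Perm.mul_apply, h1, ← h1', h4]
  · rw [Equiv.Perm.mul_apply, h2, ← h2', h4]
  · have : (if x + y + z = 0 then ((2, 0) : F9) else (0, 1)) =
        if x' + y' + z' = 0 then (2, 0) else (0, 1) := by
      simp only [h]
    rw [Equiv.Perm.mul_apply, h3, this, ← h3', h4]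

/-! ### The seven labellings -/

/-- the base labelling -/
def lab0 : Fin 9 → F9 :=
  ![(0, 2), (1, 0), (1, 1), (2, 2), (1, 2), (2, 0), (2, 1), (0, 0), (0, 1)]

/-- the cyclic shift of the first seven labels -/
def shift (b : ZMod 7) (i : Fin 9) : Fin 9 :=
  if i.val < 7 then ⟨(i.val + 6 * b.val) % 7, by omega⟩ else i

/-- the seven labellings -/
def lab (b : ZMod 7) (i : Fin 9) : F9 := lab0 (shift b i)

theorem lab_injective : ∀ b, Function.Injective (lab b) := by
  decide +kernel

theorem lab_unique : ∀ i j k : Fin 9, i ≠ j → i ≠ k → j ≠ k →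
    ∃ b : ZMod 7, ∀ b' : ZMod 7, lab b' i + lab b' j + lab b' k = 0 ↔ b' = b := by
  decide +kernel

end Pool.Agent.SubSol.Affine3
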