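import Mathlib

/-!
General facts for subsolubility (problem MP_528470_co): definitions, solvability of wreath
products acting on powers of a Euclidean space, and transfer to coordinates.
-/

namespace Pool.Agent.SubSol

/-- A set `Y` of points of `ℝⁿ` is soluble: it is finite, and some soluble group `G` of isometries
of `ℝⁿ`, each of which maps `Y` onto itself, acts transitively on `Y`. -/
def Soluble {n : ℕ} (Y : Set (EuclideanSpace ℝ (Fin n))) : Prop :=
  Y.Finite ∧ ∃ G : Subgroup (EuclideanSpace ℝ (Fin n) ≃ᵢ EuclideanSpace ℝ (Fin n)),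
    Group.IsSolvable G ∧ (∀ g ∈ G, g '' Y = Y) ∧ ∀ x ∈ Y, ∀ y ∈ Y, ∃ g ∈ G, g x = y

/-- A set `X` of points of `ℝᵈ` is subsoluble: for some `n ≥ d` there are a soluble set `Y` in `ℝⁿ`
and a distance-preserving map `f` from `ℝᵈ` to `ℝⁿ` that maps `X` into `Y`. -/
def Subsoluble {d : ℕ} (X : Set (EuclideanSpace ℝ (Fin d))) : Prop :=
  ∃ n : ℕ, d ≤ n ∧ ∃ Y : Set (EuclideanSpace ℝ (Fin n)), Soluble Y ∧
    ∃ f : EuclideanSpace ℝ (Fin d) → EuclideanSpace ℝ (Fin n), Isometry f ∧ f '' X ⊆ Y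

/-! ### Solvability lemmas -/

theorem isSolvable_pi {ι : Type*} {K : Type*} [Group K] [hK : Group.IsSolvable K] :
    Group.IsSolvable (ι → K) := by
  obtain ⟨n, hn⟩ := hK
  refine ⟨⟨n, ?_⟩⟩
  rw [eq_bot_iff]
  intro f hf
  rw [Subgroup.mem_bot]
  funext i
  have h1 : f i ∈ (derivedSeries (ι → K) n).map (Pi.evalMonoidHom (fun _ : ι => K) i) :=
    ⟨f, hf, rfl⟩
  have h2 := map_derivedSeries_le_derivedSeries (Pi.evalMonoidHom (fun _ : ι => K) i) n h1
  rw [hn, Subgroup.mem_bot] at h2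
  exact h2

theorem isSolvable_semidirect {N G : Type*} [Group N] [Group G] [Group.IsSolvable N] [Group.IsSolvable G]
    (φ : G →* MulAut N) : Group.IsSolvable (N ⋊[φ] G) :=
  Group.isSolvable_of_ker_le_range (SemidirectProduct.inl : N →* N ⋊[φ] G)
    (SemidirectProduct.rightHom : N ⋊[φ] G →* G)
    (le_of_eq SemidirectProduct.range_inl_eq_ker_rightHom.symm)

/-- If all commutators of elements of `K` lie in a soluble subgroup `N`, then `K` is soluble. -/
theorem isSolvable_of_commutators {M : Type*} [Group M] (K N : Subgroup M) [hN : Group.IsSolvable N]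
    (h : ∀ a ∈ K, ∀ b ∈ K, a * b * a⁻¹ * b⁻¹ ∈ N) : Group.IsSolvable K := by
  -- use the inclusion of `N ⊓ K` into `K` and the abelianization
  have h1 : Group.IsSolvable (N.subgroupOf K) := by
    have hinj : Function.Injective
        (((K.subtype).comp (N.subgroupOf K).subtype).codRestrict N
          (fun x => x.2)) := by
      intro x y hxy
      have := congrArg (fun z : N => (z : M)) hxy
      exact Subtype.ext (Subtype.ext this)
    exact Group.isSolvable_of_isSolvable_injective hinj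
  refine Group.isSolvable_of_ker_le_range (N.subgroupOf K).subtype (Abelianization.of (G := K)) ?_
  rw [Abelianization.ker_of, Subgroup.range_subtype, commutator_def, Subgroup.commutator_le]
  intro a _ b _
  rw [Subgroup.mem_subgroupOf]
  exact h a a.2 b b.2

/-! ### Wreath products acting on powers -/

section Wreath

variable {V : Type*} [NormedAddCommGroup V] [NormedSpace ℝ V]
variable {ι : Type*} [Fintype ι]

/-- The isometry `v ↦ (i ↦ k i (v (σ⁻¹ i)))` of the power `V^ι`. -/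
noncomputable def wmap (k : ι → V ≃ₗᵢ[ℝ] V) (σ : Equiv.Perm ι) :
    PiLp 2 (fun _ : ι => V) ≃ₗᵢ[ℝ] PiLp 2 (fun _ : ι => V) :=
  (LinearIsometryEquiv.piLpCongrLeft 2 ℝ V σ).trans (LinearIsometryEquiv.piLpCongrRight 2 k)

theorem wmap_apply (k : ι → V ≃ₗᵢ[ℝ] V) (σ : Equiv.Perm ι) (v : PiLp 2 (fun _ : ι => V)) (i : ι) :
    wmap k σ v i = k i (v (σ⁻¹ i)) := by
  rfl

/-- The wreath product as a semidirect product. -/
noncomputable def wreathHom (G : Subgroup (V ≃ₗᵢ[ℝ] V)) (P : Subgroup (Equiv.Perm ι)) :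
    ((ι → G) ⋊[(mulAutArrow (G := P) (A := ι) (M := G))] P) →*
      (PiLp 2 (fun _ : ι => V) ≃ₗᵢ[ℝ] PiLp 2 (fun _ : ι => V)) where
  toFun s := wmap (fun i => (s.left i : V ≃ₗᵢ[ℝ] V)) (s.right : Equiv.Perm ι)
  map_one' := by
    ext v i
    rfl
  map_mul' s t := by
    ext v i
    simp only [wmap_apply, SemidirectProduct.mul_left, SemidirectProduct.mul_right, Pi.mul_apply,
      Subgroup.coe_mul, LinearIsometryEquiv.coe_mul, Function.comp_apply, mul_inv_rev,
      Equiv.Perm.coe_mul]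
    rfl

theorem exists_wreath (G : Subgroup (V ≃ₗᵢ[ℝ] V)) [Finite G] [Group.IsSolvable G]
    (P : Subgroup (Equiv.Perm ι)) [Group.IsSolvable P] :
    ∃ W : Subgroup (PiLp 2 (fun _ : ι => V) ≃ₗᵢ[ℝ] PiLp 2 (fun _ : ι => V)),
      Finite W ∧ Group.IsSolvable W ∧
      ∀ k : ι → V ≃ₗᵢ[ℝ] V, (∀ i, k i ∈ G) → ∀ σ ∈ P, ∃ w ∈ W, ∀ v i, w v i = k i (v (σ i)) := by
  classical
  have : Group.IsSolvable (ι → G) := isSolvable_pi
  have : Group.IsSolvable ((ι → G) ⋊[(mulAutArrow (G := P) (A := ι) (M := G))] P) :=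
    isSolvable_semidirect _
  have : Finite ((ι → G) ⋊[(mulAutArrow (G := P) (A := ι) (M := G))] P) :=
    Finite.of_equiv _ SemidirectProduct.equivProd.symm
  refine ⟨(wreathHom G P).range, ?_, ?_, ?_⟩
  · exact Set.finite_range (wreathHom G P)
  · exact Group.isSolvable_of_surjective (wreathHom G P).rangeRestrict_surjective
  · intro k hk σ hσ
    refine ⟨wreathHom G P ⟨fun i => ⟨k i, hk i⟩, ⟨σ⁻¹, P.inv_mem hσ⟩⟩, ⟨_, rfl⟩, ?_⟩
    intro v i
    rfl

end Wreath

/-! ### Transfer to coordinates -/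

/-- A set of points of `ℝᵈ` that an isometry places inside an orbit of a finite soluble group of
linear isometries of a Euclidean space is subsoluble. -/
theorem subsoluble_of_orbit {V : Type*} [NormedAddCommGroup V] [InnerProductSpace ℝ V]
    [FiniteDimensional ℝ V] (W : Subgroup (V ≃ₗᵢ[ℝ] V)) [Finite W] [Group.IsSolvable W] (y0 : V)
    {d : ℕ} (X : Set (EuclideanSpace ℝ (Fin d))) (f : EuclideanSpace ℝ (Fin d) → V)
    (hf : Isometry f) (h : ∀ x ∈ X, ∃ w ∈ W, w y0 = f x) (hd : d ≤ Module.finrank ℝ V) :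
    Subsoluble X := by
  set n := Module.finrank ℝ V with hn
  let e : V ≃ₗᵢ[ℝ] EuclideanSpace ℝ (Fin n) := (stdOrthonormalBasis ℝ V).repr
  -- the homomorphism from `W` to isometries of `ℝⁿ`
  let Φ : W →* (EuclideanSpace ℝ (Fin n) ≃ᵢ EuclideanSpace ℝ (Fin n)) :=
    { toFun := fun w => (e.symm.trans ((w : V ≃ₗᵢ[ℝ] V).trans e)).toIsometryEquiv
      map_one' := by
        ext1 x
        simp
      map_mul' := by
        intro a b
        ext1 x
        simp [IsometryEquiv.mul_apply] }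
  have hΦ : ∀ (w : W) (y : V), Φ w (e y) = e ((w : V ≃ₗᵢ[ℝ] V) y) := by
    intro w y
    change e ((w : V ≃ₗᵢ[ℝ] V) (e.symm (e y))) = _
    rw [e.symm_apply_apply]
  refine ⟨n, hd, Set.range (fun w : W => Φ w (e y0)), ⟨Set.finite_range _, Φ.range, ?_, ?_, ?_⟩,
    fun x => e (f x), ?_, ?_⟩
  · exact Group.isSolvable_of_surjective Φ.rangeRestrict_surjective
  · rintro g ⟨u, rfl⟩
    ext y
    constructor
    · rintro ⟨z, ⟨w, rfl⟩, rfl⟩
      exact ⟨u * w, by simp only [map_mul, IsometryEquiv.mul_apply]⟩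
    · rintro ⟨w, rfl⟩
      refine ⟨Φ (u⁻¹ * w) (e y0), ⟨_, rfl⟩, ?_⟩
      rw [← IsometryEquiv.mul_apply, ← map_mul, mul_inv_cancel_left]
  · rintro x ⟨u, rfl⟩ y ⟨w, rfl⟩
    refine ⟨Φ (w * u⁻¹), ⟨_, rfl⟩, ?_⟩
    change Φ (w * u⁻¹) (Φ u (e y0)) = Φ w (e y0)
    rw [← IsometryEquiv.mul_apply, ← map_mul, inv_mul_cancel_right]
  · exact e.isometry.comp hf
  · rintro _ ⟨x, hx, rfl⟩
    obtain ⟨w, hw, hwx⟩ := h x hx
    refine ⟨⟨w, hw⟩, ?_⟩
    change Φ ⟨w, hw⟩ (e y0) = e (f x)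
    rw [hΦ, ← hwx]

end Pool.Agent.SubSol
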