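import Pool.Agent.SubSol.Icos

/-!
The orbit argument for the 120-cell.
-/

namespace Pool.Agent.SubSol

open Quaternion Q

/-! ### Multiplications by unit quaternions -/

/-- the map `x ↦ a x b` as an isometry, for unit quaternions `a`, `b` -/
noncomputable def LR (a b : ℍ) (ha : ‖a‖ = 1) (hb : ‖b‖ = 1) : ℍ ≃ₗᵢ[ℝ] ℍ :=
  LinearIsometry.toLinearIsometryEquiv
    { toLinearMap := (LinearMap.mulLeft ℝ a).comp (LinearMap.mulRight ℝ b)
      norm_map' := by
        intro x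
        simp [ha, hb] } rfl

theorem LR_apply (a b : ℍ) (ha : ‖a‖ = 1) (hb : ‖b‖ = 1) (x : ℍ) :
    LR a b ha hb x = a * x * b := by
  change a * (x * b) = a * x * b
  rw [mul_assoc]

theorem Good.mul_star {S : List Q} (hS : Good S) {p : Q} (hp : p ∈ S) :
    toH p * star (toH p) = 1 := by
  rw [← toH_conj, mul2_eq (hS.norm_one p hp), toH_one4]

theorem Good.norm {S : List Q} (hS : Good S) {p : Q} (hp : p ∈ S) : ‖toH p‖ = 1 := by
  have h := hS.mul_star hp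
  have h2 : ‖toH p‖ * ‖toH p‖ = 1 := by
    have h3 := congrArg (fun z : ℍ => ‖z‖) h
    simp only [norm_mul, Quaternion.norm_star] at h3
    rw [h3]
    simp
  nlinarith [norm_nonneg (toH p)]

theorem Good.star_mul {S : List Q} (hS : Good S) {p : Q} (hp : p ∈ S) :
    star (toH p) * toH p = 1 := by
  have h := hS.mul_star (hS.conj_mem p hp)
  rwa [toH_conj, star_star] at h

theorem mulL_apply (f g : ℍ ≃ₗᵢ[ℝ] ℍ) (x : ℍ) : (f * g) x = f (g x) := rfl

theorem inv_form {S : List Q} (hS : Good S) {p q : Q} (hp : p ∈ S) (hq : q ∈ S)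
    {f : ℍ ≃ₗᵢ[ℝ] ℍ} (hf : ∀ x, f x = toH p * x * toH q) (x : ℍ) :
    f⁻¹ x = star (toH p) * x * star (toH q) := by
  apply f.injective
  have h1 : f (f⁻¹ x) = x := f.apply_symm_apply x
  rw [h1, hf]
  calc x = (toH p * star (toH p)) * x * (star (toH q) * toH q) := by
        rw [hS.mul_star hp, hS.star_mul hq, one_mul, mul_one]
    _ = _ := by simp only [mul_assoc]

/-- the group of the maps `x ↦ p x q` with `p`, `q` in `S` -/
noncomputable def KS (S : List Q) (hS : Good S) : Subgroup (ℍ ≃ₗᵢ[ℝ] ℍ) where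
  carrier := {f | ∃ p ∈ S, ∃ q ∈ S, ∀ x, f x = toH p * x * toH q}
  one_mem' := ⟨one4, hS.one_mem, one4, hS.one_mem, by intro x; simp [toH_one4]⟩
  mul_mem' := by
    rintro f g ⟨p, hp, q, hq, hf⟩ ⟨p', hp', q', hq', hg⟩
    obtain ⟨r, hr, h1⟩ := hS.mul_mem p hp p' hp'
    obtain ⟨s, hs, h2⟩ := hS.mul_mem q' hq' q hq
    refine ⟨r, hr, s, hs, fun x => ?_⟩
    rw [mulL_apply, hf, hg, ← mul2_eq h1, ← mul2_eq h2]
    simp only [mul_assoc]
  inv_mem' := by
    rintro f ⟨p, hp, q, hq, hf⟩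
    refine ⟨conj p, hS.conj_mem p hp, conj q, hS.conj_mem q hq, fun x => ?_⟩
    rw [toH_conj, toH_conj, inv_form hS hp hq hf]

theorem mem_KS {S : List Q} {hS : Good S} {f : ℍ ≃ₗᵢ[ℝ] ℍ} :
    f ∈ KS S hS ↔ ∃ p ∈ S, ∃ q ∈ S, ∀ x, f x = toH p * x * toH q := Iff.rfl

theorem exists_KS {S : List Q} (hS : Good S) {p q : Q} (hp : p ∈ S) (hq : q ∈ S) :
    ∃ f ∈ KS S hS, ∀ x, f x = toH p * x * toH q :=
  ⟨LR (toH p) (toH q) (hS.norm hp) (hS.norm hq), ⟨p, hp, q, hq, fun x => LR_apply _ _ _ _ x⟩,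
    fun x => LR_apply _ _ _ _ x⟩

theorem finite_KS {S : List Q} (hS : Good S) : Finite (KS S hS) := by
  classical
  let F : Q × Q → (ℍ ≃ₗᵢ[ℝ] ℍ) := fun pq =>
    if h : ‖toH pq.1‖ = 1 ∧ ‖toH pq.2‖ = 1 then LR (toH pq.1) (toH pq.2) h.1 h.2 else 1
  have h1 : ((KS S hS : Subgroup _) : Set (ℍ ≃ₗᵢ[ℝ] ℍ)) ⊆
      F '' ((S.toFinset ×ˢ S.toFinset : Finset (Q × Q)) : Set (Q × Q)) := by
    rintro f ⟨p, hp, q, hq, hf⟩
    refine ⟨(p, q), ?_, ?_⟩
    · simp [hp, hq]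
    · have h2 : ‖toH p‖ = 1 ∧ ‖toH q‖ = 1 := ⟨hS.norm hp, hS.norm hq⟩
      ext1 x
      simp only [F]
      rw [dif_pos h2, LR_apply, hf]
  exact Set.Finite.subset ((Finset.finite_toSet _).image F) h1

theorem comm_KS {S T : List Q} (hS : Good S) (hT : Good T)
    (h : ∀ p ∈ S, ∀ q ∈ S, ∃ r ∈ T,
      mul (mul (mul p q) (conj p)) (conj q) = mul4 (mul4 (mul4 r))) :
    ∀ f ∈ KS S hS, ∀ g ∈ KS S hS, f * g * f⁻¹ * g⁻¹ ∈ KS T hT := by
  rintro f ⟨p, hp, q, hq, hf⟩ g ⟨p', hp', q', hq', hg⟩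
  have hfi := inv_form hS hp hq hf
  have hgi := inv_form hS hp' hq' hg
  obtain ⟨r, hr, h1⟩ := h p hp p' hp'
  obtain ⟨s, hs, h2⟩ := h (conj q') (hS.conj_mem q' hq') (conj q) (hS.conj_mem q hq)
  refine ⟨r, hr, s, hs, fun x => ?_⟩
  have e1 := mul4_eq h1
  have e2 := mul4_eq h2
  simp only [toH_conj, star_star] at e1 e2
  rw [← e1, ← e2]
  simp only [mulL_apply, hf, hg, hfi, hgi, mul_assoc]

theorem isSolvable_KZ : Group.IsSolvable (KS Zl good_Zl) := by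
  have hbot : Group.IsSolvable (⊥ : Subgroup (ℍ ≃ₗᵢ[ℝ] ℍ)) := inferInstance
  refine isSolvable_of_commutators _ ⊥ ?_
  have hone : Good [one4] := ⟨by decide +kernel, by decide +kernel, by decide +kernel,
    by decide +kernel⟩
  intro f hf g hg
  obtain ⟨p, hp, q, hq, h⟩ := comm_KS good_Zl hone (fun p hp q hq => ⟨one4, by simp,
    comm_Zl p hp q hq⟩) f hf g hg
  rw [List.mem_singleton] at hp hq
  subst hp
  subst hq
  rw [Subgroup.mem_bot]
  ext1 x
  rw [h, toH_one4]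
  simp

theorem isSolvable_KQ : Group.IsSolvable (KS Ql good_Ql) :=
  have := isSolvable_KZ
  isSolvable_of_commutators _ _ (comm_KS good_Ql good_Zl comm_Ql)

theorem isSolvable_KH : Group.IsSolvable (KS Hl good_Hl) :=
  have := isSolvable_KQ
  isSolvable_of_commutators _ _ (comm_KS good_Hl good_Ql comm_Hl)

/-! ### Affine permutations of `ℤ/5` -/

theorem perm_inv (σ : Equiv.Perm (ZMod 5)) (x : ZMod 5) : σ (σ⁻¹ x) = x :=
  σ.apply_symm_apply x

/-- affine permutations of `ℤ/5` -/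
def AGL : Subgroup (Equiv.Perm (ZMod 5)) where
  carrier := {σ | ∃ u v : ZMod 5, ∀ x, σ x = u * x + v}
  one_mem' := ⟨1, 0, by intro x; simp⟩
  mul_mem' := by
    rintro σ τ ⟨u, v, h⟩ ⟨u', v', h'⟩
    refine ⟨u * u', u * v' + v, fun x => ?_⟩
    rw [Equiv.Perm.mul_apply, h, h']
    ring
  inv_mem' := by
    rintro σ ⟨u, v, h⟩
    have hu : u ≠ 0 := by
      rintro rfl
      have h1 := h 0
      have h2 := h 1
      rw [zero_mul] at h1 h2
      exact absurd (σ.injective (h1.trans h2.symm)) (by decide)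
    have h3 : ∀ u : ZMod 5, u ≠ 0 → ∃ u', u' * u = 1 := by decide
    obtain ⟨u', hu'⟩ := h3 u hu
    refine ⟨u', -(u' * v), fun x => ?_⟩
    have h4 := h (σ⁻¹ x)
    rw [perm_inv] at h4
    calc σ⁻¹ x = (u' * u) * σ⁻¹ x := by rw [hu', one_mul]
      _ = u' * (u * σ⁻¹ x + v) + -(u' * v) := by ring
      _ = _ := by rw [← h4]

/-- translations of `ℤ/5` -/
def TRA : Subgroup (Equiv.Perm (ZMod 5)) where
  carrier := {σ | ∃ v : ZMod 5, ∀ x, σ x = x + v}
  one_mem' := ⟨0, by intro x; simp⟩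
  mul_mem' := by
    rintro σ τ ⟨v, h⟩ ⟨v', h'⟩
    refine ⟨v' + v, fun x => ?_⟩
    rw [Equiv.Perm.mul_apply, h, h']
    ring
  inv_mem' := by
    rintro σ ⟨v, h⟩
    refine ⟨-v, fun x => ?_⟩
    have h4 := h (σ⁻¹ x)
    rw [perm_inv] at h4
    calc σ⁻¹ x = (σ⁻¹ x + v) + -v := by ring
      _ = _ := by rw [← h4]

theorem isSolvable_TRA : Group.IsSolvable TRA := by
  apply Group.isSolvable_of_comm
  rintro ⟨σ, v, h⟩ ⟨τ, v', h'⟩
  apply Subtype.ext
  ext1 x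
  change σ (τ x) = τ (σ x)
  rw [h, h', h', h]
  ring

theorem isSolvable_AGL : Group.IsSolvable AGL := by
  have := isSolvable_TRA
  refine isSolvable_of_commutators AGL TRA ?_
  rintro σ ⟨u, v, h⟩ τ ⟨u', v', h'⟩
  refine ⟨u * v' + v - u' * v - v', fun x => ?_⟩
  set y := σ⁻¹ (τ⁻¹ x) with hy
  have hx : x = τ (σ y) := by rw [hy, perm_inv, perm_inv]
  have hf : (σ * τ * σ⁻¹ * τ⁻¹) x = σ (τ y) := rfl
  rw [hf, hx, h, h', h', h]
  ring

/-- the affine permutation `x ↦ u x + v` -/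
theorem exists_AGL (u v : ZMod 5) (hu : u ≠ 0) : ∃ σ ∈ AGL, ∀ x, σ x = u * x + v := by
  have h3 : ∀ u : ZMod 5, u ≠ 0 → ∃ u', u' * u = 1 := by decide
  obtain ⟨u', hu'⟩ := h3 u hu
  refine ⟨⟨fun x => u * x + v, fun x => u' * (x - v), fun x => ?_, fun x => ?_⟩,
    ⟨u, v, fun x => rfl⟩, fun x => rfl⟩
  · calc u' * (u * x + v - v) = (u' * u) * x := by ring
      _ = x := by rw [hu', one_mul]
  · calc u * (u' * (x - v)) + v = (u' * u) * (x - v) + v := by ring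
      _ = x := by rw [hu']; ring

theorem two_trans : ∀ p q r : ZMod 5, p ≠ q → r ≠ 0 →
    ∃ u v : ZMod 5, u ≠ 0 ∧ u * p + v = 0 ∧ u * q + v = r := by decide +kernel

theorem exists_match (σ τ : Equiv.Perm (ZMod 5)) : ∃ s : ZMod 5,
    ∃ α : ZMod 5 → Equiv.Perm (ZMod 5), (∀ i, α i ∈ AGL) ∧
      ∀ i j, lab (σ i) (τ j) = lab (i + s) (α i j) := by
  refine ⟨-(σ.symm 0), ?_⟩
  have key : ∀ i, ∃ a ∈ AGL, ∀ j, lab (σ i) (τ j) = lab (i + -(σ.symm 0)) (a j) := by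
    intro i
    by_cases hi : σ i = 0
    · have hi' : i + -(σ.symm 0) = 0 := by
        have : σ.symm 0 = i := by rw [← hi, Equiv.symm_apply_apply]
        rw [this]; ring
      obtain ⟨a, ha, h⟩ := exists_AGL 1 (-(τ.symm 0)) (by decide)
      refine ⟨a, ha, fun j => ?_⟩
      rw [hi, hi', h]
      have h1 : (τ j = 0) ↔ (1 * j + -(τ.symm 0) = 0) := by
        constructor
        · intro h2
          have : τ.symm 0 = j := by rw [← h2, Equiv.symm_apply_apply]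
          rw [this]; ring
        · intro h2
          have h3 : j = τ.symm 0 := by
            calc j = 1 * j + -(τ.symm 0) + τ.symm 0 := by ring
              _ = _ := by rw [h2]; ring
          rw [h3, Equiv.apply_symm_apply]
      unfold lab
      simp only [if_true]
      by_cases h4 : τ j = 0
      · rw [if_pos h4, if_pos (h1.mp h4)]
      · rw [if_neg h4, if_neg (fun h5 => h4 (h1.mpr h5))]
    · have hi' : i + -(σ.symm 0) ≠ 0 := by
        intro h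
        apply hi
        have h3 : i = σ.symm 0 := by
          calc i = i + -(σ.symm 0) + σ.symm 0 := by ring
            _ = _ := by rw [h]; ring
        rw [h3, Equiv.apply_symm_apply]
      have hpi : ∀ k : ZMod 5, k ≠ 0 → pit k ≠ 0 := by decide +kernel
      obtain ⟨u, v, hu, h0, h1⟩ := two_trans (τ.symm 0) (τ.symm (pit (σ i)))
        (pit (i + -(σ.symm 0))) (fun h => hpi _ hi (τ.symm.injective h).symm) (hpi _ hi')
      obtain ⟨a, ha, h⟩ := exists_AGL u v hu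
      refine ⟨a, ha, fun j => ?_⟩
      have e0 : τ j = 0 ↔ a j = 0 := by
        have h5 : a (τ.symm 0) = 0 := by rw [h, h0]
        rw [← h5, a.injective.eq_iff, Equiv.eq_symm_apply, h5]
      have e1 : τ j = pit (σ i) ↔ a j = pit (i + -(σ.symm 0)) := by
        have h5 : a (τ.symm (pit (σ i))) = pit (i + -(σ.symm 0)) := by rw [h, h1]
        rw [← h5, a.injective.eq_iff, Equiv.eq_symm_apply]
      unfold lab
      rw [if_neg hi, if_neg hi']
      by_cases h4 : τ j = 0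
      · rw [if_pos h4, if_pos (e0.mp h4)]
      · rw [if_neg h4, if_neg (fun h5 => h4 (e0.mpr h5))]
        by_cases h6 : τ j = pit (σ i)
        · rw [if_pos h6, if_pos (e1.mp h6)]
        · rw [if_neg h6, if_neg (fun h5 => h6 (e1.mpr h5))]
  choose α hα h using key
  exact ⟨α, hα, h⟩

/-! ### The large group -/

/-- five copies of the quaternions -/
abbrev V5 : Type := PiLp 2 (fun _ : ZMod 5 => ℍ)

/-- twenty-five copies of the quaternions -/
abbrev V25 : Type := PiLp 2 (fun _ : ZMod 5 => V5)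

theorem exists_big : ∃ W : Subgroup (V25 ≃ₗᵢ[ℝ] V25), Finite W ∧ Group.IsSolvable W ∧
    ∀ κ : ZMod 5 → ZMod 5 → (ℍ ≃ₗᵢ[ℝ] ℍ), (∀ i j, κ i j ∈ KS Hl good_Hl) →
    ∀ α : ZMod 5 → Equiv.Perm (ZMod 5), (∀ i, α i ∈ AGL) → ∀ s : ZMod 5,
    ∃ w ∈ W, ∀ v i j, (w v) i j = κ i j (v (i + s) (α i j)) := by
  have := isSolvable_KH
  have := finite_KS good_Hl
  have := isSolvable_AGL
  have := isSolvable_TRA
  obtain ⟨W1, hf1, hs1, h1⟩ := exists_wreath (KS Hl good_Hl) AGL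
  obtain ⟨W2, hf2, hs2, h2⟩ := exists_wreath W1 TRA
  refine ⟨W2, hf2, hs2, ?_⟩
  intro κ hκ α hα s
  have h3 : ∀ i, ∃ w ∈ W1, ∀ v j, w v j = κ i j (v (α i j)) := fun i =>
    h1 (κ i) (hκ i) (α i) (hα i)
  choose k hk hk2 using h3
  obtain ⟨w, hw, hw2⟩ := h2 k hk (Equiv.addRight s) ⟨s, fun x => rfl⟩
  refine ⟨w, hw, fun v i j => ?_⟩
  rw [hw2, hk2]
  rfl

/-! ### The embedding -/

theorem norm_cp (i : ZMod 5) : ‖toH (cp i)‖ = 1 := by
  have h1 : toH (cp i) * toH (cp (-i)) = 1 := by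
    rw [mul2_eq (cp_mul i (-i)), add_neg_cancel, cp_zero, toH_one4]
  rw [← cp_conj, toH_conj] at h1
  have h3 := congrArg (fun z : ℍ => ‖z‖) h1
  simp only [norm_mul, Quaternion.norm_star] at h3
  have h4 : ‖toH (cp i)‖ * ‖toH (cp i)‖ = 1 := by
    rw [h3]
    simp
  nlinarith [norm_nonneg (toH (cp i))]

/-- the isometric embedding `x ↦ (c⁻ⁱ x cʲ / 5)` -/
noncomputable def T : ℍ →ₗᵢ[ℝ] V25 where
  toFun x := WithLp.toLp 2 (fun i => WithLp.toLp 2 (fun j =>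
    (1 / 5 : ℝ) • (toH (cp (-i)) * x * toH (cp j))))
  map_add' x y := by
    refine PiLp.ext fun i => PiLp.ext fun j => ?_
    simp [mul_add, add_mul]
  map_smul' r x := by
    refine PiLp.ext fun i => PiLp.ext fun j => ?_
    simp [smul_smul, mul_comm]
  norm_map' x := by
    have h1 : ∀ i j : ZMod 5, ‖(1 / 5 : ℝ) • (toH (cp (-i)) * x * toH (cp j))‖ = 1 / 5 * ‖x‖ := by
      intro i j
      rw [norm_smul, norm_mul, norm_mul, norm_cp, norm_cp]
      norm_num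
    have h2 : ‖(WithLp.toLp 2 (fun i => WithLp.toLp 2 (fun j =>
        (1 / 5 : ℝ) • (toH (cp (-i)) * x * toH (cp j)))) : V25)‖ ^ 2 = ‖x‖ ^ 2 := by
      rw [PiLp.norm_sq_eq_of_L2]
      simp only [PiLp.norm_sq_eq_of_L2, h1]
      simp only [Finset.sum_const, Finset.card_univ, ZMod.card]
      ring
    have h3 := (sq_eq_sq₀ (norm_nonneg _) (norm_nonneg _)).mp h2
    exact h3

theorem T_apply (x : ℍ) (i j : ZMod 5) :
    T x i j = (1 / 5 : ℝ) • (toH (cp (-i)) * x * toH (cp j)) := rfl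

/-! ### The orbit argument -/

/-- the relation of lying in one orbit of the group of the maps `x ↦ a x b` -/
def Rel (x y : ℍ) : Prop := ∃ a ∈ Hl, ∃ b ∈ Hl, x = toH a * y * toH b

theorem Rel.symm {x y : ℍ} (h : Rel x y) : Rel y x := by
  obtain ⟨a, ha, b, hb, rfl⟩ := h
  refine ⟨conj a, good_Hl.conj_mem a ha, conj b, good_Hl.conj_mem b hb, ?_⟩
  rw [toH_conj, toH_conj]
  calc y = (star (toH a) * toH a) * y * (toH b * star (toH b)) := by
        rw [good_Hl.star_mul ha, good_Hl.mul_star hb, one_mul, mul_one]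
    _ = _ := by simp only [mul_assoc]

theorem Rel.trans {x y z : ℍ} (h : Rel x y) (h' : Rel y z) : Rel x z := by
  obtain ⟨a, ha, b, hb, rfl⟩ := h
  obtain ⟨a', ha', b', hb', rfl⟩ := h'
  obtain ⟨r, hr, h1⟩ := good_Hl.mul_mem a ha a' ha'
  obtain ⟨s, hs, h2⟩ := good_Hl.mul_mem b' hb' b hb
  refine ⟨r, hr, s, hs, ?_⟩
  rw [← mul2_eq h1, ← mul2_eq h2]
  simp only [mul_assoc]

/-- the points `c⁻ⁱ w cʲ` -/
noncomputable def yy (i j : ZMod 5) : ℍ := toH (cp (-i)) * toH w4 * toH (cp j)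

theorem rel_rep (i j : ZMod 5) : Rel (yy i j) (yy (repr (lab i j)).1 (repr (lab i j)).2) := by
  refine ⟨(cert i j).1, (cert_mem i j).1, (cert i j).2, (cert_mem i j).2, ?_⟩
  have h1 := congrArg toH (cert_spec i j)
  rw [toH_mul, toH_mul, toH_mul, toH_mul, toH_mul4, toH_mul4, toH_mul, toH_mul] at h1
  simp only [smul_mul_assoc] at h1
  have h2 := smul_right_injective ℍ (by norm_num : (4 : ℝ) ≠ 0)
    (smul_right_injective ℍ (by norm_num : (4 : ℝ) ≠ 0)
      (smul_right_injective ℍ (by norm_num : (4 : ℝ) ≠ 0)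
        (smul_right_injective ℍ (by norm_num : (4 : ℝ) ≠ 0) h1)))
  unfold yy
  rw [← h2]
  simp only [mul_assoc]

theorem rel_of_lab {i j i' j' : ZMod 5} (h : lab i j = lab i' j') : Rel (yy i j) (yy i' j') := by
  have h1 := rel_rep i j
  have h2 := rel_rep i' j'
  rw [h] at h1
  exact h1.trans h2.symm

/-- the vertices of the 120-cell, as quaternions, scaled by `1/2` -/
def JJ : Set ℍ := {x | ∃ a ∈ Hl, ∃ b ∈ Hl, ∃ m n : ZMod 5,
  x = toH a * toH (cp (-m)) * toH w4 * toH (cp n) * toH b}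

theorem cp_cp (i j : ZMod 5) : toH (cp i) * toH (cp j) = toH (cp (i + j)) := mul2_eq (cp_mul i j)

theorem cp_inv (i : ZMod 5) : toH (cp i) * toH (cp (-i)) = 1 := by
  rw [cp_cp, add_neg_cancel, cp_zero, toH_one4]

theorem cp_inv' (i : ZMod 5) : toH (cp (-i)) * toH (cp i) = 1 := by
  rw [cp_cp, neg_add_cancel, cp_zero, toH_one4]

theorem left_move {a : Q} (ha : a ∈ Hl) : ∃ σ : Equiv.Perm (ZMod 5), ∀ i, ∃ r ∈ Hl,
    toH (cp (-i)) * toH a = toH r * toH (cp (-(σ i))) := by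
  obtain ⟨p, hp, rfl⟩ := HT_cover a ha
  have hb : Function.Bijective p.2 := Finite.injective_iff_bijective.mp (HT_inj p hp)
  refine ⟨Equiv.ofBijective p.2 hb, fun i => ?_⟩
  obtain ⟨r, hr, h⟩ := HT_left p hp i
  refine ⟨r, hr, ?_⟩
  rw [Equiv.ofBijective_apply, ← mul3_eq h, mul_assoc _ (toH (cp (p.2 i))), cp_inv, mul_one]

theorem right_move {b : Q} (hb : b ∈ Hl) : ∃ τ : Equiv.Perm (ZMod 5), ∀ j, ∃ r ∈ Hl,
    toH b * toH (cp j) = toH (cp (τ j)) * toH r := by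
  obtain ⟨τ, h⟩ := left_move (good_Hl.conj_mem b hb)
  refine ⟨τ, fun j => ?_⟩
  obtain ⟨r, hr, h1⟩ := h j
  refine ⟨conj r, good_Hl.conj_mem r hr, ?_⟩
  have h2 := congrArg star h1
  rw [StarMul.star_mul, StarMul.star_mul, ← toH_conj, ← toH_conj, ← toH_conj, ← toH_conj,
    cp_conj, cp_conj, neg_neg, neg_neg] at h2
  have h3 : conj (conj b) = b := by
    ext1 <;> simp [conj]
  rwa [h3] at h2

theorem sites {x : ℍ} (hx : x ∈ JJ) : ∃ σ τ : Equiv.Perm (ZMod 5), ∀ i j,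
    Rel (toH (cp (-i)) * x * toH (cp j)) (yy (σ i) (τ j)) := by
  obtain ⟨a, ha, b, hb, m, n, rfl⟩ := hx
  obtain ⟨σ, hσ⟩ := left_move ha
  obtain ⟨τ, hτ⟩ := right_move hb
  refine ⟨σ.trans (Equiv.addRight m), τ.trans (Equiv.addLeft n), fun i j => ?_⟩
  obtain ⟨r, hr, h1⟩ := hσ i
  obtain ⟨s, hs, h2⟩ := hτ j
  refine ⟨r, hr, s, hs, ?_⟩
  have e1 : yy ((σ.trans (Equiv.addRight m)) i) ((τ.trans (Equiv.addLeft n)) j) =
      toH (cp (-(σ i))) * toH (cp (-m)) * toH w4 * (toH (cp n) * toH (cp (τ j))) := by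
    have e0 : -((σ.trans (Equiv.addRight m)) i) = -(σ i) + -m := by
      change -(σ i + m) = _
      ring
    have e2 : (τ.trans (Equiv.addLeft n)) j = n + τ j := rfl
    unfold yy
    rw [cp_cp, cp_cp, e0, e2]
  rw [e1]
  calc toH (cp (-i)) * (toH a * toH (cp (-m)) * toH w4 * toH (cp n) * toH b) * toH (cp j)
      = (toH (cp (-i)) * toH a) * toH (cp (-m)) * toH w4 * toH (cp n) * (toH b * toH (cp j)) := by
        simp only [mul_assoc]
    _ = _ := by
        rw [h1, h2]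
        simp only [mul_assoc]

/-- All images `T x` of points `x` of the 120-cell lie in one orbit of a soluble group. -/
theorem main_orbit : ∃ W : Subgroup (V25 ≃ₗᵢ[ℝ] V25), Finite W ∧ Group.IsSolvable W ∧
    ∀ x ∈ JJ, ∃ w ∈ W, w (T (toH w4)) = T x := by
  obtain ⟨W, hf, hs, h⟩ := exists_big
  refine ⟨W, hf, hs, fun x hx => ?_⟩
  obtain ⟨σ, τ, h1⟩ := sites hx
  obtain ⟨s, α, hα, h2⟩ := exists_match σ τ
  have h3 : ∀ i j, ∃ f ∈ KS Hl good_Hl,
      toH (cp (-i)) * x * toH (cp j) = f (yy (i + s) (α i j)) := by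
    intro i j
    obtain ⟨a, ha, b, hb, h4⟩ := (h1 i j).trans (rel_of_lab (h2 i j))
    obtain ⟨f, hf, hf2⟩ := exists_KS good_Hl ha hb
    exact ⟨f, hf, by rw [h4, hf2]⟩
  choose κ hκ h5 using h3
  obtain ⟨w, hw, h6⟩ := h κ hκ α hα s
  refine ⟨w, hw, ?_⟩
  refine PiLp.ext fun i => PiLp.ext fun j => ?_
  rw [h6, T_apply, T_apply, LinearIsometryEquiv.map_smul, h5]
  rfl

end Pool.Agent.SubSol
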