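import Pool.Agent.SubSol.Cell

/-!
The vertex set of the 120-cell is subsoluble.
-/

namespace Pool.Agent.SubSol.Cell120

open Pool.Agent.SubSol Quaternion Q Real
open scoped goldenRatio

/-- The generating vectors of the 120-cell all of whose coordinate permutations are used;
`φ` is the golden ratio. -/
noncomputable def famAll : List (Fin 4 → ℝ) :=
  [![0, 0, 2, 2], ![1, 1, 1, √5], ![φ, φ, φ, (φ ^ 2)⁻¹], ![φ⁻¹, φ⁻¹, φ⁻¹, φ ^ 2]]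

/-- The generating vectors of the 120-cell whose even coordinate permutations are used. -/
noncomputable def famEven : List (Fin 4 → ℝ) :=
  [![0, (φ ^ 2)⁻¹, 1, φ ^ 2], ![0, φ⁻¹, φ, √5], ![φ⁻¹, 1, φ, 2]]

/-- The vertex set of the regular 120-cell of circumradius `2√2` (Coxeter's coordinates):
all permutations of `(0, 0, ±2, ±2)`, `(±1, ±1, ±1, ±√5)`, `(±φ, ±φ, ±φ, ±φ⁻²)`,
`(±φ⁻¹, ±φ⁻¹, ±φ⁻¹, ±φ²)` and all even permutations of `(0, ±φ⁻², ±1, ±φ²)`,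
`(0, ±φ⁻¹, ±φ, ±√5)`, `(±φ⁻¹, ±1, ±φ, ±2)`. -/
def cell120 : Set (EuclideanSpace ℝ (Fin 4)) :=
  {x | ∃ (v : Fin 4 → ℝ) (σ : Equiv.Perm (Fin 4)) (ε : Fin 4 → ℝ),
    (v ∈ famAll ∨ (v ∈ famEven ∧ Equiv.Perm.sign σ = 1)) ∧
    (∀ i, ε i = 1 ∨ ε i = -1) ∧ ∀ i, x i = ε i * v (σ i)}

/-! ### Symmetries of the set of vertices -/

/-- half of a vector, as a quaternion -/
noncomputable def qv (v : Fin 4 → ℝ) : ℍ := ⟨v 0 / 2, v 1 / 2, v 2 / 2, v 3 / 2⟩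

@[simp] theorem qv_re (v : Fin 4 → ℝ) : (qv v).re = v 0 / 2 := rfl
@[simp] theorem qv_imI (v : Fin 4 → ℝ) : (qv v).imI = v 1 / 2 := rfl
@[simp] theorem qv_imJ (v : Fin 4 → ℝ) : (qv v).imJ = v 2 / 2 := rfl
@[simp] theorem qv_imK (v : Fin 4 → ℝ) : (qv v).imK = v 3 / 2 := rfl

theorem JJ_mul {x : ℍ} (hx : x ∈ JJ) {a b : Q} (ha : a ∈ Hl) (hb : b ∈ Hl) :
    toH a * x * toH b ∈ JJ := by
  obtain ⟨a', ha', b', hb', m, n, rfl⟩ := hx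
  obtain ⟨r, hr, h1⟩ := good_Hl.mul_mem a ha a' ha'
  obtain ⟨s, hs, h2⟩ := good_Hl.mul_mem b' hb' b hb
  refine ⟨r, hr, s, hs, m, n, ?_⟩
  rw [← mul2_eq h1, ← mul2_eq h2]
  simp only [mul_assoc]

theorem tr_mk (m n : ℤ) : tr ⟨m, n⟩ = m + n * √5 := by
  simp [tr, Zsqrtd.toReal, Zsqrtd.lift]

theorem tr_two : tr 2 = 2 := map_ofNat tr 2

/-- flipping the signs of coordinates `0`, `1` -/
theorem qv_e1 {v : Fin 4 → ℝ} (h : qv v ∈ JJ) : qv ![-v 0, -v 1, v 2, v 3] ∈ JJ := by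
  have h1 := JJ_mul h (a := ⟨0, 4, 0, 0⟩) (b := ⟨0, 4, 0, 0⟩) (by decide +kernel)
    (by decide +kernel)
  have h2 : qv ![-v 0, -v 1, v 2, v 3] = toH ⟨0, 4, 0, 0⟩ * qv v * toH ⟨0, 4, 0, 0⟩ := by
    ext <;> simp <;> ring
  rwa [h2]

/-- flipping the signs of coordinates `0`, `2` -/
theorem qv_e2 {v : Fin 4 → ℝ} (h : qv v ∈ JJ) : qv ![-v 0, v 1, -v 2, v 3] ∈ JJ := by
  have h1 := JJ_mul h (a := ⟨0, 0, 4, 0⟩) (b := ⟨0, 0, 4, 0⟩) (by decide +kernel)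
    (by decide +kernel)
  have h2 : qv ![-v 0, v 1, -v 2, v 3] = toH ⟨0, 0, 4, 0⟩ * qv v * toH ⟨0, 0, 4, 0⟩ := by
    ext <;> simp <;> ring
  rwa [h2]

/-- flipping the signs of coordinates `0`, `3` -/
theorem qv_e3 {v : Fin 4 → ℝ} (h : qv v ∈ JJ) : qv ![-v 0, v 1, v 2, -v 3] ∈ JJ := by
  have h1 := JJ_mul h (a := ⟨0, 0, 0, 4⟩) (b := ⟨0, 0, 0, 4⟩) (by decide +kernel)
    (by decide +kernel)
  have h2 : qv ![-v 0, v 1, v 2, -v 3] = toH ⟨0, 0, 0, 4⟩ * qv v * toH ⟨0, 0, 0, 4⟩ := by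
    ext <;> simp <;> ring
  rwa [h2]

/-- the permutation `(0 1)(2 3)` of coordinates -/
theorem qv_d1 {v : Fin 4 → ℝ} (h : qv v ∈ JJ) : qv ![v 1, v 0, v 3, v 2] ∈ JJ := by
  have h1 := JJ_mul h (a := ⟨0, 0, 0, -4⟩) (b := ⟨0, 0, 4, 0⟩) (by decide +kernel)
    (by decide +kernel)
  have h2 : qv ![v 1, v 0, v 3, v 2] = toH ⟨0, 0, 0, -4⟩ * qv v * toH ⟨0, 0, 4, 0⟩ := by
    ext <;> simp
  rwa [h2]

/-- the permutation `(0 2)(1 3)` of coordinates -/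
theorem qv_d2 {v : Fin 4 → ℝ} (h : qv v ∈ JJ) : qv ![v 2, v 3, v 0, v 1] ∈ JJ := by
  have h1 := JJ_mul h (a := ⟨0, -4, 0, 0⟩) (b := ⟨0, 0, 0, 4⟩) (by decide +kernel)
    (by decide +kernel)
  have h2 : qv ![v 2, v 3, v 0, v 1] = toH ⟨0, -4, 0, 0⟩ * qv v * toH ⟨0, 0, 0, 4⟩ := by
    ext <;> simp
  rwa [h2]

/-- a cyclic permutation of three coordinates -/
theorem qv_r {v : Fin 4 → ℝ} (h : qv v ∈ JJ) : qv ![v 0, v 3, v 1, v 2] ∈ JJ := by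
  have h1 := JJ_mul h (a := ⟨2, 2, 2, 2⟩) (b := ⟨2, -2, -2, -2⟩) (by decide +kernel)
    (by decide +kernel)
  have h2 : qv ![v 0, v 3, v 1, v 2] = toH ⟨2, 2, 2, 2⟩ * qv v * toH ⟨2, -2, -2, -2⟩ := by
    ext <;> simp [tr_two] <;> ring
  rwa [h2]

/-- the generators of the alternating group -/
def D1 : Equiv.Perm (Fin 4) := Equiv.swap 0 1 * Equiv.swap 2 3
/-- the generators of the alternating group -/
def D2 : Equiv.Perm (Fin 4) := Equiv.swap 0 2 * Equiv.swap 1 3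
/-- the generators of the alternating group -/
def R : Equiv.Perm (Fin 4) := Equiv.swap 1 2 * Equiv.swap 1 3

theorem even_words : ∀ σ : Equiv.Perm (Fin 4), Equiv.Perm.sign σ = 1 →
    ∃ a : Fin 2, ∃ b : Fin 2, ∃ c : Fin 3, σ = D1 ^ (a : ℕ) * D2 ^ (b : ℕ) * R ^ (c : ℕ) := by
  decide +kernel

/-- the permutations that preserve the set of vertices -/
def PP : Submonoid (Equiv.Perm (Fin 4)) where
  carrier := {σ | ∀ v : Fin 4 → ℝ, qv v ∈ JJ → qv (v ∘ σ) ∈ JJ}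
  one_mem' := fun v h => h
  mul_mem' := fun {σ τ} hσ hτ v h => hτ (v ∘ σ) (hσ v h)

theorem D1_mem : D1 ∈ PP := by
  intro v h
  have h1 := qv_d1 h
  have h2 : ![v 1, v 0, v 3, v 2] = v ∘ D1 := by
    have e0 : D1 0 = 1 := by decide
    have e1 : D1 1 = 0 := by decide
    have e2 : D1 2 = 3 := by decide
    have e3 : D1 3 = 2 := by decide
    funext i
    fin_cases i <;> simp [e0, e1, e2, e3]
  rwa [h2] at h1

theorem D2_mem : D2 ∈ PP := by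
  intro v h
  have h1 := qv_d2 h
  have h2 : ![v 2, v 3, v 0, v 1] = v ∘ D2 := by
    have e0 : D2 0 = 2 := by decide
    have e1 : D2 1 = 3 := by decide
    have e2 : D2 2 = 0 := by decide
    have e3 : D2 3 = 1 := by decide
    funext i
    fin_cases i <;> simp [e0, e1, e2, e3]
  rwa [h2] at h1

theorem R_mem : R ∈ PP := by
  intro v h
  have h1 := qv_r h
  have h2 : ![v 0, v 3, v 1, v 2] = v ∘ R := by
    have e0 : R 0 = 0 := by decide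
    have e1 : R 1 = 3 := by decide
    have e2 : R 2 = 1 := by decide
    have e3 : R 3 = 2 := by decide
    funext i
    fin_cases i <;> simp [e0, e1, e2, e3]
  rwa [h2] at h1

theorem even_mem (σ : Equiv.Perm (Fin 4)) (hσ : Equiv.Perm.sign σ = 1) : σ ∈ PP := by
  obtain ⟨a, b, c, rfl⟩ := even_words σ hσ
  exact PP.mul_mem (PP.mul_mem (PP.pow_mem D1_mem _) (PP.pow_mem D2_mem _)) (PP.pow_mem R_mem _)

/-- If `v` and the vector with the first sign flipped are vertices, so are all the vectors with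
arbitrary signs. -/
theorem signs {v : Fin 4 → ℝ} (h : qv v ∈ JJ) (h' : qv ![-v 0, v 1, v 2, v 3] ∈ JJ)
    (ε : Fin 4 → ℝ) (hε : ∀ i, ε i = 1 ∨ ε i = -1) : qv (fun i => ε i * v i) ∈ JJ := by
  -- even sign changes
  have key : ∀ u : Fin 4 → ℝ, qv u ∈ JJ → ∀ a b c : ℝ, (a = 1 ∨ a = -1) → (b = 1 ∨ b = -1) →
      (c = 1 ∨ c = -1) → qv ![a * b * c * u 0, a * u 1, b * u 2, c * u 3] ∈ JJ := by
    intro u hu a b c ha hb hc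
    have h1 : qv ![a * u 0, a * u 1, u 2, u 3] ∈ JJ := by
      rcases ha with rfl | rfl
      · convert hu using 2
        funext i
        fin_cases i <;> simp
      · convert qv_e1 hu using 2
        funext i
        fin_cases i <;> simp
    have h2 : qv ![b * (a * u 0), a * u 1, b * u 2, u 3] ∈ JJ := by
      rcases hb with rfl | rfl
      · convert h1 using 2
        funext i
        fin_cases i <;> simp
      · convert qv_e2 h1 using 2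
        funext i
        fin_cases i <;> simp
    have h3 : qv ![c * (b * (a * u 0)), a * u 1, b * u 2, c * u 3] ∈ JJ := by
      rcases hc with rfl | rfl
      · convert h2 using 2
        funext i
        fin_cases i <;> simp
      · convert qv_e3 h2 using 2
        funext i
        fin_cases i <;> simp
    convert h3 using 2
    funext i
    fin_cases i <;> simp <;> ring
  have hprod : ε 1 * ε 2 * ε 3 = ε 0 ∨ ε 1 * ε 2 * ε 3 = - ε 0 := by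
    rcases hε 0 with h0 | h0 <;> rcases hε 1 with h1 | h1 <;> rcases hε 2 with h2 | h2 <;>
      rcases hε 3 with h3 | h3 <;> simp [h0, h1, h2, h3]
  rcases hprod with hp | hp
  · have h1 := key v h (ε 1) (ε 2) (ε 3) (hε 1) (hε 2) (hε 3)
    rw [hp] at h1
    convert h1 using 2
    funext i
    fin_cases i <;> simp
  · have h1 := key _ h' (ε 1) (ε 2) (ε 3) (hε 1) (hε 2) (hε 3)
    rw [hp] at h1
    convert h1 using 2
    funext i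
    fin_cases i <;> simp

theorem base_mem {t : Q × Q × ZMod 5 × ZMod 5 × Q} (ht : t ∈ baseT) : toH t.1 ∈ JJ := by
  obtain ⟨ha, hb, h⟩ := base_spec t ht
  exact ⟨t.2.1, ha, t.2.2.2.2, hb, t.2.2.1, t.2.2.2.1, (mul5_eq h).symm⟩

theorem phi_eq : φ = (1 + √5) / 2 := rfl

theorem sqrt5_sq : √5 * √5 = 5 := Real.mul_self_sqrt (by norm_num)

theorem phi_inv : φ⁻¹ = (√5 - 1) / 2 := by
  have h : φ * ((√5 - 1) / 2) = 1 := by
    rw [phi_eq]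
    nlinarith [sqrt5_sq]
  exact inv_eq_of_mul_eq_one_right h

theorem phi_sq : φ ^ 2 = (3 + √5) / 2 := by
  rw [phi_eq]
  nlinarith [sqrt5_sq]

theorem phi_sq_inv : (φ ^ 2)⁻¹ = (3 - √5) / 2 := by
  have h : φ ^ 2 * ((3 - √5) / 2) = 1 := by
    rw [phi_sq]
    nlinarith [sqrt5_sq]
  exact inv_eq_of_mul_eq_one_right h

theorem mem_of_base (p : Q) (h : ∃ t ∈ baseT, t.1 = p) : toH p ∈ JJ := by
  obtain ⟨t, ht, rfl⟩ := h
  exact base_mem ht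

theorem base_a : qv ![0, 0, 2, 2] ∈ JJ := by
  have h := mem_of_base ⟨⟨0, 0⟩, ⟨0, 0⟩, ⟨4, 0⟩, ⟨4, 0⟩⟩ (by decide +kernel)
  have h2 : qv ![0, 0, 2, 2] = toH ⟨⟨0, 0⟩, ⟨0, 0⟩, ⟨4, 0⟩, ⟨4, 0⟩⟩ := by
    try rw [phi_sq_inv]
    try rw [phi_inv]
    try rw [phi_sq]
    ext <;> simp [tr_mk, phi_eq] <;> ring
  rwa [h2]

theorem base_a' : qv ![-0, 0, 2, 2] ∈ JJ := by
  have h := mem_of_base ⟨⟨0, 0⟩, ⟨0, 0⟩, ⟨4, 0⟩, ⟨4, 0⟩⟩ (by decide +kernel)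
  have h2 : qv ![-0, 0, 2, 2] = toH ⟨⟨0, 0⟩, ⟨0, 0⟩, ⟨4, 0⟩, ⟨4, 0⟩⟩ := by
    try rw [phi_sq_inv]
    try rw [phi_inv]
    try rw [phi_sq]
    ext <;> simp [tr_mk, phi_eq] <;> ring
  rwa [h2]

theorem base_b1 : qv ![1, 1, 1, √5] ∈ JJ := by
  have h := mem_of_base ⟨⟨2, 0⟩, ⟨2, 0⟩, ⟨2, 0⟩, ⟨0, 2⟩⟩ (by decide +kernel)
  have h2 : qv ![1, 1, 1, √5] = toH ⟨⟨2, 0⟩, ⟨2, 0⟩, ⟨2, 0⟩, ⟨0, 2⟩⟩ := by
    try rw [phi_sq_inv]
    try rw [phi_inv]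
    try rw [phi_sq]
    ext <;> simp [tr_mk, phi_eq] <;> ring
  rwa [h2]

theorem base_b1' : qv ![-1, 1, 1, √5] ∈ JJ := by
  have h := mem_of_base ⟨⟨-2, 0⟩, ⟨2, 0⟩, ⟨2, 0⟩, ⟨0, 2⟩⟩ (by decide +kernel)
  have h2 : qv ![-1, 1, 1, √5] = toH ⟨⟨-2, 0⟩, ⟨2, 0⟩, ⟨2, 0⟩, ⟨0, 2⟩⟩ := by
    try rw [phi_sq_inv]
    try rw [phi_inv]
    try rw [phi_sq]
    ext <;> simp [tr_mk, phi_eq] <;> ring
  rwa [h2]

theorem base_b2 : qv ![φ, φ, φ, (φ ^ 2)⁻¹] ∈ JJ := by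
  have h := mem_of_base ⟨⟨1, 1⟩, ⟨1, 1⟩, ⟨1, 1⟩, ⟨3, -1⟩⟩ (by decide +kernel)
  have h2 : qv ![φ, φ, φ, (φ ^ 2)⁻¹] = toH ⟨⟨1, 1⟩, ⟨1, 1⟩, ⟨1, 1⟩, ⟨3, -1⟩⟩ := by
    try rw [phi_sq_inv]
    try rw [phi_inv]
    try rw [phi_sq]
    ext <;> simp [tr_mk, phi_eq] <;> ring
  rwa [h2]

theorem base_b2' : qv ![-φ, φ, φ, (φ ^ 2)⁻¹] ∈ JJ := by
  have h := mem_of_base ⟨⟨-1, -1⟩, ⟨1, 1⟩, ⟨1, 1⟩, ⟨3, -1⟩⟩ (by decide +kernel)
  have h2 : qv ![-φ, φ, φ, (φ ^ 2)⁻¹] = toH ⟨⟨-1, -1⟩, ⟨1, 1⟩, ⟨1, 1⟩, ⟨3, -1⟩⟩ := by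
    try rw [phi_sq_inv]
    try rw [phi_inv]
    try rw [phi_sq]
    ext <;> simp [tr_mk, phi_eq] <;> ring
  rwa [h2]

theorem base_b3 : qv ![φ⁻¹, φ⁻¹, φ⁻¹, φ ^ 2] ∈ JJ := by
  have h := mem_of_base ⟨⟨-1, 1⟩, ⟨-1, 1⟩, ⟨-1, 1⟩, ⟨3, 1⟩⟩ (by decide +kernel)
  have h2 : qv ![φ⁻¹, φ⁻¹, φ⁻¹, φ ^ 2] = toH ⟨⟨-1, 1⟩, ⟨-1, 1⟩, ⟨-1, 1⟩, ⟨3, 1⟩⟩ := by
    try rw [phi_sq_inv]
    try rw [phi_inv]
    try rw [phi_sq]
    ext <;> simp [tr_mk, phi_eq] <;> ring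
  rwa [h2]

theorem base_b3' : qv ![-φ⁻¹, φ⁻¹, φ⁻¹, φ ^ 2] ∈ JJ := by
  have h := mem_of_base ⟨⟨1, -1⟩, ⟨-1, 1⟩, ⟨-1, 1⟩, ⟨3, 1⟩⟩ (by decide +kernel)
  have h2 : qv ![-φ⁻¹, φ⁻¹, φ⁻¹, φ ^ 2] = toH ⟨⟨1, -1⟩, ⟨-1, 1⟩, ⟨-1, 1⟩, ⟨3, 1⟩⟩ := by
    try rw [phi_sq_inv]
    try rw [phi_inv]
    try rw [phi_sq]
    ext <;> simp [tr_mk, phi_eq] <;> ring
  rwa [h2]

theorem base_d1 : qv ![0, (φ ^ 2)⁻¹, 1, φ ^ 2] ∈ JJ := by
  have h := mem_of_base ⟨⟨0, 0⟩, ⟨3, -1⟩, ⟨2, 0⟩, ⟨3, 1⟩⟩ (by decide +kernel)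
  have h2 : qv ![0, (φ ^ 2)⁻¹, 1, φ ^ 2] = toH ⟨⟨0, 0⟩, ⟨3, -1⟩, ⟨2, 0⟩, ⟨3, 1⟩⟩ := by
    try rw [phi_sq_inv]
    try rw [phi_inv]
    try rw [phi_sq]
    ext <;> simp [tr_mk, phi_eq] <;> ring
  rwa [h2]

theorem base_d1' : qv ![-0, (φ ^ 2)⁻¹, 1, φ ^ 2] ∈ JJ := by
  have h := mem_of_base ⟨⟨0, 0⟩, ⟨3, -1⟩, ⟨2, 0⟩, ⟨3, 1⟩⟩ (by decide +kernel)
  have h2 : qv ![-0, (φ ^ 2)⁻¹, 1, φ ^ 2] = toH ⟨⟨0, 0⟩, ⟨3, -1⟩, ⟨2, 0⟩, ⟨3, 1⟩⟩ := by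
    try rw [phi_sq_inv]
    try rw [phi_inv]
    try rw [phi_sq]
    ext <;> simp [tr_mk, phi_eq] <;> ring
  rwa [h2]

theorem base_d2 : qv ![0, φ⁻¹, φ, √5] ∈ JJ := by
  have h := mem_of_base ⟨⟨0, 0⟩, ⟨-1, 1⟩, ⟨1, 1⟩, ⟨0, 2⟩⟩ (by decide +kernel)
  have h2 : qv ![0, φ⁻¹, φ, √5] = toH ⟨⟨0, 0⟩, ⟨-1, 1⟩, ⟨1, 1⟩, ⟨0, 2⟩⟩ := by
    try rw [phi_sq_inv]
    try rw [phi_inv]
    try rw [phi_sq]
    ext <;> simp [tr_mk, phi_eq] <;> ring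
  rwa [h2]

theorem base_d2' : qv ![-0, φ⁻¹, φ, √5] ∈ JJ := by
  have h := mem_of_base ⟨⟨0, 0⟩, ⟨-1, 1⟩, ⟨1, 1⟩, ⟨0, 2⟩⟩ (by decide +kernel)
  have h2 : qv ![-0, φ⁻¹, φ, √5] = toH ⟨⟨0, 0⟩, ⟨-1, 1⟩, ⟨1, 1⟩, ⟨0, 2⟩⟩ := by
    try rw [phi_sq_inv]
    try rw [phi_inv]
    try rw [phi_sq]
    ext <;> simp [tr_mk, phi_eq] <;> ring
  rwa [h2]

theorem base_e : qv ![φ⁻¹, 1, φ, 2] ∈ JJ := by
  have h := mem_of_base ⟨⟨-1, 1⟩, ⟨2, 0⟩, ⟨1, 1⟩, ⟨4, 0⟩⟩ (by decide +kernel)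
  have h2 : qv ![φ⁻¹, 1, φ, 2] = toH ⟨⟨-1, 1⟩, ⟨2, 0⟩, ⟨1, 1⟩, ⟨4, 0⟩⟩ := by
    try rw [phi_sq_inv]
    try rw [phi_inv]
    try rw [phi_sq]
    ext <;> simp [tr_mk, phi_eq] <;> ring
  rwa [h2]

theorem base_e' : qv ![-φ⁻¹, 1, φ, 2] ∈ JJ := by
  have h := mem_of_base ⟨⟨1, -1⟩, ⟨2, 0⟩, ⟨1, 1⟩, ⟨4, 0⟩⟩ (by decide +kernel)
  have h2 : qv ![-φ⁻¹, 1, φ, 2] = toH ⟨⟨1, -1⟩, ⟨2, 0⟩, ⟨1, 1⟩, ⟨4, 0⟩⟩ := by
    try rw [phi_sq_inv]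
    try rw [phi_inv]
    try rw [phi_sq]
    ext <;> simp [tr_mk, phi_eq] <;> ring
  rwa [h2]

/-- All sign changes and all even permutations of the seven vectors are vertices. -/
theorem signs_even {v : Fin 4 → ℝ} (h : qv v ∈ JJ) (h' : qv ![-v 0, v 1, v 2, v 3] ∈ JJ)
    (σ : Equiv.Perm (Fin 4)) (hσ : Equiv.Perm.sign σ = 1)
    (ε : Fin 4 → ℝ) (hε : ∀ i, ε i = 1 ∨ ε i = -1) : qv (fun i => ε i * v (σ i)) ∈ JJ := by
  have h1 := signs h h' (fun i => ε (σ.symm i)) (fun i => hε _)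
  have h2 := even_mem σ hσ _ h1
  convert h2 using 2
  funext i
  simp

theorem mem_cell {v : Fin 4 → ℝ} {σ : Equiv.Perm (Fin 4)} {ε : Fin 4 → ℝ}
    (hv : v ∈ famAll ∨ (v ∈ famEven ∧ Equiv.Perm.sign σ = 1))
    (hε : ∀ i, ε i = 1 ∨ ε i = -1) : qv (fun i => ε i * v (σ i)) ∈ JJ := by
  rcases hv with hv | ⟨hv, hσ⟩
  · -- the odd permutations are dealt with by the repeated coordinate
    have h1 : qv v ∈ JJ ∧ qv ![-v 0, v 1, v 2, v 3] ∈ JJ ∧ v 0 = v 1 := by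
      simp only [famAll, List.mem_cons, List.not_mem_nil, or_false] at hv
      rcases hv with rfl | rfl | rfl | rfl
      · exact ⟨base_a, base_a', rfl⟩
      · exact ⟨base_b1, base_b1', rfl⟩
      · exact ⟨base_b2, base_b2', rfl⟩
      · exact ⟨base_b3, base_b3', rfl⟩
    obtain ⟨h1, h2, h3⟩ := h1
    rcases Int.units_eq_one_or (Equiv.Perm.sign σ) with hσ | hσ
    · exact signs_even h1 h2 σ hσ ε hε
    · have h4 : Equiv.Perm.sign (Equiv.swap 0 1 * σ) = 1 := by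
        rw [Equiv.Perm.sign_mul, hσ, Equiv.Perm.sign_swap (by decide)]
        rfl
      have h5 := signs_even h1 h2 _ h4 ε hε
      convert h5 using 2
      funext i
      rw [Equiv.Perm.mul_apply]
      congr 1
      rcases eq_or_ne (σ i) 0 with h6 | h6
      · rw [h6, Equiv.swap_apply_left, h3]
      · rcases eq_or_ne (σ i) 1 with h7 | h7
        · rw [h7, Equiv.swap_apply_right, h3]
        · rw [Equiv.swap_apply_of_ne_of_ne h6 h7]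
  · have h1 : qv v ∈ JJ ∧ qv ![-v 0, v 1, v 2, v 3] ∈ JJ := by
      simp only [famEven, List.mem_cons, List.not_mem_nil, or_false] at hv
      rcases hv with rfl | rfl | rfl
      · exact ⟨base_d1, base_d1'⟩
      · exact ⟨base_d2, base_d2'⟩
      · exact ⟨base_e, base_e'⟩
    exact signs_even h1.1 h1.2 σ hσ ε hε

/-- Every set of points of `ℝ⁴` that a similarity maps into the vertex set of the 120-cell is
subsoluble. -/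
theorem result : ∀ X : Set (EuclideanSpace ℝ (Fin 4)),
    (∃ (r : ℝ) (g : EuclideanSpace ℝ (Fin 4) → EuclideanSpace ℝ (Fin 4)),
      0 < r ∧ (∀ x y, dist (g x) (g y) = r * dist x y) ∧ g '' X ⊆ cell120) →
    Subsoluble X := by
  rintro X ⟨r, g, hr, hg, hX⟩
  obtain ⟨W, hf, hs, h⟩ := main_orbit
  have hT : ∀ x y : EuclideanSpace ℝ (Fin 4),
      dist (T (linearIsometryEquivTuple.symm x)) (T (linearIsometryEquivTuple.symm y)) =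
        dist x y := by
    intro x y
    rw [T.isometry.dist_eq, linearIsometryEquivTuple.symm.isometry.dist_eq]
  refine subsoluble_of_orbit W (r⁻¹ • ((2 : ℝ) • T (toH w4))) X
    (fun x => r⁻¹ • T (linearIsometryEquivTuple.symm (g x))) ?_ ?_ ?_
  · refine Isometry.of_dist_eq fun x y => ?_
    rw [dist_smul₀, hT, hg, Real.norm_of_nonneg (inv_nonneg.mpr hr.le), ← mul_assoc,
      inv_mul_cancel₀ hr.ne', one_mul]
  · intro x hx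
    obtain ⟨v, σ, ε, hv, hε, hxv⟩ := hX ⟨x, hx, rfl⟩
    obtain ⟨w, hw, h1⟩ := h _ (mem_cell hv hε)
    refine ⟨w, hw, ?_⟩
    rw [LinearIsometryEquiv.map_smul, LinearIsometryEquiv.map_smul, h1]
    have h2 : linearIsometryEquivTuple.symm (g x) = (2 : ℝ) • qv (fun i => ε i * v (σ i)) := by
      ext <;> simp [hxv] <;> ring
    change _ = r⁻¹ • T (linearIsometryEquivTuple.symm (g x))
    rw [h2, LinearIsometry.map_smul]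
  · have h1 := LinearMap.finrank_le_finrank_of_injective (f := T.toLinearMap) T.injective
    rwa [Quaternion.finrank_eq_four] at h1

end Pool.Agent.SubSol.Cell120
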