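import Pool.Agent.SubSol.Basic

/-!
Sets of all coordinate permutations of a vector `α` in `ℝⁿ`, `n ≤ 8`, whose coordinates, apart from
one, lie at two distances `a` (twice) and `b` from a point `m`, are subsoluble. For `n = 5` this is
`X(1,1,1,1,1)` with `α₁ + α₂ = α₃ + α₄`.
-/

namespace Pool.Agent.SubSol.FiveValues

open Pool.Agent.SubSol

/-- The set of all coordinate permutations of the vector `α` in `ℝⁿ`. -/
def permSet {n : ℕ} (α : Fin n → ℝ) : Set (EuclideanSpace ℝ (Fin n)) :=
  {x | ∃ σ : Equiv.Perm (Fin n), ∀ i, x i = α (σ i)}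

/-! ### The affine semilinear group over the field with eight elements -/

/-- the field with eight elements as a vector space over the field with two elements -/
abbrev F8 : Type := ZMod 2 × ZMod 2 × ZMod 2

/-- multiplication by the generator `t`, where `t³ = t + 1` -/
def gen (x : F8) : F8 := (x.2.2, x.1 + x.2.2, x.2.1)

/-- the Frobenius map `x ↦ x²` -/
def frob (x : F8) : F8 := (x.1, x.2.2, x.2.1 + x.2.2)

/-- the map `x ↦ tᵏ x ^ (2 ^ l)` -/
def lin (k : Fin 7) (l : Fin 3) (x : F8) : F8 := gen^[(k : ℕ)] (frob^[(l : ℕ)] x)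

theorem lin_add : ∀ (k : Fin 7) (l : Fin 3) (x y : F8), lin k l (x + y) = lin k l x + lin k l y := by
  decide +kernel

theorem lin_comp : ∀ (k : Fin 7) (l : Fin 3) (k' : Fin 7) (l' : Fin 3), ∃ (k'' : Fin 7),
    ∀ x, lin k l (lin k' l' x) = lin k'' (l + l') x := by
  decide +kernel

theorem lin_inv : ∀ (k : Fin 7) (l : Fin 3), ∃ (k' : Fin 7), ∀ x, lin k' (-l) (lin k l x) = x := by
  decide +kernel

theorem lin_comm : ∀ (k : Fin 7) (l : Fin 3) (k' : Fin 7) (l' : Fin 3), ∃ (k'' : Fin 7),
    ∀ x, lin k l (lin k' l' x) = lin k'' 0 (lin k' l' (lin k l x)) := by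
  decide +kernel

theorem lin_comm0 : ∀ (k k' : Fin 7), ∀ x, lin k 0 (lin k' 0 x) = lin k' 0 (lin k 0 x) := by
  decide +kernel

theorem trans_conf0 : ∀ y z : F8, y ≠ 0 → z ≠ 0 → y ≠ z → ∃ (k : Fin 7) (l : Fin 3),
    (lin k l y = (1, 0, 0) ∧ lin k l z = (0, 1, 0)) ∨
      (lin k l z = (1, 0, 0) ∧ lin k l y = (0, 1, 0)) := by
  decide +kernel

/-- the affine semilinear group of the field with eight elements -/
def AGamma : Subgroup (Equiv.Perm F8) where
  carrier := {σ | ∃ (k : Fin 7) (l : Fin 3) (v : F8), ∀ x, σ x = lin k l x + v}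
  one_mem' := ⟨0, 0, 0, by intro x; simp [lin]⟩
  mul_mem' := by
    rintro σ τ ⟨k, l, v, h⟩ ⟨k', l', v', h'⟩
    obtain ⟨k'', h''⟩ := lin_comp k l k' l'
    refine ⟨k'', l + l', lin k l v' + v, fun x => ?_⟩
    rw [Equiv.Perm.mul_apply, h, h', lin_add, h'', add_assoc]
  inv_mem' := by
    rintro σ ⟨k, l, v, h⟩
    obtain ⟨k', h'⟩ := lin_inv k l
    refine ⟨k', -l, lin k' (-l) v, fun x => ?_⟩
    obtain ⟨y, rfl⟩ := σ.surjective x
    have h1 : σ⁻¹ (σ y) = y := σ.symm_apply_apply y
    have h2 : ∀ y : F8, y + v + v = y := by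
      have : ∀ y w : F8, y + w + w = y := by decide +kernel
      exact fun y => this y v
    rw [h1, h, ← lin_add, h2, h']

/-- the affine group of the field with eight elements -/
def A8 : Subgroup (Equiv.Perm F8) where
  carrier := {σ | ∃ (k : Fin 7) (v : F8), ∀ x, σ x = lin k 0 x + v}
  one_mem' := ⟨0, 0, by intro x; simp [lin]⟩
  mul_mem' := by
    rintro σ τ ⟨k, v, h⟩ ⟨k', v', h'⟩
    obtain ⟨k'', h''⟩ := lin_comp k 0 k' 0
    refine ⟨k'', lin k 0 v' + v, fun x => ?_⟩
    rw [Equiv.Perm.mul_apply, h, h', lin_add, h'', add_assoc, add_zero]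
  inv_mem' := by
    rintro σ ⟨k, v, h⟩
    obtain ⟨k', h'⟩ := lin_inv k 0
    rw [neg_zero] at h'
    refine ⟨k', lin k' 0 v, fun x => ?_⟩
    obtain ⟨y, rfl⟩ := σ.surjective x
    have h1 : σ⁻¹ (σ y) = y := σ.symm_apply_apply y
    have h2 : ∀ y : F8, y + v + v = y := by
      have : ∀ y w : F8, y + w + w = y := by decide +kernel
      exact fun y => this y v
    rw [h1, h, ← lin_add, h2, h']

/-- the translations -/
def T8 : Subgroup (Equiv.Perm F8) where
  carrier := {σ | ∃ v : F8, ∀ x, σ x = x + v}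
  one_mem' := ⟨0, by intro x; simp⟩
  mul_mem' := by
    rintro σ τ ⟨v, h⟩ ⟨v', h'⟩
    refine ⟨v' + v, fun x => ?_⟩
    rw [Equiv.Perm.mul_apply, h, h', add_assoc]
  inv_mem' := by
    rintro σ ⟨v, h⟩
    refine ⟨-v, fun x => ?_⟩
    obtain ⟨y, rfl⟩ := σ.surjective x
    have h1 : σ⁻¹ (σ y) = y := σ.symm_apply_apply y
    rw [h1, h, add_neg_cancel_right]

theorem isSolvable_T8 : Group.IsSolvable T8 := by
  apply Group.isSolvable_of_comm
  rintro ⟨σ, v, h⟩ ⟨τ, v', h'⟩
  apply Subtype.ext
  ext1 x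
  change σ (τ x) = τ (σ x)
  rw [h, h', h', h]
  abel

theorem perm_inv (σ : Equiv.Perm F8) (x : F8) : σ (σ⁻¹ x) = x := σ.apply_symm_apply x

theorem isSolvable_A8 : Group.IsSolvable A8 := by
  have := isSolvable_T8
  refine isSolvable_of_commutators A8 T8 ?_
  rintro σ ⟨k, v, h⟩ τ ⟨k', v', h'⟩
  refine ⟨-(lin k' 0 v) - v' + (lin k 0 v' + v), fun x => ?_⟩
  set y := σ⁻¹ (τ⁻¹ x) with hy
  have hx : x = τ (σ y) := by rw [hy, perm_inv, perm_inv]
  have hf : (σ * τ * σ⁻¹ * τ⁻¹) x = σ (τ y) := rfl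
  rw [hf, hx, h, h', h', h, lin_add, lin_add, lin_comm0]
  abel

theorem isSolvable_AGamma : Group.IsSolvable AGamma := by
  have := isSolvable_A8
  refine isSolvable_of_commutators AGamma A8 ?_
  rintro σ ⟨k, l, v, h⟩ τ ⟨k', l', v', h'⟩
  obtain ⟨k'', h''⟩ := lin_comm k l k' l'
  refine ⟨k'', -(lin k'' 0 (lin k' l' v)) - lin k'' 0 v' + (lin k l v' + v), fun x => ?_⟩
  set y := σ⁻¹ (τ⁻¹ x) with hy
  have hx : x = τ (σ y) := by rw [hy, perm_inv, perm_inv]
  have hf : (σ * τ * σ⁻¹ * τ⁻¹) x = σ (τ y) := rfl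
  rw [hf, hx, h, h', h', h, lin_add, lin_add, lin_add, lin_add, h'']
  abel

/-- Any point and any two further points can be moved to standard position. -/
theorem trans_conf (x y z : F8) (hxy : x ≠ y) (hxz : x ≠ z) (hyz : y ≠ z) :
    ∃ σ ∈ AGamma, σ x = 0 ∧
      ((σ y = (1, 0, 0) ∧ σ z = (0, 1, 0)) ∨ (σ z = (1, 0, 0) ∧ σ y = (0, 1, 0))) := by
  obtain ⟨k, l, h⟩ := trans_conf0 (y - x) (z - x) (sub_ne_zero.mpr hxy.symm)
    (sub_ne_zero.mpr hxz.symm) (fun e => hyz (sub_left_injective e))
  obtain ⟨k', h'⟩ := lin_inv k l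
  have h'' : ∀ w, lin k l (lin k' (-l) w) = w := by
    intro w
    have hinj : Function.Injective (lin k l) := fun a b e => by
      rw [← h' a, ← h' b, e]
    obtain ⟨w', rfl⟩ := (Finite.injective_iff_surjective.mp hinj) w
    rw [h']
  refine ⟨⟨fun w => lin k l w + -(lin k l x), fun w => lin k' (-l) (w + lin k l x), fun w => ?_,
    fun w => ?_⟩, ⟨k, l, -(lin k l x), fun w => rfl⟩, ?_, ?_⟩
  · change lin k' (-l) (lin k l w + -(lin k l x) + lin k l x) = w
    rw [neg_add_cancel_right, h']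
  · change lin k l (lin k' (-l) (w + lin k l x)) + -(lin k l x) = w
    rw [h'', add_neg_cancel_right]
  · exact add_neg_cancel _
  · have hs : ∀ u w : F8, lin k l (u - w) = lin k l u + -(lin k l w) := by
      intro u w
      have e1 : lin k l u = lin k l (u - w) + lin k l w := by rw [← lin_add, sub_add_cancel]
      rw [e1, add_neg_cancel_right]
    rw [hs, hs] at h
    exact h

/-! ### Signs -/

/-- the group of the two linear isometries of the line -/
def signGroup : Subgroup (ℝ ≃ₗᵢ[ℝ] ℝ) where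
  carrier := {f | (∀ x, f x = x) ∨ (∀ x, f x = -x)}
  one_mem' := Or.inl fun _ => rfl
  mul_mem' := by
    rintro f g (hf | hf) (hg | hg)
    · exact Or.inl fun x => by change f (g x) = x; rw [hf, hg]
    · exact Or.inr fun x => by change f (g x) = -x; rw [hf, hg]
    · exact Or.inr fun x => by change f (g x) = -x; rw [hf, hg]
    · exact Or.inl fun x => by change f (g x) = x; rw [hf, hg, neg_neg]
  inv_mem' := by
    rintro f (hf | hf)
    · refine Or.inl fun x => f.injective ?_
      have h1 : f (f⁻¹ x) = x := f.apply_symm_apply x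
      rw [h1, hf]
    · refine Or.inr fun x => f.injective ?_
      have h1 : f (f⁻¹ x) = x := f.apply_symm_apply x
      rw [h1, hf, neg_neg]

theorem isSolvable_signGroup : Group.IsSolvable signGroup := by
  apply Group.isSolvable_of_comm
  rintro ⟨f, hf⟩ ⟨g, hg⟩
  apply Subtype.ext
  ext x
  change f (g x) = g (f x)
  rcases hf with hf | hf <;> rcases hg with hg | hg <;> simp only [hf, hg]

theorem finite_signGroup : Finite signGroup := by
  have h : ((signGroup : Subgroup _) : Set (ℝ ≃ₗᵢ[ℝ] ℝ)) ⊆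
      {1, LinearIsometryEquiv.neg ℝ} := by
    rintro f (hf | hf)
    · left
      ext
      simp [hf]
    · right
      rw [Set.mem_singleton_iff]
      ext
      simp [hf]
  exact Set.Finite.subset (Set.toFinite _) h

theorem exists_sign (x y : ℝ) (h : |x| = |y|) : ∃ f ∈ signGroup, x = f y := by
  rcases abs_eq_abs.mp h with h | h
  · exact ⟨1, signGroup.one_mem, h⟩
  · exact ⟨LinearIsometryEquiv.neg ℝ, Or.inr fun x => rfl, h⟩

/-! ### The theorem -/

/-- the base vector: `s` at `0`, `a` at two further points, `b` elsewhere -/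
noncomputable def base (s a b : ℝ) (q : F8) : ℝ :=
  if q = 0 then s else if q = (1, 0, 0) ∨ q = (0, 1, 0) then a else b

theorem base_other (s a b : ℝ) (q : F8) (h0 : q ≠ 0) (h1 : q ≠ (1, 0, 0)) (h2 : q ≠ (0, 1, 0)) :
    base s a b q = b := by
  unfold base
  rw [if_neg h0, if_neg (by rintro (h | h); exacts [h1 h, h2 h])]

theorem base_two (s a b : ℝ) (q : F8) (h : q = (1, 0, 0) ∨ q = (0, 1, 0)) :
    base s a b q = a := by
  unfold base
  have h0 : q ≠ 0 := by rcases h with rfl | rfl <;> decide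
  rw [if_neg h0, if_pos h]

/-- Let `n ≤ 8` and let `α` be a vector in `ℝⁿ` such that, for some `m`, two coordinates of `α` have
distance `a` to `m` and all others, except possibly one, have distance `b` to `m`. Then the set of
all coordinate permutations of `α` is subsoluble. -/
theorem result (n : ℕ) (hn : n ≤ 8) (α : Fin n → ℝ) (m a b : ℝ) (i j k : Fin n)
    (hij : i ≠ j) (hik : i ≠ k) (hjk : j ≠ k) (hj : |α j - m| = a) (hk : |α k - m| = a)
    (hl : ∀ l, l ≠ i → l ≠ j → l ≠ k → |α l - m| = b) : Subsoluble (permSet α) := by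
  classical
  have := isSolvable_AGamma
  have := isSolvable_signGroup
  have := finite_signGroup
  obtain ⟨W, hf, hs, hW⟩ := exists_wreath (V := ℝ) (ι := F8) signGroup AGamma
  -- an injection of the coordinates into the field
  have hcard : Fintype.card (Fin n) ≤ Fintype.card F8 := by
    rw [Fintype.card_fin]
    exact hn.trans (by decide)
  obtain ⟨⟨e, he⟩⟩ := Function.Embedding.nonempty_of_card_le hcard
  let f : EuclideanSpace ℝ (Fin n) → PiLp 2 (fun _ : F8 => ℝ) := fun x =>
    WithLp.toLp 2 (Function.extend e (fun l => x l - m) (fun _ => b))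
  have hfe : ∀ x l, f x (e l) = x l - m := fun x l =>
    he.extend_apply (fun l => x l - m) (fun _ => b) l
  have hfo : ∀ x q, (¬ ∃ l, e l = q) → f x q = b := fun x q hq =>
    Function.extend_apply' (fun l => x l - m) (fun _ => b) q hq
  refine subsoluble_of_orbit W (WithLp.toLp 2 (base (α i - m) a b)) (permSet α) f ?_ ?_ ?_
  · refine Isometry.of_dist_eq fun x y => ?_
    rw [EuclideanSpace.dist_eq, PiLp.dist_eq_of_L2]
    congr 1
    symm
    refine Fintype.sum_of_injective e he _ _ ?_ ?_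
    · intro q hq
      have hq' : ¬ ∃ l, e l = q := hq
      rw [hfo x q hq', hfo y q hq', dist_self]
      norm_num
    · intro l
      rw [hfe, hfe, dist_sub_right]
  · rintro x ⟨σ, hσ⟩
    have hne : ∀ u v : Fin n, u ≠ v → e (σ.symm u) ≠ e (σ.symm v) := fun u v huv h =>
      huv (σ.symm.injective (he h))
    obtain ⟨τ, hτ, hx, hyz⟩ := trans_conf (e (σ.symm i)) (e (σ.symm j)) (e (σ.symm k))
      (hne i j hij) (hne i k hik) (hne j k hjk)
    have hy : τ (e (σ.symm j)) = (1, 0, 0) ∨ τ (e (σ.symm j)) = (0, 1, 0) := by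
      rcases hyz with h | h
      · exact Or.inl h.1
      · exact Or.inr h.2
    have hz : τ (e (σ.symm k)) = (1, 0, 0) ∨ τ (e (σ.symm k)) = (0, 1, 0) := by
      rcases hyz with h | h
      · exact Or.inr h.2
      · exact Or.inl h.1
    have hrest : ∀ q, q ≠ e (σ.symm i) → q ≠ e (σ.symm j) → q ≠ e (σ.symm k) →
        base (α i - m) a b (τ q) = b := by
      intro q h1 h2 h3
      refine base_other _ _ _ _ (fun h => h1 (τ.injective (h.trans hx.symm))) (fun h => ?_)
        (fun h => ?_)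
      · rcases hyz with h' | h'
        · exact h2 (τ.injective (h.trans h'.1.symm))
        · exact h3 (τ.injective (h.trans h'.1.symm))
      · rcases hyz with h' | h'
        · exact h3 (τ.injective (h.trans h'.2.symm))
        · exact h2 (τ.injective (h.trans h'.2.symm))
    have habs : ∀ q, |f x q| = |base (α i - m) a b (τ q)| := by
      intro q
      by_cases hq : ∃ l, e l = q
      · obtain ⟨l, rfl⟩ := hq
        rw [hfe, hσ]
        by_cases h1 : l = σ.symm i
        · rw [h1, hx, Equiv.apply_symm_apply]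
          simp [base]
        · by_cases h2 : l = σ.symm j
          · rw [h2, base_two _ _ _ _ hy, Equiv.apply_symm_apply, ← hj, abs_abs]
          · by_cases h3 : l = σ.symm k
            · rw [h3, base_two _ _ _ _ hz, Equiv.apply_symm_apply, ← hk, abs_abs]
            · rw [hrest (e l) (fun h => h1 (he h)) (fun h => h2 (he h)) (fun h => h3 (he h)),
                ← hl (σ l) (fun h => h1 (by rw [← h, Equiv.symm_apply_apply]))
                  (fun h => h2 (by rw [← h, Equiv.symm_apply_apply]))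
                  (fun h => h3 (by rw [← h, Equiv.symm_apply_apply])), abs_abs]
      · rw [hfo x q hq, hrest q (fun h => hq ⟨_, h.symm⟩) (fun h => hq ⟨_, h.symm⟩)
          (fun h => hq ⟨_, h.symm⟩)]
    choose κ hκ h2 using fun q => exists_sign _ _ (habs q)
    obtain ⟨w, hw, h3⟩ := hW κ hκ τ hτ
    refine ⟨w, hw, ?_⟩
    refine PiLp.ext fun q => ?_
    rw [h3, h2 q]
  · rw [finrank_euclideanSpace]
    exact hn.trans (by decide)

end Pool.Agent.SubSol.FiveValues
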