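import Pool.Agent.SubSol.Basic

/-!
Integer quaternions over `ℤ[√5]`, the binary tetrahedral group and an element of order five.
-/

namespace Pool.Agent.SubSol

open Quaternion

/-- Quaternions with coordinates in `ℤ[√5]`; they are read with a factor `1/4`, see `Q.toH`. -/
@[ext] structure Q where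
  /-- real part -/
  a : ℤ√5
  /-- first coordinate -/
  b : ℤ√5
  /-- second coordinate -/
  c : ℤ√5
  /-- third coordinate -/
  d : ℤ√5
deriving DecidableEq

namespace Q

/-- quaternion product -/
def mul (p q : Q) : Q :=
  ⟨p.a * q.a - p.b * q.b - p.c * q.c - p.d * q.d,
   p.a * q.b + p.b * q.a + p.c * q.d - p.d * q.c,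
   p.a * q.c - p.b * q.d + p.c * q.a + p.d * q.b,
   p.a * q.d + p.b * q.c - p.c * q.b + p.d * q.a⟩

/-- quaternion conjugate -/
def conj (p : Q) : Q := ⟨p.a, -p.b, -p.c, -p.d⟩

/-- multiplication by four -/
def mul4 (p : Q) : Q := ⟨4 * p.a, 4 * p.b, 4 * p.c, 4 * p.d⟩

/-- the ring homomorphism `ℤ[√5] → ℝ` -/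
noncomputable def tr : ℤ√5 →+* ℝ := Zsqrtd.toReal (d := 5) (by norm_num)

/-- the real quaternion `p / 4` -/
noncomputable def toH (p : Q) : ℍ := ⟨tr p.a / 4, tr p.b / 4, tr p.c / 4, tr p.d / 4⟩

@[simp] theorem toH_re (p : Q) : (toH p).re = tr p.a / 4 := rfl
@[simp] theorem toH_imI (p : Q) : (toH p).imI = tr p.b / 4 := rfl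
@[simp] theorem toH_imJ (p : Q) : (toH p).imJ = tr p.c / 4 := rfl
@[simp] theorem toH_imK (p : Q) : (toH p).imK = tr p.d / 4 := rfl

@[simp] theorem tr_four : tr 4 = 4 := map_ofNat tr 4

theorem toH_mul (p q : Q) : toH (mul p q) = (4 : ℝ) • (toH p * toH q) := by
  ext <;> simp [mul] <;> ring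

theorem toH_mul4 (p : Q) : toH (mul4 p) = (4 : ℝ) • toH p := by
  ext <;> simp [mul4] <;> ring

theorem toH_conj (p : Q) : toH (conj p) = star (toH p) := by
  ext <;> simp [conj] <;> ring

theorem mul2_eq {p q r : Q} (h : mul p q = mul4 r) : toH p * toH q = toH r := by
  have h1 := congrArg toH h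
  rw [toH_mul, toH_mul4] at h1
  exact smul_right_injective ℍ (by norm_num : (4 : ℝ) ≠ 0) h1

theorem mul3_eq {p q s r : Q} (h : mul (mul p q) s = mul4 (mul4 r)) :
    toH p * toH q * toH s = toH r := by
  have h1 := congrArg toH h
  rw [toH_mul, toH_mul, toH_mul4, toH_mul4, smul_mul_assoc] at h1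
  exact smul_right_injective ℍ (by norm_num : (4 : ℝ) ≠ 0)
    (smul_right_injective ℍ (by norm_num : (4 : ℝ) ≠ 0) h1)

theorem mul4_eq {p q s t r : Q} (h : mul (mul (mul p q) s) t = mul4 (mul4 (mul4 r))) :
    toH p * toH q * toH s * toH t = toH r := by
  have h1 := congrArg toH h
  rw [toH_mul, toH_mul, toH_mul, toH_mul4, toH_mul4, toH_mul4, smul_mul_assoc, smul_mul_assoc,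
    smul_mul_assoc] at h1
  exact smul_right_injective ℍ (by norm_num : (4 : ℝ) ≠ 0)
    (smul_right_injective ℍ (by norm_num : (4 : ℝ) ≠ 0)
      (smul_right_injective ℍ (by norm_num : (4 : ℝ) ≠ 0) h1))

theorem mul5_eq {p q s t u r : Q}
    (h : mul (mul (mul (mul p q) s) t) u = mul4 (mul4 (mul4 (mul4 r)))) :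
    toH p * toH q * toH s * toH t * toH u = toH r := by
  have h1 := congrArg toH h
  rw [toH_mul, toH_mul, toH_mul, toH_mul, toH_mul4, toH_mul4, toH_mul4, toH_mul4, smul_mul_assoc,
    smul_mul_assoc, smul_mul_assoc, smul_mul_assoc, smul_mul_assoc, smul_mul_assoc] at h1
  exact smul_right_injective ℍ (by norm_num : (4 : ℝ) ≠ 0)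
    (smul_right_injective ℍ (by norm_num : (4 : ℝ) ≠ 0)
      (smul_right_injective ℍ (by norm_num : (4 : ℝ) ≠ 0)
        (smul_right_injective ℍ (by norm_num : (4 : ℝ) ≠ 0) h1)))

end Q

open Q

/-- the quaternion `1` -/
def one4 : Q := ⟨4, 0, 0, 0⟩

theorem toH_one4 : toH one4 = 1 := by
  ext <;> simp [one4]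

/-- The 24 elements `h` of the binary tetrahedral group, each with the permutation `σ` of `ℤ/5`
such that `c⁻ⁱ h c^{σ i}` lies in the group for all `i`. -/
def HT : List (Q × (ZMod 5 → ZMod 5)) :=
  [(⟨⟨-4, 0⟩, ⟨0, 0⟩, ⟨0, 0⟩, ⟨0, 0⟩⟩, ![0, 1, 2, 3, 4]),
   (⟨⟨-2, 0⟩, ⟨-2, 0⟩, ⟨-2, 0⟩, ⟨-2, 0⟩⟩, ![0, 2, 3, 1, 4]),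
   (⟨⟨-2, 0⟩, ⟨-2, 0⟩, ⟨-2, 0⟩, ⟨2, 0⟩⟩, ![0, 1, 3, 4, 2]),
   (⟨⟨-2, 0⟩, ⟨-2, 0⟩, ⟨2, 0⟩, ⟨-2, 0⟩⟩, ![0, 4, 2, 1, 3]),
   (⟨⟨-2, 0⟩, ⟨-2, 0⟩, ⟨2, 0⟩, ⟨2, 0⟩⟩, ![0, 4, 1, 3, 2]),
   (⟨⟨-2, 0⟩, ⟨2, 0⟩, ⟨-2, 0⟩, ⟨-2, 0⟩⟩, ![0, 2, 4, 3, 1]),
   (⟨⟨-2, 0⟩, ⟨2, 0⟩, ⟨-2, 0⟩, ⟨2, 0⟩⟩, ![0, 3, 2, 4, 1]),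
   (⟨⟨-2, 0⟩, ⟨2, 0⟩, ⟨2, 0⟩, ⟨-2, 0⟩⟩, ![0, 1, 4, 2, 3]),
   (⟨⟨-2, 0⟩, ⟨2, 0⟩, ⟨2, 0⟩, ⟨2, 0⟩⟩, ![0, 3, 1, 2, 4]),
   (⟨⟨0, 0⟩, ⟨-4, 0⟩, ⟨0, 0⟩, ⟨0, 0⟩⟩, ![0, 2, 1, 4, 3]),
   (⟨⟨0, 0⟩, ⟨0, 0⟩, ⟨-4, 0⟩, ⟨0, 0⟩⟩, ![0, 3, 4, 1, 2]),
   (⟨⟨0, 0⟩, ⟨0, 0⟩, ⟨0, 0⟩, ⟨-4, 0⟩⟩, ![0, 4, 3, 2, 1]),
   (⟨⟨0, 0⟩, ⟨0, 0⟩, ⟨0, 0⟩, ⟨4, 0⟩⟩, ![0, 4, 3, 2, 1]),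
   (⟨⟨0, 0⟩, ⟨0, 0⟩, ⟨4, 0⟩, ⟨0, 0⟩⟩, ![0, 3, 4, 1, 2]),
   (⟨⟨0, 0⟩, ⟨4, 0⟩, ⟨0, 0⟩, ⟨0, 0⟩⟩, ![0, 2, 1, 4, 3]),
   (⟨⟨2, 0⟩, ⟨-2, 0⟩, ⟨-2, 0⟩, ⟨-2, 0⟩⟩, ![0, 3, 1, 2, 4]),
   (⟨⟨2, 0⟩, ⟨-2, 0⟩, ⟨-2, 0⟩, ⟨2, 0⟩⟩, ![0, 1, 4, 2, 3]),
   (⟨⟨2, 0⟩, ⟨-2, 0⟩, ⟨2, 0⟩, ⟨-2, 0⟩⟩, ![0, 3, 2, 4, 1]),
   (⟨⟨2, 0⟩, ⟨-2, 0⟩, ⟨2, 0⟩, ⟨2, 0⟩⟩, ![0, 2, 4, 3, 1]),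
   (⟨⟨2, 0⟩, ⟨2, 0⟩, ⟨-2, 0⟩, ⟨-2, 0⟩⟩, ![0, 4, 1, 3, 2]),
   (⟨⟨2, 0⟩, ⟨2, 0⟩, ⟨-2, 0⟩, ⟨2, 0⟩⟩, ![0, 4, 2, 1, 3]),
   (⟨⟨2, 0⟩, ⟨2, 0⟩, ⟨2, 0⟩, ⟨-2, 0⟩⟩, ![0, 1, 3, 4, 2]),
   (⟨⟨2, 0⟩, ⟨2, 0⟩, ⟨2, 0⟩, ⟨2, 0⟩⟩, ![0, 2, 3, 1, 4]),
   (⟨⟨4, 0⟩, ⟨0, 0⟩, ⟨0, 0⟩, ⟨0, 0⟩⟩, ![0, 1, 2, 3, 4])]

/-- the binary tetrahedral group -/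
def Hl : List Q :=
  [⟨⟨-4, 0⟩, ⟨0, 0⟩, ⟨0, 0⟩, ⟨0, 0⟩⟩,
   ⟨⟨-2, 0⟩, ⟨-2, 0⟩, ⟨-2, 0⟩, ⟨-2, 0⟩⟩,
   ⟨⟨-2, 0⟩, ⟨-2, 0⟩, ⟨-2, 0⟩, ⟨2, 0⟩⟩,
   ⟨⟨-2, 0⟩, ⟨-2, 0⟩, ⟨2, 0⟩, ⟨-2, 0⟩⟩,
   ⟨⟨-2, 0⟩, ⟨-2, 0⟩, ⟨2, 0⟩, ⟨2, 0⟩⟩,
   ⟨⟨-2, 0⟩, ⟨2, 0⟩, ⟨-2, 0⟩, ⟨-2, 0⟩⟩,
   ⟨⟨-2, 0⟩, ⟨2, 0⟩, ⟨-2, 0⟩, ⟨2, 0⟩⟩,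
   ⟨⟨-2, 0⟩, ⟨2, 0⟩, ⟨2, 0⟩, ⟨-2, 0⟩⟩,
   ⟨⟨-2, 0⟩, ⟨2, 0⟩, ⟨2, 0⟩, ⟨2, 0⟩⟩,
   ⟨⟨0, 0⟩, ⟨-4, 0⟩, ⟨0, 0⟩, ⟨0, 0⟩⟩,
   ⟨⟨0, 0⟩, ⟨0, 0⟩, ⟨-4, 0⟩, ⟨0, 0⟩⟩,
   ⟨⟨0, 0⟩, ⟨0, 0⟩, ⟨0, 0⟩, ⟨-4, 0⟩⟩,
   ⟨⟨0, 0⟩, ⟨0, 0⟩, ⟨0, 0⟩, ⟨4, 0⟩⟩,
   ⟨⟨0, 0⟩, ⟨0, 0⟩, ⟨4, 0⟩, ⟨0, 0⟩⟩,
   ⟨⟨0, 0⟩, ⟨4, 0⟩, ⟨0, 0⟩, ⟨0, 0⟩⟩,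
   ⟨⟨2, 0⟩, ⟨-2, 0⟩, ⟨-2, 0⟩, ⟨-2, 0⟩⟩,
   ⟨⟨2, 0⟩, ⟨-2, 0⟩, ⟨-2, 0⟩, ⟨2, 0⟩⟩,
   ⟨⟨2, 0⟩, ⟨-2, 0⟩, ⟨2, 0⟩, ⟨-2, 0⟩⟩,
   ⟨⟨2, 0⟩, ⟨-2, 0⟩, ⟨2, 0⟩, ⟨2, 0⟩⟩,
   ⟨⟨2, 0⟩, ⟨2, 0⟩, ⟨-2, 0⟩, ⟨-2, 0⟩⟩,
   ⟨⟨2, 0⟩, ⟨2, 0⟩, ⟨-2, 0⟩, ⟨2, 0⟩⟩,
   ⟨⟨2, 0⟩, ⟨2, 0⟩, ⟨2, 0⟩, ⟨-2, 0⟩⟩,
   ⟨⟨2, 0⟩, ⟨2, 0⟩, ⟨2, 0⟩, ⟨2, 0⟩⟩,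
   ⟨⟨4, 0⟩, ⟨0, 0⟩, ⟨0, 0⟩, ⟨0, 0⟩⟩]

/-- the quaternion group -/
def Ql : List Q :=
  [⟨⟨-4, 0⟩, ⟨0, 0⟩, ⟨0, 0⟩, ⟨0, 0⟩⟩,
   ⟨⟨0, 0⟩, ⟨-4, 0⟩, ⟨0, 0⟩, ⟨0, 0⟩⟩,
   ⟨⟨0, 0⟩, ⟨0, 0⟩, ⟨-4, 0⟩, ⟨0, 0⟩⟩,
   ⟨⟨0, 0⟩, ⟨0, 0⟩, ⟨0, 0⟩, ⟨-4, 0⟩⟩,
   ⟨⟨0, 0⟩, ⟨0, 0⟩, ⟨0, 0⟩, ⟨4, 0⟩⟩,
   ⟨⟨0, 0⟩, ⟨0, 0⟩, ⟨4, 0⟩, ⟨0, 0⟩⟩,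
   ⟨⟨0, 0⟩, ⟨4, 0⟩, ⟨0, 0⟩, ⟨0, 0⟩⟩,
   ⟨⟨4, 0⟩, ⟨0, 0⟩, ⟨0, 0⟩, ⟨0, 0⟩⟩]

/-- the group `±1` -/
def Zl : List Q := [⟨⟨-4, 0⟩, ⟨0, 0⟩, ⟨0, 0⟩, ⟨0, 0⟩⟩, ⟨⟨4, 0⟩, ⟨0, 0⟩, ⟨0, 0⟩, ⟨0, 0⟩⟩]

/-- the powers of the element `c` of order five -/
def cp : ZMod 5 → Q :=
  ![⟨⟨4, 0⟩, ⟨0, 0⟩, ⟨0, 0⟩, ⟨0, 0⟩⟩, ⟨⟨-1, 1⟩, ⟨2, 0⟩, ⟨1, 1⟩, ⟨0, 0⟩⟩, ⟨⟨-1, -1⟩, ⟨-1, 1⟩, ⟨2, 0⟩, ⟨0, 0⟩⟩, ⟨⟨-1, -1⟩, ⟨1, -1⟩, ⟨-2, 0⟩, ⟨0, 0⟩⟩, ⟨⟨-1, 1⟩, ⟨-2, 0⟩, ⟨-1, -1⟩, ⟨0, 0⟩⟩]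

/-- the quaternion `1 + i` -/
def w4 : Q := ⟨4, 4, 0, 0⟩

/-- the position of the second special entry in row `i` -/
def pit : ZMod 5 → ZMod 5 := ![0, 3, 4, 2, 1]

/-- the five labels -/
def lab (i j : ZMod 5) : ZMod 5 :=
  if i = 0 then (if j = 0 then 0 else 1) else (if j = 0 then 2 else if j = pit i then 3 else 4)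

/-- representatives of the five labels: row and column of a site -/
def repr : ZMod 5 → ZMod 5 × ZMod 5 := ![(0, 0), (0, 1), (1, 0), (1, 3), (1, 1)]

/-- certificates for the label of each site -/
def cert : ZMod 5 → ZMod 5 → Q × Q :=
  ![![(⟨⟨-4, 0⟩, ⟨0, 0⟩, ⟨0, 0⟩, ⟨0, 0⟩⟩, ⟨⟨-4, 0⟩, ⟨0, 0⟩, ⟨0, 0⟩, ⟨0, 0⟩⟩), (⟨⟨-4, 0⟩, ⟨0, 0⟩, ⟨0, 0⟩, ⟨0, 0⟩⟩, ⟨⟨-4, 0⟩, ⟨0, 0⟩, ⟨0, 0⟩, ⟨0, 0⟩⟩), (⟨⟨-2, 0⟩, ⟨-2, 0⟩, ⟨-2, 0⟩, ⟨2, 0⟩⟩, ⟨⟨0, 0⟩, ⟨-4, 0⟩, ⟨0, 0⟩, ⟨0, 0⟩⟩), (⟨⟨-2, 0⟩, ⟨-2, 0⟩, ⟨2, 0⟩, ⟨-2, 0⟩⟩, ⟨⟨0, 0⟩, ⟨0, 0⟩, ⟨-4, 0⟩, ⟨0, 0⟩⟩), (⟨⟨-2, 0⟩, ⟨2, 0⟩, ⟨-2, 0⟩, ⟨-2, 0⟩⟩, ⟨⟨2, 0⟩, ⟨-2,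 0⟩, ⟨2, 0⟩, ⟨-2, 0⟩⟩)],
   ![(⟨⟨-4, 0⟩, ⟨0, 0⟩, ⟨0, 0⟩, ⟨0, 0⟩⟩, ⟨⟨-4, 0⟩, ⟨0, 0⟩, ⟨0, 0⟩, ⟨0, 0⟩⟩), (⟨⟨-4, 0⟩, ⟨0, 0⟩, ⟨0, 0⟩, ⟨0, 0⟩⟩, ⟨⟨-4, 0⟩, ⟨0, 0⟩, ⟨0, 0⟩, ⟨0, 0⟩⟩), (⟨⟨-2, 0⟩, ⟨-2, 0⟩, ⟨-2, 0⟩, ⟨-2, 0⟩⟩, ⟨⟨0, 0⟩, ⟨-4, 0⟩, ⟨0, 0⟩, ⟨0, 0⟩⟩), (⟨⟨-4, 0⟩, ⟨0, 0⟩, ⟨0, 0⟩, ⟨0, 0⟩⟩, ⟨⟨-4, 0⟩, ⟨0, 0⟩, ⟨0, 0⟩, ⟨0, 0⟩⟩), (⟨⟨-2, 0⟩, ⟨2, 0⟩, ⟨2, 0⟩, ⟨2, 0⟩⟩, ⟨⟨2, 0⟩, ⟨-2, 0⟩, ⟨2, 0⟩, ⟨2, 0⟩⟩)],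
   ![(⟨⟨-2, 0⟩, ⟨-2, 0⟩, ⟨-2, 0⟩, ⟨2, 0⟩⟩, ⟨⟨2, 0⟩, ⟨2, 0⟩, ⟨2, 0⟩, ⟨-2, 0⟩⟩), (⟨⟨-2, 0⟩, ⟨-2, 0⟩, ⟨-2, 0⟩, ⟨2, 0⟩⟩, ⟨⟨2, 0⟩, ⟨2, 0⟩, ⟨2, 0⟩, ⟨2, 0⟩⟩), (⟨⟨-2, 0⟩, ⟨2, 0⟩, ⟨-2, 0⟩, ⟨2, 0⟩⟩, ⟨⟨-2, 0⟩, ⟨-2, 0⟩, ⟨2, 0⟩, ⟨-2, 0⟩⟩), (⟨⟨0, 0⟩, ⟨-4, 0⟩, ⟨0, 0⟩, ⟨0, 0⟩⟩, ⟨⟨-2, 0⟩, ⟨-2, 0⟩, ⟨2, 0⟩, ⟨2, 0⟩⟩), (⟨⟨-2, 0⟩, ⟨-2, 0⟩, ⟨-2, 0⟩, ⟨2, 0⟩⟩, ⟨⟨-2, 0⟩, ⟨2, 0⟩, ⟨2, 0⟩, ⟨2, 0⟩⟩)],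
   ![(⟨⟨-2, 0⟩, ⟨2, 0⟩, ⟨-2, 0⟩, ⟨-2, 0⟩⟩, ⟨⟨2, 0⟩, ⟨-2, 0⟩, ⟨-2, 0⟩, ⟨-2, 0⟩⟩), (⟨⟨0, 0⟩, ⟨0, 0⟩, ⟨-4, 0⟩, ⟨0, 0⟩⟩, ⟨⟨2, 0⟩, ⟨-2, 0⟩, ⟨-2, 0⟩, ⟨-2, 0⟩⟩), (⟨⟨-2, 0⟩, ⟨2, 0⟩, ⟨-2, 0⟩, ⟨-2, 0⟩⟩, ⟨⟨-2, 0⟩, ⟨-2, 0⟩, ⟨-2, 0⟩, ⟨-2, 0⟩⟩), (⟨⟨-2, 0⟩, ⟨2, 0⟩, ⟨-2, 0⟩, ⟨-2, 0⟩⟩, ⟨⟨0, 0⟩, ⟨0, 0⟩, ⟨4, 0⟩, ⟨0, 0⟩⟩), (⟨⟨-2, 0⟩, ⟨2, 0⟩, ⟨2, 0⟩, ⟨-2, 0⟩⟩, ⟨⟨0, 0⟩, ⟨0, 0⟩, ⟨0, 0⟩, ⟨-4, 0⟩⟩)],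
   ![(⟨⟨-2, 0⟩, ⟨-2, 0⟩, ⟨2, 0⟩, ⟨-2, 0⟩⟩, ⟨⟨2, 0⟩, ⟨2, 0⟩, ⟨2, 0⟩, ⟨2, 0⟩⟩), (⟨⟨-2, 0⟩, ⟨-2, 0⟩, ⟨2, 0⟩, ⟨-2, 0⟩⟩, ⟨⟨0, 0⟩, ⟨0, 0⟩, ⟨-4, 0⟩, ⟨0, 0⟩⟩), (⟨⟨-2, 0⟩, ⟨-2, 0⟩, ⟨2, 0⟩, ⟨-2, 0⟩⟩, ⟨⟨-2, 0⟩, ⟨2, 0⟩, ⟨2, 0⟩, ⟨-2, 0⟩⟩), (⟨⟨0, 0⟩, ⟨0, 0⟩, ⟨0, 0⟩, ⟨-4, 0⟩⟩, ⟨⟨-2, 0⟩, ⟨-2, 0⟩, ⟨-2, 0⟩, ⟨2, 0⟩⟩), (⟨⟨-2, 0⟩, ⟨-2, 0⟩, ⟨2, 0⟩, ⟨2, 0⟩⟩, ⟨⟨-2, 0⟩, ⟨2, 0⟩, ⟨-2, 0⟩, ⟨2, 0⟩⟩)]]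

/-- certificates for base vectors of the families -/
def baseT : List (Q × Q × ZMod 5 × ZMod 5 × Q) :=
  [(⟨⟨0, 0⟩, ⟨0, 0⟩, ⟨4, 0⟩, ⟨4, 0⟩⟩, ⟨⟨-4, 0⟩, ⟨0, 0⟩, ⟨0, 0⟩, ⟨0, 0⟩⟩, 0, 0, ⟨⟨0, 0⟩, ⟨0, 0⟩, ⟨-4, 0⟩, ⟨0, 0⟩⟩),
   (⟨⟨0, 0⟩, ⟨0, 0⟩, ⟨4, 0⟩, ⟨4, 0⟩⟩, ⟨⟨-4, 0⟩, ⟨0, 0⟩, ⟨0, 0⟩, ⟨0, 0⟩⟩, 0, 0, ⟨⟨0, 0⟩, ⟨0, 0⟩, ⟨-4, 0⟩, ⟨0, 0⟩⟩),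
   (⟨⟨2, 0⟩, ⟨2, 0⟩, ⟨2, 0⟩, ⟨0, 2⟩⟩, ⟨⟨-2, 0⟩, ⟨2, 0⟩, ⟨-2, 0⟩, ⟨-2, 0⟩⟩, 0, 1, ⟨⟨0, 0⟩, ⟨4, 0⟩, ⟨0, 0⟩, ⟨0, 0⟩⟩),
   (⟨⟨-2, 0⟩, ⟨2, 0⟩, ⟨2, 0⟩, ⟨0, 2⟩⟩, ⟨⟨-2, 0⟩, ⟨-2, 0⟩, ⟨-2, 0⟩, ⟨2, 0⟩⟩, 1, 0, ⟨⟨2, 0⟩, ⟨-2, 0⟩, ⟨-2, 0⟩, ⟨-2, 0⟩⟩),
   (⟨⟨1, 1⟩, ⟨1, 1⟩, ⟨1, 1⟩, ⟨3, -1⟩⟩, ⟨⟨-2, 0⟩, ⟨2, 0⟩, ⟨-2, 0⟩, ⟨-2, 0⟩⟩, 1, 0, ⟨⟨-2, 0⟩, ⟨-2, 0⟩, ⟨2, 0⟩, ⟨2, 0⟩⟩),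
   (⟨⟨-1, -1⟩, ⟨1, 1⟩, ⟨1, 1⟩, ⟨3, -1⟩⟩, ⟨⟨-2, 0⟩, ⟨-2, 0⟩, ⟨-2, 0⟩, ⟨2, 0⟩⟩, 0, 1, ⟨⟨-2, 0⟩, ⟨-2, 0⟩, ⟨2, 0⟩, ⟨2, 0⟩⟩),
   (⟨⟨-1, 1⟩, ⟨-1, 1⟩, ⟨-1, 1⟩, ⟨3, 1⟩⟩, ⟨⟨-2, 0⟩, ⟨2, 0⟩, ⟨-2, 0⟩, ⟨-2, 0⟩⟩, 1, 0, ⟨⟨-4, 0⟩, ⟨0, 0⟩, ⟨0, 0⟩, ⟨0, 0⟩⟩),
   (⟨⟨1, -1⟩, ⟨-1, 1⟩, ⟨-1, 1⟩, ⟨3, 1⟩⟩, ⟨⟨-2, 0⟩, ⟨-2, 0⟩, ⟨-2, 0⟩, ⟨2, 0⟩⟩, 0, 1, ⟨⟨-2, 0⟩, ⟨-2, 0⟩, ⟨-2, 0⟩, ⟨2, 0⟩⟩),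
   (⟨⟨0, 0⟩, ⟨3, -1⟩, ⟨2, 0⟩, ⟨3, 1⟩⟩, ⟨⟨-2, 0⟩, ⟨-2, 0⟩, ⟨-2, 0⟩, ⟨-2, 0⟩⟩, 1, 1, ⟨⟨-4, 0⟩, ⟨0, 0⟩, ⟨0, 0⟩, ⟨0, 0⟩⟩),
   (⟨⟨0, 0⟩, ⟨3, -1⟩, ⟨2, 0⟩, ⟨3, 1⟩⟩, ⟨⟨-2, 0⟩, ⟨-2, 0⟩, ⟨-2, 0⟩, ⟨-2, 0⟩⟩, 1, 1, ⟨⟨-4, 0⟩, ⟨0, 0⟩, ⟨0, 0⟩, ⟨0, 0⟩⟩),
   (⟨⟨0, 0⟩, ⟨-1, 1⟩, ⟨1, 1⟩, ⟨0, 2⟩⟩, ⟨⟨-2, 0⟩, ⟨-2, 0⟩, ⟨2, 0⟩, ⟨-2, 0⟩⟩, 1, 3, ⟨⟨0, 0⟩, ⟨4, 0⟩, ⟨0, 0⟩, ⟨0, 0⟩⟩),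
   (⟨⟨0, 0⟩, ⟨-1, 1⟩, ⟨1, 1⟩, ⟨0, 2⟩⟩, ⟨⟨-2, 0⟩, ⟨-2, 0⟩, ⟨2, 0⟩, ⟨-2, 0⟩⟩, 1, 3, ⟨⟨0, 0⟩, ⟨4, 0⟩, ⟨0, 0⟩, ⟨0, 0⟩⟩),
   (⟨⟨-1, 1⟩, ⟨2, 0⟩, ⟨1, 1⟩, ⟨4, 0⟩⟩, ⟨⟨0, 0⟩, ⟨-4, 0⟩, ⟨0, 0⟩, ⟨0, 0⟩⟩, 1, 1, ⟨⟨-2, 0⟩, ⟨-2, 0⟩, ⟨-2, 0⟩, ⟨2, 0⟩⟩),
   (⟨⟨1, -1⟩, ⟨2, 0⟩, ⟨1, 1⟩, ⟨4, 0⟩⟩, ⟨⟨-2, 0⟩, ⟨2, 0⟩, ⟨-2, 0⟩, ⟨-2, 0⟩⟩, 1, 1, ⟨⟨-2, 0⟩, ⟨2, 0⟩, ⟨2, 0⟩, ⟨-2, 0⟩⟩)]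

/-- a list of unit quaternions closed under products and conjugation -/
structure Good (S : List Q) : Prop where
  one_mem : one4 ∈ S
  mul_mem : ∀ p ∈ S, ∀ q ∈ S, ∃ r ∈ S, mul p q = mul4 r
  conj_mem : ∀ p ∈ S, conj p ∈ S
  norm_one : ∀ p ∈ S, mul p (conj p) = mul4 one4

theorem good_Hl : Good Hl := ⟨by decide +kernel, by decide +kernel, by decide +kernel,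
  by decide +kernel⟩

theorem good_Ql : Good Ql := ⟨by decide +kernel, by decide +kernel, by decide +kernel,
  by decide +kernel⟩

theorem good_Zl : Good Zl := ⟨by decide +kernel, by decide +kernel, by decide +kernel,
  by decide +kernel⟩

theorem comm_Hl : ∀ p ∈ Hl, ∀ q ∈ Hl, ∃ r ∈ Ql,
    mul (mul (mul p q) (conj p)) (conj q) = mul4 (mul4 (mul4 r)) := by decide +kernel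

theorem comm_Ql : ∀ p ∈ Ql, ∀ q ∈ Ql, ∃ r ∈ Zl,
    mul (mul (mul p q) (conj p)) (conj q) = mul4 (mul4 (mul4 r)) := by decide +kernel

theorem comm_Zl : ∀ p ∈ Zl, ∀ q ∈ Zl,
    mul (mul (mul p q) (conj p)) (conj q) = mul4 (mul4 (mul4 one4)) := by decide +kernel

theorem HT_inj : ∀ p ∈ HT, Function.Injective p.2 := by decide +kernel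

theorem HT_left : ∀ p ∈ HT, ∀ i : ZMod 5, ∃ r ∈ Hl,
    mul (mul (cp (-i)) p.1) (cp (p.2 i)) = mul4 (mul4 r) := by decide +kernel

theorem HT_cover : ∀ h ∈ Hl, ∃ p ∈ HT, p.1 = h := by decide +kernel

theorem cp_mul : ∀ i j : ZMod 5, mul (cp i) (cp j) = mul4 (cp (i + j)) := by decide +kernel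

theorem cp_conj : ∀ i : ZMod 5, conj (cp i) = cp (-i) := by decide +kernel

theorem cp_zero : cp 0 = one4 := by decide +kernel

theorem cert_mem : ∀ i j : ZMod 5, (cert i j).1 ∈ Hl ∧ (cert i j).2 ∈ Hl := by decide +kernel

theorem cert_spec : ∀ i j : ZMod 5,
    mul (mul (mul (mul (cert i j).1 (cp (-(repr (lab i j)).1))) w4) (cp (repr (lab i j)).2))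
      (cert i j).2 = mul4 (mul4 (mul (mul (cp (-i)) w4) (cp j))) := by decide +kernel

theorem base_spec : ∀ t ∈ baseT, t.2.1 ∈ Hl ∧ t.2.2.2.2 ∈ Hl ∧
    mul (mul (mul (mul t.2.1 (cp (-t.2.2.1))) w4) (cp t.2.2.2.1)) t.2.2.2.2 =
      mul4 (mul4 (mul4 (mul4 t.1))) := by decide +kernel

end Pool.Agent.SubSol
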