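import Pool.Agent.SubSol.Cell
import Pool.Agent.SubSol.FiveValues

/-!
Orbits of the full icosahedral group in `ℝ³` with at most `60` points are subsoluble.
-/

namespace Pool.Agent.SubSol.IcosMirror

open Pool.Agent.SubSol Quaternion Q Real
open Pool.Agent.SubSol.FiveValues (F8 AGamma isSolvable_AGamma trans_conf)
open scoped goldenRatio

/-- The full icosahedral group of order `120`, as a group of orthogonal `3 × 3` matrices: it is
generated by the reflection `diag(-1, 1, 1)`, the cyclic permutation of the coordinates and a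
rotation of order five. -/
noncomputable def icosGroup : Submonoid (Matrix (Fin 3) (Fin 3) ℝ) :=
  Submonoid.closure {!![-1, 0, 0; 0, 1, 0; 0, 0, 1], !![0, 0, 1; 1, 0, 0; 0, 1, 0],
    !![-φ⁻¹ / 2, φ / 2, 1 / 2; φ / 2, 1 / 2, -φ⁻¹ / 2; -1 / 2, φ⁻¹ / 2, -φ / 2]}

/-- The orbit of the point `p` of `ℝ³` under the full icosahedral group. -/
def icosOrbit (p : Fin 3 → ℝ) : Set (EuclideanSpace ℝ (Fin 3)) :=
  {x | ∃ A ∈ icosGroup, ∀ i, x i = (A.mulVec p) i}

/-! ### A pattern on eight sites -/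

section Pattern

variable {V : Type*} [NormedAddCommGroup V] [NormedSpace ℝ V]

/-- the base vector: `s` at `0`, `a` at two further points, `b` elsewhere -/
noncomputable def base (s a b : V) (q : F8) : V :=
  if q = 0 then s else if q = (1, 0, 0) ∨ q = (0, 1, 0) then a else b

theorem base_other (s a b : V) (q : F8) (h0 : q ≠ 0) (h1 : q ≠ (1, 0, 0)) (h2 : q ≠ (0, 1, 0)) :
    base s a b q = b := by
  unfold base
  rw [if_neg h0, if_neg (by rintro (h | h); exacts [h1 h, h2 h])]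

theorem base_two (s a b : V) (q : F8) (h : q = (1, 0, 0) ∨ q = (0, 1, 0)) :
    base s a b q = a := by
  unfold base
  have h0 : q ≠ 0 := by rcases h with rfl | rfl <;> decide
  rw [if_neg h0, if_pos h]

/-- All arrangements of the pattern `(s; a, a; b, b, b, b, b)` lie in one orbit. -/
theorem pattern8 (K : Subgroup (V ≃ₗᵢ[ℝ] V)) [Finite K] [Group.IsSolvable K] (s a b : V) :
    ∃ W : Subgroup (PiLp 2 (fun _ : F8 => V) ≃ₗᵢ[ℝ] PiLp 2 (fun _ : F8 => V)),
      Finite W ∧ Group.IsSolvable W ∧ ∀ (F : PiLp 2 (fun _ : F8 => V)) (x y z : F8),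
        x ≠ y → x ≠ z → y ≠ z → (∃ k ∈ K, F x = k s) → (∃ k ∈ K, F y = k a) →
        (∃ k ∈ K, F z = k a) → (∀ q, q ≠ x → q ≠ y → q ≠ z → ∃ k ∈ K, F q = k b) →
        ∃ w ∈ W, w (WithLp.toLp 2 (base s a b)) = F := by
  have := isSolvable_AGamma
  obtain ⟨W, hf, hs, hW⟩ := exists_wreath (V := V) (ι := F8) K AGamma
  refine ⟨W, hf, hs, ?_⟩
  intro F x y z hxy hxz hyz hx hy hz hq
  obtain ⟨τ, hτ, hx0, hyz0⟩ := trans_conf x y z hxy hxz hyz
  have key : ∀ q, ∃ k ∈ K, F q = k (base s a b (τ q)) := by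
    intro q
    by_cases h1 : q = x
    · rw [h1, hx0]
      exact hx
    · by_cases h2 : q = y
      · have h3 : τ q = (1, 0, 0) ∨ τ q = (0, 1, 0) := by
          rw [h2]
          rcases hyz0 with h | h
          · exact Or.inl h.1
          · exact Or.inr h.2
        rw [base_two _ _ _ _ h3, h2]
        exact hy
      · by_cases h4 : q = z
        · have h3 : τ q = (1, 0, 0) ∨ τ q = (0, 1, 0) := by
            rw [h4]
            rcases hyz0 with h | h
            · exact Or.inr h.2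
            · exact Or.inl h.1
          rw [base_two _ _ _ _ h3, h4]
          exact hz
        · rw [base_other _ _ _ _ (fun h => h1 (τ.injective (h.trans hx0.symm))) (fun h => ?_)
            (fun h => ?_)]
          · exact hq q h1 h2 h4
          · rcases hyz0 with h' | h'
            · exact h2 (τ.injective (h.trans h'.1.symm))
            · exact h4 (τ.injective (h.trans h'.1.symm))
          · rcases hyz0 with h' | h'
            · exact h4 (τ.injective (h.trans h'.2.symm))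
            · exact h2 (τ.injective (h.trans h'.2.symm))
  choose κ hκ h2 using key
  obtain ⟨w, hw, h3⟩ := hW κ hκ τ hτ
  refine ⟨w, hw, ?_⟩
  refine PiLp.ext fun q => ?_
  rw [h3, h2 q]

end Pattern

/-! ### The quaternion model -/

/-- a point of `ℝ³` as an imaginary quaternion -/
noncomputable def im (v : Fin 3 → ℝ) : ℍ := ⟨0, v 0, v 1, v 2⟩

@[simp] theorem im_re (v : Fin 3 → ℝ) : (im v).re = 0 := rfl
@[simp] theorem im_imI (v : Fin 3 → ℝ) : (im v).imI = v 0 := rfl
@[simp] theorem im_imJ (v : Fin 3 → ℝ) : (im v).imJ = v 1 := rfl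
@[simp] theorem im_imK (v : Fin 3 → ℝ) : (im v).imK = v 2 := rfl

theorem norm_im (v : EuclideanSpace ℝ (Fin 3)) : ‖im v‖ = ‖v‖ := by
  have h1 : ‖im v‖ * ‖im v‖ = ‖v‖ ^ 2 := by
    rw [← Quaternion.normSq_eq_norm_mul_self, Quaternion.normSq_def', EuclideanSpace.norm_sq_eq,
      Fin.sum_univ_three]
    simp
  nlinarith [norm_nonneg (im v), norm_nonneg v, sq_nonneg (‖im v‖ - ‖v‖)]

theorem im_sub (v w : EuclideanSpace ℝ (Fin 3)) : im v - im w = im (v - w : EuclideanSpace ℝ (Fin 3)) := by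
  ext <;> simp

/-- quaternions that permute the cosets of the powers of `c` -/
def Mv (q : ℍ) : Prop := ∃ σ : Equiv.Perm (ZMod 5), ∀ i, ∃ a ∈ Hl,
  toH (cp (-i)) * q = toH a * toH (cp (-(σ i)))

theorem Mv.mul {q q' : ℍ} (h : Mv q) (h' : Mv q') : Mv (q * q') := by
  obtain ⟨σ, h⟩ := h
  obtain ⟨σ', h'⟩ := h'
  refine ⟨σ' * σ, fun i => ?_⟩
  obtain ⟨a, ha, h1⟩ := h i
  obtain ⟨a', ha', h2⟩ := h' (σ i)
  obtain ⟨r, hr, h3⟩ := good_Hl.mul_mem a ha a' ha'
  refine ⟨r, hr, ?_⟩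
  rw [← mul_assoc, h1, mul_assoc, h2, ← mul_assoc, mul2_eq h3]
  rfl

/-- matrices given by quaternions -/
def Gd (A : Matrix (Fin 3) (Fin 3) ℝ) : Prop := ∃ ε : ℝ, (ε = 1 ∨ ε = -1) ∧ ∃ q : ℍ, Mv q ∧
  ∀ v, im (A.mulVec v) = ε • (q * im v * star q)

theorem Gd.mul {A B : Matrix (Fin 3) (Fin 3) ℝ} (hA : Gd A) (hB : Gd B) : Gd (A * B) := by
  obtain ⟨ε, hε, q, hq, h⟩ := hA
  obtain ⟨ε', hε', q', hq', h'⟩ := hB
  refine ⟨ε * ε', ?_, q * q', hq.mul hq', fun v => ?_⟩
  · rcases hε with rfl | rfl <;> rcases hε' with rfl | rfl <;> norm_num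
  · rw [← Matrix.mulVec_mulVec, h, h', StarMul.star_mul, mul_smul_comm, smul_mul_assoc, smul_smul]
    simp only [mul_assoc]

theorem Mv_H {a : Q} (ha : a ∈ Hl) : Mv (toH a) := left_move ha

theorem Gd_one : Gd 1 := by
  refine ⟨1, Or.inl rfl, toH one4, Mv_H good_Hl.one_mem, fun v => ?_⟩
  rw [toH_one4, Matrix.one_mulVec]
  simp

theorem Gd_refl : Gd !![-1, 0, 0; 0, 1, 0; 0, 0, 1] := by
  refine ⟨-1, Or.inr rfl, toH ⟨0, 4, 0, 0⟩, Mv_H (by decide +kernel), fun v => ?_⟩
  ext <;> simp [Matrix.mulVec, dotProduct, Fin.sum_univ_three]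

theorem tr_two : tr 2 = 2 := map_ofNat tr 2

theorem Gd_cyc : Gd !![0, 0, 1; 1, 0, 0; 0, 1, 0] := by
  refine ⟨1, Or.inl rfl, toH ⟨2, 2, 2, 2⟩, Mv_H (by decide +kernel), fun v => ?_⟩
  ext <;> simp [Matrix.mulVec, dotProduct, Fin.sum_univ_three, tr_two] <;> ring

theorem Mv_c : Mv (toH (cp 1)) := by
  refine ⟨Equiv.subRight 1, fun i => ⟨one4, good_Hl.one_mem, ?_⟩⟩
  rw [cp_cp, toH_one4, one_mul]
  congr 2
  change -i + 1 = -(i - 1)
  ring

theorem tr_mk (m n : ℤ) : tr ⟨m, n⟩ = m + n * √5 := by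
  simp [tr, Zsqrtd.toReal, Zsqrtd.lift]

theorem phi_eq : φ = (1 + √5) / 2 := rfl

theorem sqrt5_sq : √5 * √5 = 5 := Real.mul_self_sqrt (by norm_num)

theorem phi_inv : φ⁻¹ = (√5 - 1) / 2 := by
  have h : φ * ((√5 - 1) / 2) = 1 := by
    rw [phi_eq]
    nlinarith [sqrt5_sq]
  exact inv_eq_of_mul_eq_one_right h

theorem c_eq : toH (cp 1) = (⟨(√5 - 1) / 4, 1 / 2, (1 + √5) / 4, 0⟩ : ℍ) := by
  have h1 : cp 1 = ⟨⟨-1, 1⟩, ⟨2, 0⟩, ⟨1, 1⟩, ⟨0, 0⟩⟩ := rfl
  rw [h1]
  ext <;> simp [tr_mk] <;> ring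

theorem Gd_rot : Gd !![-φ⁻¹ / 2, φ / 2, 1 / 2; φ / 2, 1 / 2, -φ⁻¹ / 2; -1 / 2, φ⁻¹ / 2, -φ / 2] := by
  refine ⟨1, Or.inl rfl, toH (cp 1), Mv_c, fun v => ?_⟩
  rw [phi_inv, phi_eq, one_smul]
  have h5 : √5 ^ 2 = 5 := Real.sq_sqrt (by norm_num)
  have e1 : (toH (cp 1)).re = (√5 - 1) / 4 := by rw [c_eq]
  have e2 : (toH (cp 1)).imI = 1 / 2 := by rw [c_eq]
  have e3 : (toH (cp 1)).imJ = (1 + √5) / 4 := by rw [c_eq]
  have e4 : (toH (cp 1)).imK = 0 := by rw [c_eq]
  ext
  · simp only [im_re, Quaternion.re_mul, Quaternion.imI_mul, Quaternion.imJ_mul,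
      Quaternion.imK_mul, Quaternion.re_star, Quaternion.imI_star, Quaternion.imJ_star,
      Quaternion.imK_star, e1, e2, e3, e4, im_imI, im_imJ, im_imK]
    ring
  · simp only [im_re, Quaternion.re_mul, Quaternion.imI_mul, Quaternion.imJ_mul,
      Quaternion.imK_mul, Quaternion.re_star, Quaternion.imI_star, Quaternion.imJ_star,
      Quaternion.imK_star, e1, e2, e3, e4, im_imI, im_imJ, im_imK]
    simp [dotProduct, Fin.sum_univ_three]
    linear_combination (-v 2 / 8) * h5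
  · simp only [im_re, Quaternion.re_mul, Quaternion.imI_mul, Quaternion.imJ_mul,
      Quaternion.imK_mul, Quaternion.re_star, Quaternion.imI_star, Quaternion.imJ_star,
      Quaternion.imK_star, e1, e2, e3, e4, im_imI, im_imJ, im_imK]
    simp [dotProduct, Fin.sum_univ_three]
    linear_combination (-v 1 / 8) * h5
  · simp only [im_re, Quaternion.re_mul, Quaternion.imI_mul, Quaternion.imJ_mul,
      Quaternion.imK_mul, Quaternion.re_star, Quaternion.imI_star, Quaternion.imJ_star,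
      Quaternion.imK_star, e1, e2, e3, e4, im_imI, im_imJ, im_imK]
    simp [dotProduct, Fin.sum_univ_three]
    linear_combination (v 0 / 8) * h5

theorem Gd_of_mem {A : Matrix (Fin 3) (Fin 3) ℝ} (hA : A ∈ icosGroup) : Gd A := by
  unfold icosGroup at hA
  induction hA using Submonoid.closure_induction with
  | mem x hx =>
    simp only [Set.mem_insert_iff, Set.mem_singleton_iff] at hx
    rcases hx with rfl | rfl | rfl
    · exact Gd_refl
    · exact Gd_cyc
    · exact Gd_rot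
  | one => exact Gd_one
  | mul x y _ _ hx hy => exact hx.mul hy

/-- negation -/
def negQ (p : Q) : Q := ⟨-p.a, -p.b, -p.c, -p.d⟩

theorem toH_neg (p : Q) : toH (negQ p) = -toH p := by
  ext <;> simp [negQ] <;> ring

theorem negQ_mem : ∀ p ∈ Hl, negQ p ∈ Hl := by decide +kernel

theorem k_move : ∀ i : ZMod 5, ∃ r ∈ Hl,
    mul (mul (cp (-i)) ⟨0, 0, 0, 4⟩) (cp (-i)) = mul4 (mul4 r) := by decide +kernel

theorem star_cp (i : ZMod 5) : star (toH (cp i)) = toH (cp (-i)) := by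
  rw [← cp_conj, toH_conj]

/-- For a point of the mirror, the five points `c⁻ʲ p cʲ` fall into three classes. -/
theorem mirror {v : Fin 3 → ℝ} (hv : v 2 = 0) (i : ZMod 5) :
    Rel (toH (cp (-i)) * im v * toH (cp i)) (toH (cp i) * im v * toH (cp (-i))) := by
  obtain ⟨r, hr, h⟩ := k_move i
  have h1 : toH (cp (-i)) * toH ⟨0, 0, 0, 4⟩ = toH r * toH (cp i) := by
    rw [← mul3_eq h, mul_assoc _ (toH (cp (-i))) (toH (cp i)), cp_inv', mul_one]
  have h2 : im v = toH ⟨0, 0, 0, 4⟩ * im v * toH ⟨0, 0, 0, 4⟩ := by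
    ext <;> simp [hv]
  have h3 : toH ⟨0, 0, 0, 4⟩ * toH (cp i) = -(toH (cp (-i)) * star (toH r)) := by
    have h4 := congrArg star h1
    rw [StarMul.star_mul, StarMul.star_mul, star_cp, star_cp, neg_neg] at h4
    rw [← h4, ← neg_mul]
    congr 1
    ext <;> simp
  refine ⟨negQ r, negQ_mem r hr, conj r, good_Hl.conj_mem r hr, ?_⟩
  rw [toH_neg, toH_conj]
  calc toH (cp (-i)) * im v * toH (cp i)
      = (toH (cp (-i)) * toH ⟨0, 0, 0, 4⟩) * im v * (toH ⟨0, 0, 0, 4⟩ * toH (cp i)) := by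
        conv_lhs => rw [h2]
        simp only [mul_assoc]
    _ = -toH r * (toH (cp i) * im v * toH (cp (-i))) * star (toH r) := by
        rw [h1, h3]
        simp only [mul_assoc, mul_neg, neg_mul]

/-- the points `c⁻ⁱ v cⁱ` -/
noncomputable def yv (v : Fin 3 → ℝ) (i : ZMod 5) : ℍ := toH (cp (-i)) * im v * toH (cp i)

theorem rel_refl (x : ℍ) : Rel x x :=
  ⟨one4, good_Hl.one_mem, one4, good_Hl.one_mem, by rw [toH_one4]; simp⟩

theorem neg_rel (x : ℍ) : Rel (-x) x := by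
  refine ⟨negQ one4, negQ_mem _ good_Hl.one_mem, one4, good_Hl.one_mem, ?_⟩
  rw [toH_neg, toH_one4]
  simp

theorem move {A : Matrix (Fin 3) (Fin 3) ℝ} (hA : Gd A) : ∃ σ : Equiv.Perm (ZMod 5),
    ∀ v i, Rel (yv (A.mulVec v) i) (yv v (σ i)) := by
  obtain ⟨ε, hε, q, ⟨σ, hσ⟩, h⟩ := hA
  refine ⟨σ, fun v i => ?_⟩
  obtain ⟨a, ha, h1⟩ := hσ i
  have h2 : star q * toH (cp i) = toH (cp (σ i)) * star (toH a) := by
    have h3 := congrArg star h1
    rwa [StarMul.star_mul, StarMul.star_mul, star_cp, star_cp, neg_neg, neg_neg] at h3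
  have h4 : yv (A.mulVec v) i = ε • (toH a * yv v (σ i) * star (toH a)) := by
    unfold yv
    rw [h, mul_smul_comm, smul_mul_assoc]
    congr 1
    calc toH (cp (-i)) * (q * im v * star q) * toH (cp i)
        = (toH (cp (-i)) * q) * im v * (star q * toH (cp i)) := by simp only [mul_assoc]
      _ = _ := by
        rw [h1, h2]
        simp only [mul_assoc]
  have h5 : Rel (toH a * yv v (σ i) * star (toH a)) (yv v (σ i)) :=
    ⟨a, ha, conj a, good_Hl.conj_mem a ha, by rw [toH_conj]⟩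
  rw [h4]
  rcases hε with rfl | rfl
  · rw [one_smul]
    exact h5
  · rw [neg_one_smul]
    exact (neg_rel _).trans h5

theorem rel_smul {x y : ℍ} (h : Rel x y) (r : ℝ) :
    ∃ k ∈ KS Hl good_Hl, r • x = k (r • y) := by
  obtain ⟨a, ha, b, hb, rfl⟩ := h
  obtain ⟨f, hf, hf2⟩ := exists_KS good_Hl ha hb
  refine ⟨f, hf, ?_⟩
  rw [LinearIsometryEquiv.map_smul, hf2]

/-- Every orbit of the full icosahedral group that meets the plane `x₃ = 0` is subsoluble. -/
theorem result (p : Fin 3 → ℝ) (hp : ∃ A ∈ icosGroup, (A.mulVec p) 2 = 0) :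
    Subsoluble (icosOrbit p) := by
  classical
  obtain ⟨A, hA, hv⟩ := hp
  obtain ⟨σ, hσ⟩ := move (Gd_of_mem hA)
  set v := A.mulVec p with hvdef
  have := isSolvable_KH
  have := finite_KS good_Hl
  set r : ℝ := (√5)⁻¹ with hr
  have hr2 : r ^ 2 * 5 = 1 := by
    have h5 : √5 ^ 2 = 5 := Real.sq_sqrt (by norm_num)
    rw [hr, inv_pow, h5]
    norm_num
  obtain ⟨W, hf, hs, hW⟩ := pattern8 (KS Hl good_Hl) (r • yv v 0) (r • yv v 1) (r • yv v 2)
  have hcard : Fintype.card (ZMod 5) ≤ Fintype.card F8 := by decide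
  obtain ⟨⟨e, he⟩⟩ := Function.Embedding.nonempty_of_card_le hcard
  let f : EuclideanSpace ℝ (Fin 3) → PiLp 2 (fun _ : F8 => ℍ) := fun x =>
    WithLp.toLp 2 (Function.extend e (fun i => r • yv x i) (fun _ => r • yv v 2))
  have hfe : ∀ x i, f x (e i) = r • yv x i := fun x i =>
    he.extend_apply (fun i => r • yv x i) (fun _ => r • yv v 2) i
  have hfo : ∀ x q, (¬ ∃ i, e i = q) → f x q = r • yv v 2 := fun x q hq =>
    Function.extend_apply' (fun i => r • yv x i) (fun _ => r • yv v 2) q hq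
  refine subsoluble_of_orbit W (WithLp.toLp 2 (base (r • yv v 0) (r • yv v 1) (r • yv v 2)))
    (icosOrbit p) f ?_ ?_ ?_
  · refine Isometry.of_dist_eq fun x y => ?_
    have h1 : ∀ i, ‖r • yv x i - r • yv y i‖ ^ 2 = r ^ 2 * ‖x - y‖ ^ 2 := by
      intro i
      have h2 : r • yv x i - r • yv y i =
          r • (toH (cp (-i)) * im (x - y : EuclideanSpace ℝ (Fin 3)) * toH (cp i)) := by
        rw [← im_sub, mul_sub, sub_mul, smul_sub]
        rfl
      rw [h2, norm_smul, norm_mul, norm_mul, norm_cp, norm_cp, norm_im, one_mul, mul_one,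
        mul_pow, Real.norm_eq_abs, sq_abs]
    have h2 : dist (f x) (f y) ^ 2 = dist x y ^ 2 := by
      rw [dist_eq_norm, PiLp.norm_sq_eq_of_L2]
      have h3 : ∑ i : ZMod 5, r ^ 2 * ‖x - y‖ ^ 2 = ∑ q : F8, ‖(f x - f y) q‖ ^ 2 := by
        refine Fintype.sum_of_injective e he _ _ ?_ ?_
        · intro q hq
          have hq' : ¬ ∃ l, e l = q := hq
          rw [PiLp.sub_apply, hfo x q hq', hfo y q hq', sub_self, norm_zero]
          norm_num
        · intro i
          rw [PiLp.sub_apply, hfe, hfe, h1]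
      rw [← h3, Finset.sum_const, Finset.card_univ, ZMod.card, nsmul_eq_mul, dist_eq_norm]
      push_cast
      linear_combination ‖x - y‖ ^ 2 * hr2
    exact (sq_eq_sq₀ dist_nonneg dist_nonneg).mp h2
  · rintro x ⟨B, hB, hx⟩
    obtain ⟨τ, hτ⟩ := move (Gd_of_mem hB)
    have hxB : (x : Fin 3 → ℝ) = B.mulVec p := funext hx
    -- classes of the five points
    have key : ∀ i, Rel (yv x i) (yv v (σ.symm (τ i))) := by
      intro i
      have h1 := hτ p i
      have h2 := hσ p (σ.symm (τ i))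
      rw [Equiv.apply_symm_apply] at h2
      rw [hxB]
      exact h1.trans h2.symm
    set ρ : Equiv.Perm (ZMod 5) := τ.trans σ.symm with hρ
    have key' : ∀ i, Rel (yv x i) (yv v (ρ i)) := key
    have hne : ∀ a b : ZMod 5, a ≠ b → e (ρ.symm a) ≠ e (ρ.symm b) := fun a b hab h =>
      hab (ρ.symm.injective (he h))
    have h14 : Rel (yv v 4) (yv v 1) := by
      have := mirror hv (4 : ZMod 5)
      exact this
    have h32 : Rel (yv v 3) (yv v 2) := by
      have := mirror hv (3 : ZMod 5)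
      exact this
    have hat : ∀ a, Rel (yv x (ρ.symm a)) (yv v a) := by
      intro a
      have := key' (ρ.symm a)
      rwa [Equiv.apply_symm_apply] at this
    refine hW (f x) (e (ρ.symm 0)) (e (ρ.symm 1)) (e (ρ.symm 4)) (hne 0 1 (by decide))
      (hne 0 4 (by decide)) (hne 1 4 (by decide)) ?_ ?_ ?_ ?_
    · rw [hfe]
      exact rel_smul (hat 0) r
    · rw [hfe]
      exact rel_smul (hat 1) r
    · rw [hfe]
      exact rel_smul ((hat 4).trans h14) r
    · intro q h1 h2 h3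
      by_cases hq : ∃ i, e i = q
      · obtain ⟨i, rfl⟩ := hq
        rw [hfe]
        have h4 : ρ i = 2 ∨ ρ i = 3 := by
          have h5 : ρ i ≠ 0 := fun h => h1 (by rw [← h, Equiv.symm_apply_apply])
          have h6 : ρ i ≠ 1 := fun h => h2 (by rw [← h, Equiv.symm_apply_apply])
          have h7 : ρ i ≠ 4 := fun h => h3 (by rw [← h, Equiv.symm_apply_apply])
          have h8 : ∀ a : ZMod 5, a ≠ 0 → a ≠ 1 → a ≠ 4 → a = 2 ∨ a = 3 := by decide
          exact h8 _ h5 h6 h7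
        rcases h4 with h4 | h4
        · have := key' i
          rw [h4] at this
          exact rel_smul this r
        · have := key' i
          rw [h4] at this
          exact rel_smul (this.trans h32) r
      · rw [hfo x q hq]
        exact rel_smul (rel_refl _) r
  · have h1 : Module.finrank ℝ (PiLp 2 (fun _ : F8 => ℍ)) = 8 * 4 := by
      rw [(WithLp.linearEquiv 2 ℝ (F8 → ℍ)).finrank_eq, Module.finrank_pi_fintype]
      simp only [Quaternion.finrank_eq_four, Finset.sum_const, Finset.card_univ, smul_eq_mul]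
      rfl
    rw [h1]
    norm_num

end Pool.Agent.SubSol.IcosMirror
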