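import Mathlib

/-!
Automorphisms of the binary tree of depth `k` acting on its `2 ^ k` leaves form a finite `2`-group.
Words (labellings of the leaves) modulo this group, the commutative pairing of two words, operators
built from variables and constants by pairing, and the symmetrisation theorem: for every finite set
of multisets of size `n` some operator takes the same value on all arrangements of each of them.
(Helper file for problem MP_528470_co.)
-/

namespace Pool.Agent.SubSol.Tree

/-! ### The group -/

/-- The automorphism group of the binary tree of depth `k`, as permutations of the leaves: the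
permutations that preserve, for every `j`, the relation of having the same first `j` coordinates. -/
def K (k : ℕ) : Subgroup (Equiv.Perm (Fin k → Bool)) where
  carrier := {π | ∀ (u v : Fin k → Bool) (j : ℕ),
    (∀ i : Fin k, (i : ℕ) < j → u i = v i) ↔ (∀ i : Fin k, (i : ℕ) < j → π u i = π v i)}
  one_mem' := fun u v j => Iff.rfl
  mul_mem' := fun {a b} ha hb u v j => (hb u v j).trans (ha (b u) (b v) j)
  inv_mem' := fun {a} ha u v j => by
    have h1 := ha (a⁻¹ u) (a⁻¹ v) j
    have h2 : ∀ u, a (a⁻¹ u) = u := fun u => a.apply_symm_apply u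
    rw [h2, h2] at h1
    exact h1.symm

theorem mem_K {k : ℕ} {π : Equiv.Perm (Fin k → Bool)} : π ∈ K k ↔
    ∀ (u v : Fin k → Bool) (j : ℕ),
      (∀ i : Fin k, (i : ℕ) < j → u i = v i) ↔ (∀ i : Fin k, (i : ℕ) < j → π u i = π v i) :=
  Iff.rfl

theorem sq_step {k : ℕ} {h : Equiv.Perm (Fin k → Bool)} (hh : h ∈ K k) (j : ℕ)
    (hj : ∀ u, ∀ i : Fin k, (i : ℕ) < j → h u i = u i) :
    ∀ u, ∀ i : Fin k, (i : ℕ) < j + 1 → h (h u) i = u i := by
  intro u i hi
  rcases Nat.lt_succ_iff_lt_or_eq.mp hi with hi | hi
  · rw [hj _ _ hi, hj _ _ hi]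
  · -- coordinate `j`
    have h1 := hh (h u) u (j + 1)
    by_cases hc : h u i = u i
    · have h2 : ∀ l : Fin k, (l : ℕ) < j + 1 → h u l = u l := by
        intro l hl
        rcases Nat.lt_succ_iff_lt_or_eq.mp hl with hl | hl
        · exact hj u l hl
        · have : l = i := Fin.ext (by omega)
          rw [this, hc]
      rw [h1.mp h2 i (by omega), hc]
    · have h2 : h (h u) i ≠ h u i := by
        intro h3
        apply hc
        refine h1.mpr ?_ i (by omega)
        intro l hl
        rcases Nat.lt_succ_iff_lt_or_eq.mp hl with hl | hl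
        · rw [hj _ _ hl, hj _ _ hl]
        · have : l = i := Fin.ext (by omega)
          rw [this, h3]
      revert h2 hc
      generalize h (h u) i = a
      generalize h u i = b
      generalize u i = c
      revert a b c
      decide

theorem isPGroup_K (k : ℕ) : IsPGroup 2 (K k) := by
  intro g
  refine ⟨k, ?_⟩
  have main : ∀ j : ℕ, ∀ u : Fin k → Bool, ∀ i : Fin k, (i : ℕ) < j →
      ((g ^ (2 ^ j) : K k) : Equiv.Perm (Fin k → Bool)) u i = u i := by
    intro j
    induction j with
    | zero => intro u i hi; exact absurd hi (Nat.not_lt_zero _)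
    | succ j ih =>
      intro u i hi
      have := sq_step (g ^ (2 ^ j) : K k).2 j ih u i hi
      rw [pow_succ, pow_mul, sq]
      exact this
  apply Subtype.ext
  ext1 u
  funext i
  exact main k u i i.2

instance (k : ℕ) : Finite (K k) := Subtype.finite

/-! ### Words modulo the group -/

/-- two words are equivalent if a tree automorphism maps one to the other -/
def rel (L : Type) (k : ℕ) : Setoid ((Fin k → Bool) → L) where
  r w w' := ∃ π ∈ K k, ∀ u, w (π u) = w' u
  iseqv := by
    refine ⟨fun w => ⟨1, (K k).one_mem, fun u => rfl⟩, ?_, ?_⟩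
    · rintro w w' ⟨π, hπ, h⟩
      refine ⟨π⁻¹, (K k).inv_mem hπ, fun u => ?_⟩
      rw [← h]
      exact congrArg w (π.apply_symm_apply u).symm.symm
    · rintro w w' w'' ⟨π, hπ, h⟩ ⟨τ, hτ, h'⟩
      exact ⟨π * τ, (K k).mul_mem hπ hτ, fun u => by rw [Equiv.Perm.mul_apply, h, h']⟩

/-- types: words modulo tree automorphisms -/
def M (L : Type) (k : ℕ) : Type := Quotient (rel L k)

/-- the word made of two words -/
def glue {L : Type} {k : ℕ} (w w' : (Fin k → Bool) → L) : (Fin (k + 1) → Bool) → L :=
  fun u => if u 0 then w' (fun i => u i.succ) else w (fun i => u i.succ)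

theorem forall_lt_succ {k : ℕ} (P : Fin (k + 1) → Prop) (j : ℕ) :
    (∀ i : Fin (k + 1), (i : ℕ) < j + 1 → P i) ↔ P 0 ∧ ∀ i : Fin k, (i : ℕ) < j → P i.succ := by
  constructor
  · intro h
    exact ⟨h 0 (by simp), fun i hi => h i.succ (by simpa using hi)⟩
  · rintro ⟨h0, h⟩ i
    refine Fin.cases ?_ ?_ i
    · intro _
      exact h0
    · intro i hi
      exact h i (by simpa using hi)

/-- the tree automorphism acting on the two halves -/
def twoP {k : ℕ} (π : Bool → Equiv.Perm (Fin k → Bool)) : Equiv.Perm (Fin (k + 1) → Bool) where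
  toFun u := Fin.cons (u 0) (π (u 0) (fun i => u i.succ))
  invFun u := Fin.cons (u 0) ((π (u 0)).symm (fun i => u i.succ))
  left_inv u := by
    refine funext fun i => ?_
    refine Fin.cases ?_ ?_ i
    · rfl
    · intro i
      simp
  right_inv u := by
    refine funext fun i => ?_
    refine Fin.cases ?_ ?_ i
    · rfl
    · intro i
      simp

theorem twoP_mem {k : ℕ} (π : Bool → Equiv.Perm (Fin k → Bool)) (h : ∀ b, π b ∈ K k) :
    twoP π ∈ K (k + 1) := by
  intro u v j
  rcases j with _ | j
  · exact ⟨fun _ i hi => absurd hi (Nat.not_lt_zero _), fun _ i hi => absurd hi (Nat.not_lt_zero _)⟩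
  · rw [forall_lt_succ, forall_lt_succ]
    constructor
    · rintro ⟨h0, h1⟩
      refine ⟨h0, ?_⟩
      intro i hi
      change π (u 0) (fun i => u i.succ) i = π (v 0) (fun i => v i.succ) i
      rw [← h0]
      exact (h (u 0) _ _ j).mp h1 i hi
    · rintro ⟨h0, h1⟩
      have h0' : u 0 = v 0 := h0
      refine ⟨h0', ?_⟩
      refine (h (u 0) (fun i => u i.succ) (fun i => v i.succ) j).mpr ?_
      intro i hi
      have := h1 i hi
      change π (u 0) (fun i => u i.succ) i = π (v 0) (fun i => v i.succ) i at this
      rw [← h0'] at this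
      exact this

/-- the swap of the two halves -/
def swapP (k : ℕ) : Equiv.Perm (Fin (k + 1) → Bool) where
  toFun u := Fin.cons (!(u 0)) (fun i => u i.succ)
  invFun u := Fin.cons (!(u 0)) (fun i => u i.succ)
  left_inv u := by
    refine funext fun i => ?_
    refine Fin.cases ?_ ?_ i
    · simp
    · intro i
      simp
  right_inv u := by
    refine funext fun i => ?_
    refine Fin.cases ?_ ?_ i
    · simp
    · intro i
      simp

theorem swapP_mem (k : ℕ) : swapP k ∈ K (k + 1) := by
  intro u v j
  rcases j with _ | j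
  · exact ⟨fun _ i hi => absurd hi (Nat.not_lt_zero _), fun _ i hi => absurd hi (Nat.not_lt_zero _)⟩
  · rw [forall_lt_succ, forall_lt_succ]
    refine and_congr ?_ Iff.rfl
    change u 0 = v 0 ↔ (!(u 0)) = (!(v 0))
    exact (Bool.not_inj_iff).symm

/-- the pairing of types -/
def op {L : Type} {k : ℕ} : M L k → M L k → M L (k + 1) :=
  Quotient.map₂ glue (by
    rintro w w' ⟨π, hπ, h⟩ z z' ⟨τ, hτ, h'⟩
    refine ⟨twoP (fun b => if b then τ else π), twoP_mem _ ?_, ?_⟩
    · intro b
      cases b
      · exact hπ
      · exact hτ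
    · intro u
      simp only [glue, twoP, Equiv.coe_fn_mk, Fin.cons_zero, Fin.cons_succ]
      cases u 0
      · simpa using h _
      · simpa using h' _)

theorem op_comm {L : Type} {k : ℕ} (a b : M L k) : op a b = op b a := by
  induction a using Quotient.inductionOn with
  | h w =>
  induction b using Quotient.inductionOn with
  | h z =>
  refine Quotient.sound ⟨swapP k, swapP_mem k, fun u => ?_⟩
  simp only [glue, swapP, Equiv.coe_fn_mk, Fin.cons_zero, Fin.cons_succ]
  cases u 0 <;> simp

/-! ### Operators -/

section Operators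

variable {L : Type}

/-- operators of `n` arguments of level `m` -/
inductive IsOp {n m : ℕ} : {k : ℕ} → ((Fin n → M L m) → M L k) → Prop
  | proj (i : Fin n) : IsOp (fun y => y i)
  | const {k : ℕ} (c : M L k) : IsOp (fun _ => c)
  | pair {k : ℕ} {F G : (Fin n → M L m) → M L k} (hF : IsOp F) (hG : IsOp G) :
      IsOp (fun y => op (F y) (G y))

/-- operators that contain a variable -/
inductive NT {n m : ℕ} : {k : ℕ} → ((Fin n → M L m) → M L k) → Prop
  | proj (i : Fin n) : NT (fun y => y i)
  | pair {k : ℕ} {F G : (Fin n → M L m) → M L k} (hF : NT F) (hG : IsOp G) :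
      NT (fun y => op (F y) (G y))

theorem NT.isOp {n m k : ℕ} {F : (Fin n → M L m) → M L k} (h : NT F) : IsOp F := by
  induction h with
  | proj i => exact IsOp.proj i
  | pair _ hG ih => exact IsOp.pair ih hG

theorem IsOp.comp {n m k n' m' : ℕ} {F : (Fin n → M L m) → M L k} (h : IsOp F)
    (f : Fin n → (Fin n' → M L m') → M L m) (hf : ∀ i, IsOp (f i)) :
    IsOp (fun y => F (fun i => f i y)) := by
  induction h with
  | proj i => exact hf i
  | const c => exact IsOp.const c
  | pair _ _ ih1 ih2 => exact IsOp.pair ih1 ih2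

theorem NT.comp {n m k n' m' : ℕ} {F : (Fin n → M L m) → M L k} (h : NT F)
    (f : Fin n → (Fin n' → M L m') → M L m) (hf : ∀ i, NT (f i)) :
    NT (fun y => F (fun i => f i y)) := by
  induction h with
  | proj i => exact hf i
  | pair _ hG ih => exact NT.pair ih (hG.comp f fun i => (hf i).isOp)

/-- the multiset of the values of a tuple -/
def ms {α : Type} {n : ℕ} (y : Fin n → α) : Multiset α := Finset.univ.val.map y

theorem ms_succAbove {α : Type} {n : ℕ} (y : Fin (n + 1) → α) (i : Fin (n + 1)) :
    ms y = y i ::ₘ ms (fun j => y (i.succAbove j)) := by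
  rw [ms, Fin.univ_succAbove n i, Finset.cons_val, Finset.map_val, Multiset.map_cons,
    Multiset.map_map]
  rfl

theorem ms_cons {α : Type} {n : ℕ} (v : α) (y : Fin n → α) :
    ms (Fin.cons v y : Fin (n + 1) → α) = v ::ₘ ms y := by
  rw [ms_succAbove _ 0]
  simp only [Fin.cons_zero, Fin.succAbove_zero, Fin.cons_succ]

theorem card_ms {α : Type} {n : ℕ} (y : Fin n → α) : Multiset.card (ms y) = n := by
  rw [ms, Multiset.card_map, Finset.card_val, Finset.card_univ, Fintype.card_fin]

theorem exists_ms {α : Type} (s : Multiset α) {n : ℕ} (h : Multiset.card s = n) :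
    ∃ y : Fin n → α, ms y = s := by
  induction n generalizing s with
  | zero =>
    refine ⟨fun i => i.elim0, ?_⟩
    rw [Multiset.card_eq_zero] at h
    rw [h]
    rfl
  | succ n ih =>
    obtain ⟨a, ha⟩ := Multiset.card_pos_iff_exists_mem.mp (by omega : 0 < Multiset.card s)
    obtain ⟨t, rfl⟩ := Multiset.exists_cons_of_mem ha
    obtain ⟨y, hy⟩ := ih t (by rw [Multiset.card_cons] at h; omega)
    exact ⟨Fin.cons a y, by rw [ms_cons, hy]⟩

theorem ms_map {α β : Type} {n : ℕ} (y : Fin n → α) (f : α → β) :
    ms (fun i => f (y i)) = (ms y).map f := by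
  rw [ms, ms, Multiset.map_map]
  rfl

theorem mem_ms {α : Type} {n : ℕ} (y : Fin n → α) (a : α) : a ∈ ms y ↔ ∃ i, y i = a := by
  simp [ms]

/-- an operator is symmetric on a set of multisets -/
def SymOn {n m k : ℕ} (E : Set (Multiset (M L m))) (F : (Fin n → M L m) → M L k) : Prop :=
  ∀ y y', ms y ∈ E → ms y = ms y' → F y = F y'

open Classical in
/-- **The symmetrisation theorem.** -/
theorem exists_symOn (n : ℕ) : ∀ (m : ℕ) (E : Finset (Multiset (M L m))),
    ∃ (k : ℕ) (F : (Fin (n + 1) → M L m) → M L k), NT F ∧ SymOn (E : Set (Multiset (M L m))) F := by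
  induction n with
  | zero =>
    intro m E
    refine ⟨m, fun y => y 0, NT.proj 0, fun y y' _ h => ?_⟩
    have h1 := ms_succAbove y 0
    have h2 := ms_succAbove y' 0
    rw [h1, h2] at h
    have h3 : ms (fun j : Fin 0 => y ((0 : Fin 1).succAbove j)) = 0 :=
      Multiset.card_eq_zero.mp (card_ms _)
    have h4 : ms (fun j : Fin 0 => y' ((0 : Fin 1).succAbove j)) = 0 :=
      Multiset.card_eq_zero.mp (card_ms _)
    rw [h3, h4] at h
    exact (Multiset.cons_inj_left 0).mp h
  | succ n ihn =>
    -- strong induction on the total number of different values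
    have main : ∀ (N : ℕ) (m : ℕ) (E : Finset (Multiset (M L m))),
        (∑ e ∈ E, e.toFinset.card) = N →
        ∃ (k : ℕ) (F : (Fin (n + 1 + 1) → M L m) → M L k), NT F ∧
          SymOn (E : Set (Multiset (M L m))) F := by
      intro N
      induction N using Nat.strong_induction_on with
      | _ N ihN =>
      intro m E hE
      by_cases hcase : ∀ e ∈ E, ∀ p ∈ e, ∀ q ∈ e, p = q
      · -- all multisets are constant
        refine ⟨m, fun y => y 0, NT.proj 0, fun y y' hy h => ?_⟩
        exact hcase _ hy _ ((mem_ms y _).mpr ⟨0, rfl⟩) _ (by rw [h]; exact (mem_ms y' _).mpr ⟨0, rfl⟩)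
      · push Not at hcase
        obtain ⟨e₀, he₀, p, hp, q, hq, hpq⟩ := hcase
        by_cases hcard : Multiset.card e₀ = n + 1 + 1
        swap
        · -- a multiset of a wrong size can be omitted
          have hlt : (∑ e ∈ E.erase e₀, e.toFinset.card) < N := by
            rw [← hE, ← Finset.add_sum_erase E _ he₀]
            have : 0 < e₀.toFinset.card := Finset.card_pos.mpr ⟨p, by simpa using hp⟩
            omega
          obtain ⟨k, F, hF, hS⟩ := ihN _ hlt m (E.erase e₀) rfl
          refine ⟨k, F, hF, fun y y' hy h => hS y y' ?_ h⟩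
          rw [Finset.coe_erase]
          refine ⟨hy, ?_⟩
          intro hh
          exact hcard (by rw [← hh]; exact card_ms y)
        · -- the rest of `e₀`
          obtain ⟨κ, hκ⟩ : ∃ κ : Fin n → M L m, p ::ₘ q ::ₘ ms κ = e₀ := by
            obtain ⟨t, rfl⟩ := Multiset.exists_cons_of_mem hp
            have hq' : q ∈ t := by
              rcases Multiset.mem_cons.mp hq with h | h
              · exact absurd h.symm hpq
              · exact h
            obtain ⟨t', rfl⟩ := Multiset.exists_cons_of_mem hq'
            rw [Multiset.card_cons, Multiset.card_cons] at hcard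
            obtain ⟨κ, hκ⟩ := exists_ms t' (n := n) (by omega)
            exact ⟨κ, by rw [hκ]⟩
          -- the operator with one argument less
          obtain ⟨k, T, hT, hTS⟩ := ihn m (E.biUnion fun e => e.toFinset.image fun v => e.erase v)
          have hA : ∀ s : Multiset (M L m), ∃ c : M L k,
              s ∈ (E.biUnion fun e => e.toFinset.image fun v => e.erase v) →
              ∀ y : Fin (n + 1) → M L m, ms y = s → T y = c := by
            intro s
            by_cases hs : ∃ y : Fin (n + 1) → M L m, ms y = s
            · obtain ⟨y₀, hy₀⟩ := hs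
              refine ⟨T y₀, fun hs y hy => hTS y y₀ ?_ (hy.trans hy₀.symm)⟩
              rw [hy]
              exact hs
            · exact ⟨T (fun _ => p), fun _ y hy => absurd ⟨y, hy⟩ hs⟩
          choose A hA using hA
          -- the new tuple
          let φ : Multiset (M L m) → M L m → M L (k + 1) := fun e v =>
            op (A (e.erase v)) (T (Fin.cons v κ))
          let g : Fin (n + 1 + 1) → (Fin (n + 1 + 1) → M L m) → M L (k + 1) := fun i y =>
            op (T (fun j => y (i.succAbove j))) (T (Fin.cons (y i) κ))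
          have hmem : ∀ e ∈ E, ∀ v ∈ e,
              e.erase v ∈ (E.biUnion fun e => e.toFinset.image fun v => e.erase v) := by
            intro e he v hv
            rw [Finset.mem_biUnion]
            exact ⟨e, he, Finset.mem_image_of_mem _ (by simpa using hv)⟩
          have hsub : ∀ y : Fin (n + 1 + 1) → M L m, ∀ i,
              ms (fun j => y (i.succAbove j)) = (ms y).erase (y i) := by
            intro y i
            rw [ms_succAbove y i, Multiset.erase_cons_head]
          have hg : ∀ y : Fin (n + 1 + 1) → M L m, ms y ∈ E → ∀ i, g i y = φ (ms y) (y i) := by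
            intro y hy i
            change op _ _ = op _ _
            rw [hA ((ms y).erase (y i)) (hmem _ hy _ ((mem_ms y _).mpr ⟨i, rfl⟩)) _ (hsub y i)]
          have hgNT : ∀ i, NT (g i) := by
            intro i
            refine NT.pair (hT.comp _ fun j => NT.proj _) (hT.isOp.comp _ fun j => ?_)
            refine Fin.cases ?_ ?_ j
            · exact IsOp.proj i
            · intro j
              exact IsOp.const (κ j)
          -- the values `p` and `q` are merged
          have hpq' : φ e₀ p = φ e₀ q := by
            have h1 : e₀.erase p = q ::ₘ ms κ := by rw [← hκ, Multiset.erase_cons_head]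
            have h2 : e₀.erase q = p ::ₘ ms κ := by
              rw [← hκ, Multiset.cons_swap, Multiset.erase_cons_head]
            have h3 : T (Fin.cons q κ) = A (e₀.erase p) :=
              hA _ (hmem _ he₀ _ hp) _ (by rw [ms_cons, h1])
            have h4 : T (Fin.cons p κ) = A (e₀.erase q) :=
              hA _ (hmem _ he₀ _ hq) _ (by rw [ms_cons, h2])
            change op _ _ = op _ _
            rw [h3, h4, op_comm]
          -- the new set of multisets
          have hlt : (∑ e ∈ E.image (fun e => e.map (φ e)), e.toFinset.card) < N := by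
            refine lt_of_le_of_lt (Finset.sum_image_le_of_nonneg fun _ _ => Nat.zero_le _) ?_
            rw [← hE]
            have hle : ∀ e : Multiset (M L m),
                (e.map (φ e)).toFinset.card ≤ e.toFinset.card := by
              intro e
              rw [Multiset.toFinset_map]
              exact Finset.card_image_le
            refine Finset.sum_lt_sum (fun e _ => hle e) ⟨e₀, he₀, ?_⟩
            refine lt_of_le_of_ne (hle e₀) ?_
            rw [Multiset.toFinset_map]
            intro hcon
            exact hpq (Finset.card_image_iff.mp hcon (by simpa using hp) (by simpa using hq) hpq')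
          obtain ⟨k', F, hF, hFS⟩ := ihN _ hlt (k + 1) (E.image fun e => e.map (φ e)) rfl
          refine ⟨k', fun y => F (fun i => g i y), hF.comp g hgNT, ?_⟩
          intro y y' hy h
          have hm : ∀ y : Fin (n + 1 + 1) → M L m, ms y ∈ E →
              ms (fun i => g i y) = (ms y).map (φ (ms y)) := by
            intro y hy
            rw [← ms_map]
            congr 1
            exact funext fun i => hg y hy i
          refine hFS _ _ ?_ ?_
          · rw [hm y hy]
            exact Finset.mem_coe.mpr (Finset.mem_image_of_mem (fun e => e.map (φ e)) hy)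
          · rw [hm y hy, hm y' (by rw [← h]; exact hy), h]
    intro m E
    exact main _ m E rfl

/-! ### Patterns -/

/-- the word read from the tuple `y` by the pattern `ρ`: a leaf is either a position or a constant -/
def word {n k : ℕ} (ρ : (Fin k → Bool) → Fin n ⊕ L) (y : Fin n → L) : (Fin k → Bool) → L :=
  fun u => Sum.elim y id (ρ u)

/-- the type of a word -/
def mk {k : ℕ} (w : (Fin k → Bool) → L) : M L k := Quotient.mk (rel L k) w

theorem op_mk {k : ℕ} (w w' : (Fin k → Bool) → L) : op (mk w) (mk w') = mk (glue w w') := rfl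

/-- types of level zero -/
def mk0 (a : L) : M L 0 := mk fun _ => a

theorem IsOp.exists_word {n k : ℕ} {F : (Fin n → M L 0) → M L k} (h : IsOp F) :
    ∃ ρ : (Fin k → Bool) → Fin n ⊕ L,
      ∀ y : Fin n → L, F (fun i => mk0 (y i)) = mk (word ρ y) := by
  induction h with
  | proj i => exact ⟨fun _ => Sum.inl i, fun y => rfl⟩
  | const c =>
    induction c using Quotient.inductionOn with
    | h w => exact ⟨fun u => Sum.inr (w u), fun y => rfl⟩
  | pair _ _ ih1 ih2 =>
    obtain ⟨ρ₁, h1⟩ := ih1
    obtain ⟨ρ₂, h2⟩ := ih2
    refine ⟨glue ρ₁ ρ₂, fun y => ?_⟩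
    change op _ _ = _
    rw [h1, h2, op_mk]
    congr 1
    funext u
    simp only [glue, word]
    split_ifs <;> rfl

theorem NT.exists_word {n k : ℕ} {F : (Fin n → M L 0) → M L k} (h : NT F) :
    ∃ ρ : (Fin k → Bool) → Fin n ⊕ L, (∃ u i, ρ u = Sum.inl i) ∧
      ∀ y : Fin n → L, F (fun i => mk0 (y i)) = mk (word ρ y) := by
  induction h with
  | proj i => exact ⟨fun _ => Sum.inl i, ⟨fun _ => false, i, rfl⟩, fun y => rfl⟩
  | pair _ hG ih1 =>
    obtain ⟨ρ₁, ⟨u₁, i₁, hu⟩, h1⟩ := ih1
    obtain ⟨ρ₂, h2⟩ := hG.exists_word
    refine ⟨glue ρ₁ ρ₂, ⟨Fin.cons false u₁, i₁, ?_⟩, fun y => ?_⟩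
    · simp only [glue, Fin.cons_zero, Fin.cons_succ]
      exact hu
    · change op _ _ = _
      rw [h1, h2, op_mk]
      congr 1
      funext u
      simp only [glue, word]
      split_ifs <;> rfl

end Operators

/-- For every `n` there is a pattern with `n + 1` positions, in which all positions and the
constants `0, ..., n` may occur and some position occurs, such that the words read from all
permutations of `0, ..., n` are equivalent under tree automorphisms. -/
theorem exists_pattern (n : ℕ) : ∃ (k : ℕ) (ρ : (Fin k → Bool) → Fin (n + 1) ⊕ Fin (n + 1)),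
    (∃ u i, ρ u = Sum.inl i) ∧ ∀ σ : Equiv.Perm (Fin (n + 1)), ∃ π ∈ K k,
      ∀ u, word ρ id (π u) = word ρ σ u := by
  obtain ⟨k, F, hF, hS⟩ := exists_symOn (L := Fin (n + 1)) n 0 {ms fun i => mk0 i}
  obtain ⟨ρ, hρ, h⟩ := hF.exists_word
  refine ⟨k, ρ, hρ, fun σ => ?_⟩
  have h1 : ms (fun i => (mk0 i : M (Fin (n + 1)) 0)) = ms (fun i => mk0 (σ i)) := by
    have h2 : (Finset.univ : Finset (Fin (n + 1))).map σ.toEmbedding = Finset.univ :=
      Finset.map_univ_equiv σ
    rw [ms, ms]
    conv_lhs => rw [← h2]
    rw [Finset.map_val, Multiset.map_map]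
    rfl
  have h2 := hS _ _ (by simp) h1
  have h3 := h id
  have h4 := h σ
  simp only [id] at h3
  rw [h3, h4] at h2
  exact Quotient.exact (s := rel (Fin (n + 1)) k) h2

/-- The number of leaves that read the position `i`. -/
def cnt {n k : ℕ} (ρ : (Fin k → Bool) → Fin n ⊕ Fin n) (i : Fin n) : ℕ :=
  (Finset.univ.filter fun u => ρ u = Sum.inl i).card

theorem cnt_const {n k : ℕ} (ρ : (Fin k → Bool) → Fin n ⊕ Fin n)
    (h : ∀ σ : Equiv.Perm (Fin n), ∃ π ∈ K k, ∀ u, word ρ id (π u) = word ρ σ u) (i j : Fin n) :
    cnt ρ i = cnt ρ j := by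
  -- number of leaves with letter `a` in the word of `σ`
  have h1 : ∀ (σ : Equiv.Perm (Fin n)) (a : Fin n),
      (Finset.univ.filter fun u => word ρ σ u = a).card =
        cnt ρ (σ.symm a) + (Finset.univ.filter fun u => ρ u = Sum.inr a).card := by
    intro σ a
    rw [cnt, ← Finset.card_union_of_disjoint]
    · congr 1
      ext u
      simp only [Finset.mem_filter, Finset.mem_univ, true_and, Finset.mem_union, word]
      rcases ρ u with b | b
      · simp [Equiv.eq_symm_apply]
      · simp
    · rw [Finset.disjoint_filter]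
      intro u _ h2 h3
      rw [h2] at h3
      exact Sum.inl_ne_inr h3
  obtain ⟨π, _, hπ⟩ := h (Equiv.swap i j)
  have h2 := h1 (Equiv.swap i j) j
  have h3 := h1 1 j
  have h4 : (Finset.univ.filter fun u => word ρ (Equiv.swap i j) u = j).card =
      (Finset.univ.filter fun u => word ρ (1 : Equiv.Perm (Fin n)) u = j).card := by
    refine Finset.card_equiv π fun u => ?_
    simp only [Finset.mem_filter, Finset.mem_univ, true_and]
    rw [← hπ]
    rfl
  rw [h2, h3, Equiv.symm_swap, Equiv.swap_apply_right] at h4
  exact Nat.add_right_cancel h4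

end Pool.Agent.SubSol.Tree
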