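import Pool.Agent.SubSol.Affine3

/-!
Sets of all coordinate permutations of a vector `α` in `ℝⁿ`, `n ≤ 9`, all of whose coordinates,
except at most three, lie in a set of two values, are subsoluble. In particular `X(1,1,1,1,1)`, the
set of all permutations of five arbitrary reals, is subsoluble.
-/

namespace Pool.Agent.SubSol.TwoValuesAndThree

open Pool.Agent.SubSol Pool.Agent.SubSol.Affine3

/-- The set of all coordinate permutations of the vector `α` in `ℝⁿ`. -/
def permSet {n : ℕ} (α : Fin n → ℝ) : Set (EuclideanSpace ℝ (Fin n)) :=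
  {x | ∃ σ : Equiv.Perm (Fin n), ∀ i, x i = α (σ i)}

/-! ### Signs and cyclic shifts -/

/-- the group of the two linear isometries of the line -/
def signGroup : Subgroup (ℝ ≃ₗᵢ[ℝ] ℝ) where
  carrier := {f | (∀ x, f x = x) ∨ (∀ x, f x = -x)}
  one_mem' := Or.inl fun _ => rfl
  mul_mem' := by
    rintro f g (hf | hf) (hg | hg)
    · exact Or.inl fun x => by change f (g x) = x; rw [hf, hg]
    · exact Or.inr fun x => by change f (g x) = -x; rw [hf, hg]
    · exact Or.inr fun x => by change f (g x) = -x; rw [hf, hg]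
    · exact Or.inl fun x => by change f (g x) = x; rw [hf, hg, neg_neg]
  inv_mem' := by
    rintro f (hf | hf)
    · refine Or.inl fun x => f.injective ?_
      have h1 : f (f⁻¹ x) = x := f.apply_symm_apply x
      rw [h1, hf]
    · refine Or.inr fun x => f.injective ?_
      have h1 : f (f⁻¹ x) = x := f.apply_symm_apply x
      rw [h1, hf, neg_neg]

theorem isSolvable_signGroup : Group.IsSolvable signGroup := by
  apply Group.isSolvable_of_comm
  rintro ⟨f, hf⟩ ⟨g, hg⟩
  apply Subtype.ext
  ext x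
  change f (g x) = g (f x)
  rcases hf with hf | hf <;> rcases hg with hg | hg <;> simp only [hf, hg]

theorem finite_signGroup : Finite signGroup := by
  have h : ((signGroup : Subgroup _) : Set (ℝ ≃ₗᵢ[ℝ] ℝ)) ⊆
      {1, LinearIsometryEquiv.neg ℝ} := by
    rintro f (hf | hf)
    · left
      ext
      simp [hf]
    · right
      rw [Set.mem_singleton_iff]
      ext
      simp [hf]
  exact Set.Finite.subset (Set.toFinite _) h

theorem exists_sign (x y : ℝ) (h : |x| = |y|) : ∃ f ∈ signGroup, x = f y := by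
  rcases abs_eq_abs.mp h with h | h
  · exact ⟨1, signGroup.one_mem, h⟩
  · exact ⟨LinearIsometryEquiv.neg ℝ, Or.inr fun x => rfl, h⟩

/-- the cyclic shifts of the seven blocks -/
def cyc : Subgroup (Equiv.Perm (ZMod 7)) where
  carrier := {σ | ∃ c : ZMod 7, ∀ b, σ b = b + c}
  one_mem' := ⟨0, fun b => by rw [add_zero]; rfl⟩
  mul_mem' := by
    rintro σ τ ⟨c, h⟩ ⟨c', h'⟩
    exact ⟨c' + c, fun b => by rw [Equiv.Perm.mul_apply, h, h', add_assoc]⟩
  inv_mem' := by
    rintro σ ⟨c, h⟩
    refine ⟨-c, fun b => ?_⟩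
    obtain ⟨y, rfl⟩ := σ.surjective b
    have h1 : σ⁻¹ (σ y) = y := σ.symm_apply_apply y
    rw [h1, h, add_neg_cancel_right]

theorem isSolvable_cyc : Group.IsSolvable cyc := by
  apply Group.isSolvable_of_comm
  rintro ⟨σ, c, h⟩ ⟨τ, c', h'⟩
  apply Subtype.ext
  ext1 x
  change σ (τ x) = τ (σ x)
  rw [h, h', h', h]
  abel

/-! ### The main lemma -/

/-- the labelling `b` as a bijection -/
noncomputable def labE (b : ZMod 7) : Fin 9 ≃ F9 :=
  Equiv.ofBijective (lab b)
    ((Fintype.bijective_iff_injective_and_card _).2 ⟨lab_injective b, by decide⟩)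

theorem labE_apply (b : ZMod 7) (i : Fin 9) : labE b i = lab b i := rfl

/-- the embedding of `ℝ⁹` -/
noncomputable def emb (m : ℝ) (x : EuclideanSpace ℝ (Fin 9)) :
    PiLp 2 (fun _ : ZMod 7 => PiLp 2 (fun _ : F9 => ℝ)) :=
  WithLp.toLp 2 fun b => WithLp.toLp 2 fun q => (√7)⁻¹ * (x ((labE b).symm q) - m)

theorem emb_apply (m : ℝ) (x : EuclideanSpace ℝ (Fin 9)) (b : ZMod 7) (q : F9) :
    emb m x b q = (√7)⁻¹ * (x ((labE b).symm q) - m) := rfl

theorem emb_isometry (m : ℝ) : Isometry (emb m) := by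
  refine Isometry.of_dist_eq fun x y => ?_
  rw [EuclideanSpace.dist_eq, PiLp.dist_eq_of_L2]
  congr 1
  have h1 : ∀ b : ZMod 7, dist (emb m x b) (emb m y b) ^ 2 =
      ∑ i, (7 : ℝ)⁻¹ * dist (x i) (y i) ^ 2 := by
    intro b
    rw [PiLp.dist_eq_of_L2, Real.sq_sqrt (Finset.sum_nonneg fun _ _ => sq_nonneg _)]
    rw [← Equiv.sum_comp (labE b)]
    refine Finset.sum_congr rfl fun i _ => ?_
    rw [emb_apply, emb_apply, Equiv.symm_apply_apply, Real.dist_eq, Real.dist_eq]
    rw [← mul_sub, sub_sub_sub_cancel_right, abs_mul, mul_pow, sq_abs, inv_pow,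
      Real.sq_sqrt (by norm_num)]
  rw [Finset.sum_congr rfl fun b _ => h1 b, Finset.sum_const, Finset.card_univ, ZMod.card,
    ← Finset.mul_sum]
  simp only [nsmul_eq_mul]
  push_cast
  rw [← mul_assoc, mul_inv_cancel₀ (by norm_num), one_mul]

theorem main9 (α : Fin 9 → ℝ) (m β : ℝ) (i j k : Fin 9) (hij : i ≠ j) (hik : i ≠ k)
    (hjk : j ≠ k) (hl : ∀ l, l ≠ i → l ≠ j → l ≠ k → |α l - m| = β) :
    Subsoluble (permSet α) := by
  have := isSolvable_gl3
  have := isSolvable_signGroup
  have := finite_signGroup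
  have := isSolvable_cyc
  obtain ⟨W9, hf9, hs9, hW9⟩ := exists_wreath (V := ℝ) (ι := F9) signGroup (Aff gl3)
  obtain ⟨W, hf, hs, hW⟩ := exists_wreath (V := PiLp 2 (fun _ : F9 => ℝ)) (ι := ZMod 7) W9 cyc
  refine subsoluble_of_orbit W (emb m (WithLp.toLp 2 α)) (permSet α) (emb m) (emb_isometry m)
    ?_ ?_
  · rintro x ⟨σ, hσ⟩
    have hne : ∀ u v : Fin 9, u ≠ v → σ.symm u ≠ σ.symm v := fun u v huv h =>
      huv (σ.symm.injective h)
    obtain ⟨b0, hb0⟩ := lab_unique i j k hij hik hjk
    obtain ⟨b1, hb1⟩ := lab_unique (σ.symm i) (σ.symm j) (σ.symm k) (hne _ _ hij) (hne _ _ hik)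
      (hne _ _ hjk)
    have key : ∀ b : ZMod 7, ∃ w ∈ W9,
        w (emb m (WithLp.toLp 2 α) (b + (b0 - b1))) = emb m x b := by
      intro b
      have hinj : ∀ c, ∀ u v : Fin 9, u ≠ v → lab c u ≠ lab c v := fun c u v huv h =>
        huv (lab_injective c h)
      obtain ⟨τ, hτ, h1, h2, h3⟩ := move (lab b (σ.symm i)) (lab b (σ.symm j)) (lab b (σ.symm k))
        (lab (b + (b0 - b1)) i) (lab (b + (b0 - b1)) j) (lab (b + (b0 - b1)) k)
        (hinj _ _ _ (hne _ _ hij)) (hinj _ _ _ (hne _ _ hik)) (hinj _ _ _ (hne _ _ hjk))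
        (hinj _ _ _ hij) (hinj _ _ _ hik) (hinj _ _ _ hjk) (by
          rw [hb0, hb1]
          constructor
          · rintro rfl
            abel
          · intro h
            calc b = b0 - (b0 - b1) := eq_sub_of_add_eq h
              _ = b1 := by abel)
      have habs : ∀ q, |emb m x b q| = |emb m (WithLp.toLp 2 α) (b + (b0 - b1)) (τ q)| := by
        intro q
        rw [emb_apply, emb_apply, abs_mul, abs_mul]
        congr 1
        obtain ⟨l, rfl⟩ := (labE b).surjective q
        rw [Equiv.symm_apply_apply, hσ]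
        change |α (σ l) - m| = |α ((labE (b + (b0 - b1))).symm (τ (labE b l))) - m|
        by_cases e1 : l = σ.symm i
        · rw [e1, labE_apply, h1, ← labE_apply, Equiv.symm_apply_apply, Equiv.apply_symm_apply]
        by_cases e2 : l = σ.symm j
        · rw [e2, labE_apply, h2, ← labE_apply, Equiv.symm_apply_apply, Equiv.apply_symm_apply]
        by_cases e3 : l = σ.symm k
        · rw [e3, labE_apply, h3, ← labE_apply, Equiv.symm_apply_apply, Equiv.apply_symm_apply]
        have hgen : ∀ u : Fin 9, l ≠ σ.symm u →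
            τ (lab b (σ.symm u)) = lab (b + (b0 - b1)) u →
            (labE (b + (b0 - b1))).symm (τ (labE b l)) ≠ u := by
          intro u hu h4 h5
          rw [Equiv.symm_apply_eq, labE_apply, labE_apply, ← h4] at h5
          exact hu (lab_injective b (τ.injective h5))
        have hgen' : ∀ u : Fin 9, l ≠ σ.symm u → σ l ≠ u := by
          intro u hu h4
          exact hu (by rw [← h4, Equiv.symm_apply_apply])
        rw [hl _ (hgen' i e1) (hgen' j e2) (hgen' k e3),
          hl _ (hgen i e1 h1) (hgen j e2 h2) (hgen k e3 h3)]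
      choose κ hκ h4 using fun q => exists_sign _ _ (habs q)
      obtain ⟨w, hw, h5⟩ := hW9 κ hκ τ hτ
      refine ⟨w, hw, ?_⟩
      refine PiLp.ext fun q => ?_
      rw [h5, h4 q]
    choose κ hκ h2 using key
    obtain ⟨w, hw, h3⟩ := hW κ hκ (Equiv.addRight (b0 - b1)) ⟨b0 - b1, fun b => rfl⟩
    refine ⟨w, hw, ?_⟩
    refine PiLp.ext fun b => ?_
    rw [h3, ← h2 b]
    rfl
  · rw [(WithLp.linearEquiv 2 ℝ (ZMod 7 → PiLp 2 (fun _ : F9 => ℝ))).finrank_eq,
      Module.finrank_pi_fintype]
    change 9 ≤ ∑ _ : ZMod 7, Module.finrank ℝ (EuclideanSpace ℝ F9)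
    rw [finrank_euclideanSpace, Finset.sum_const]
    decide

/-- Subsets of subsoluble sets, up to an isometric embedding, are subsoluble. -/
theorem subsoluble_of_embed {d d' : ℕ} (X : Set (EuclideanSpace ℝ (Fin d)))
    (X' : Set (EuclideanSpace ℝ (Fin d'))) (g : EuclideanSpace ℝ (Fin d) → EuclideanSpace ℝ (Fin d'))
    (hg : Isometry g) (h : g '' X ⊆ X') (hd : d ≤ d') (hX : Subsoluble X') : Subsoluble X := by
  obtain ⟨n, hn, Y, hY, f, hf, hfX⟩ := hX
  refine ⟨n, hd.trans hn, Y, hY, fun x => f (g x), hf.comp hg, ?_⟩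
  rintro _ ⟨x, hx, rfl⟩
  exact hfX ⟨g x, h ⟨x, hx, rfl⟩, rfl⟩

theorem general (n : ℕ) (hn : n ≤ 9) (α : Fin n → ℝ) (a b : ℝ)
    (h3 : (Finset.univ.filter fun i => α i ≠ a ∧ α i ≠ b).card ≤ 3) :
    Subsoluble (permSet α) := by
  classical
  -- extension by `a`
  let e : Fin n ↪ Fin 9 := Fin.castLEEmb hn
  let ext : (Fin n → ℝ) → (Fin 9 → ℝ) := fun x => Function.extend e x (fun _ => a)
  have he : ∀ x l, ext x (e l) = x l := fun x l => e.injective.extend_apply x (fun _ => a) l
  have ho : ∀ x q, (¬ ∃ l, e l = q) → ext x q = a := fun x q hq =>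
    Function.extend_apply' x (fun _ => a) q hq
  have hsub : Subsoluble (permSet (ext α)) := by
    set S : Finset (Fin 9) := Finset.univ.filter fun i => ext α i ≠ a ∧ ext α i ≠ b with hS
    have hScard : S.card ≤ 3 := by
      refine le_trans (Finset.card_le_card (t := (Finset.univ.filter fun i => α i ≠ a ∧ α i ≠ b).map e)
        ?_) (by rw [Finset.card_map]; exact h3)
      intro q hq
      rw [hS, Finset.mem_filter] at hq
      by_cases hq' : ∃ l, e l = q
      · obtain ⟨l, rfl⟩ := hq'
        rw [he] at hq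
        exact Finset.mem_map_of_mem _ (Finset.mem_filter.mpr ⟨Finset.mem_univ _, hq.2⟩)
      · exact absurd (ho α q hq') hq.2.1
    obtain ⟨T, hST, hT⟩ := Finset.exists_superset_card_eq hScard (by simp)
    obtain ⟨i, j, k, hij, hik, hjk, rfl⟩ := Finset.card_eq_three.mp hT
    refine main9 (ext α) ((a + b) / 2) (|(a - b) / 2|) i j k hij hik hjk ?_
    intro l h1 h2 h3
    have hl : l ∉ S := fun hl => by
      have := hST hl
      simp only [Finset.mem_insert, Finset.mem_singleton] at this
      rcases this with h | h | h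
      exacts [h1 h, h2 h, h3 h]
    rw [hS, Finset.mem_filter, not_and_or, not_and_or, not_not, not_not] at hl
    rcases hl with hl | hl | hl
    · exact absurd (Finset.mem_univ _) hl
    · rw [hl]
      congr 1
      ring
    · rw [hl, abs_sub_comm]
      congr 1
      ring
  refine subsoluble_of_embed (permSet α) _ (fun x => WithLp.toLp 2 (ext x)) ?_ ?_ hn hsub
  · refine Isometry.of_dist_eq fun x y => ?_
    rw [EuclideanSpace.dist_eq, EuclideanSpace.dist_eq]
    congr 1
    symm
    refine Fintype.sum_of_injective e e.injective _ _ ?_ ?_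
    · intro q hq
      have hq' : ¬ ∃ l, e l = q := hq
      change dist (ext x q) (ext y q) ^ 2 = 0
      rw [ho x q hq', ho y q hq', dist_self]
      norm_num
    · intro l
      change dist (x l) (y l) ^ 2 = dist (ext x (e l)) (ext y (e l)) ^ 2
      rw [he, he]
  · rintro _ ⟨x, ⟨σ, hσ⟩, rfl⟩
    refine ⟨σ.extendDomain (Equiv.ofInjective e e.injective), fun q => ?_⟩
    change ext x q = ext α _
    by_cases hq : ∃ l, e l = q
    · obtain ⟨l, rfl⟩ := hq
      have : σ.extendDomain (Equiv.ofInjective e e.injective) (e l) = e (σ l) := by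
        have := Equiv.Perm.extendDomain_apply_image σ (Equiv.ofInjective e e.injective) l
        simpa using this
      rw [this, he, he, hσ]
    · rw [Equiv.Perm.extendDomain_apply_not_subtype _ _ (by simpa using hq), ho _ _ hq, ho _ _ hq]

/-- Let `n ≤ 9` and let `α` be a vector in `ℝⁿ` all of whose coordinates, except at most three, lie
in the set `{a, b}`. Then the set of all coordinate permutations of `α` is subsoluble. In
particular the set `X(1,1,1,1,1)` of all permutations of five reals is subsoluble. -/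
theorem result :
    (∀ α : Fin 5 → ℝ, Subsoluble (permSet α)) ∧
    ∀ (n : ℕ), n ≤ 9 → ∀ (α : Fin n → ℝ) (a b : ℝ),
      (Finset.univ.filter fun i => α i ≠ a ∧ α i ≠ b).card ≤ 3 → Subsoluble (permSet α) := by
  refine ⟨fun α => general 5 (by norm_num) α (α 3) (α 4) ?_, general⟩
  refine le_trans (Finset.card_le_card (t := {0, 1, 2}) ?_) (by decide)
  intro i hi
  rw [Finset.mem_filter] at hi
  fin_cases i
  · simp
  · simp
  · simp
  · exact absurd rfl hi.2.1
  · exact absurd rfl hi.2.2

end Pool.Agent.SubSol.TwoValuesAndThree
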